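import Mathlib
import Pool.Agent.Work.MP_af11aa_nt.Level2

namespace Pool.Agent.Work.MP_af11aa_nt.K

open Pool.Agent.Work.MP_af11aa_nt
open UpperHalfPlane CongruenceSubgroup MeasureTheory
open Complex hiding Gamma
open scoped MatrixGroups Manifold Topology ComplexConjugate ENNReal Modular

noncomputable section

lemma wt_ne_top (z : ℍ) : wt z ≠ ⊤ := by
  refine ne_top_of_le_ne_top ENNReal.one_ne_top ((wt_le z).trans ?_)
  by_cases hz : z ∈ (𝒟 : Set ℍ)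
  · rw [Set.indicator_of_mem hz]; simp
  · rw [Set.indicator_of_notMem hz]; simp

lemma tsum_wt_toReal (z : ℍ) : ∑' γ : SL(2, ℤ), (wt (γ • z)).toReal = 1 := by
  rw [← ENNReal.tsum_toReal_eq fun γ ↦ wt_ne_top _, tsum_wt]
  simp

lemma summable_wt_toReal (z : ℍ) : Summable fun γ : SL(2, ℤ) ↦ (wt (γ • z)).toReal := by
  apply ENNReal.summable_toReal
  rw [tsum_wt]; simp

lemma enorm_toReal_smul (a : ℝ≥0∞) (ha : a ≠ ⊤) (w : ℂ) : ‖a.toReal • w‖ₑ = a * ‖w‖ₑ := by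
  rw [enorm_smul]
  congr 1
  rw [Real.enorm_of_nonneg ENNReal.toReal_nonneg, ENNReal.ofReal_toReal ha]

lemma tsum_lintegral_fold {F : ℍ → ℂ} (hF : Measurable F) :
    ∑' γ : SL(2, ℤ), ∫⁻ z, ‖(wt z).toReal • F (γ⁻¹ • z)‖ₑ = ∫⁻ z, ‖F z‖ₑ := by
  have h1 : ∀ γ : SL(2, ℤ), ∫⁻ z, ‖(wt z).toReal • F (γ⁻¹ • z)‖ₑ =
      ∫⁻ z, wt (γ • z) * ‖F z‖ₑ := by
    intro γ
    rw [← lintegral_smul_eq' γ]
    refine lintegral_congr fun z ↦ ?_
    rw [enorm_toReal_smul _ (wt_ne_top _), inv_smul_smul]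
  simp_rw [h1]
  rw [← lintegral_tsum]
  · refine lintegral_congr fun z ↦ ?_
    rw [ENNReal.tsum_mul_right, tsum_wt, one_mul]
  · intro γ
    exact ((measurable_smul_comp measurable_wt γ).mul hF.enorm).aemeasurable

/-- folding a function on the half plane. -/
theorem fold_integral {F : ℍ → ℂ} (hF : Measurable F) (hfin : ∫⁻ z, ‖F z‖ₑ ≠ ⊤) :
    ∫ z, F z = ∫ z, (wt z).toReal • ∑' γ : SL(2, ℤ), F (γ⁻¹ • z) := by
  have hw : Measurable fun z : ℍ ↦ (wt z).toReal := measurable_wt.ennreal_toReal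
  have step1 : ∫ z, F z = ∫ z, ∑' γ : SL(2, ℤ), (wt (γ • z)).toReal • F z := by
    refine integral_congr_ae (Filter.Eventually.of_forall fun z ↦ ?_)
    simp only
    rw [(summable_wt_toReal z).tsum_smul_const, tsum_wt_toReal, one_smul]
  have step2 : ∫ z, ∑' γ : SL(2, ℤ), (wt (γ • z)).toReal • F z =
      ∑' γ : SL(2, ℤ), ∫ z, (wt (γ • z)).toReal • F z := by
    refine integral_tsum (fun γ ↦ ?_) ?_
    · exact ((hw.comp (measurableEmb_smul γ).measurable).smul hF).aestronglyMeasurable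
    · have h1 : ∀ γ : SL(2, ℤ), ∫⁻ z, ‖(wt (γ • z)).toReal • F z‖ₑ =
          ∫⁻ z, ‖(wt z).toReal • F (γ⁻¹ • z)‖ₑ := by
        intro γ
        rw [← lintegral_smul_eq' γ (fun z ↦ ‖(wt z).toReal • F (γ⁻¹ • z)‖ₑ)]
        refine lintegral_congr fun z ↦ ?_
        rw [inv_smul_smul]
      simp_rw [h1]
      rw [tsum_lintegral_fold hF]
      exact hfin
  have step3 : ∀ γ : SL(2, ℤ), ∫ z, (wt (γ • z)).toReal • F z =
      ∫ z, (wt z).toReal • F (γ⁻¹ • z) := by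
    intro γ
    rw [← (mp_smul γ).integral_comp (measurableEmb_smul γ)
      (fun z ↦ (wt z).toReal • F (γ⁻¹ • z))]
    simp_rw [inv_smul_smul]
  have step4 : ∑' γ : SL(2, ℤ), ∫ z, (wt z).toReal • F (γ⁻¹ • z) =
      ∫ z, ∑' γ : SL(2, ℤ), (wt z).toReal • F (γ⁻¹ • z) := by
    refine (integral_tsum (fun γ ↦ ?_) ?_).symm
    · exact (hw.smul (hF.comp (measurableEmb_smul γ⁻¹).measurable)).aestronglyMeasurable
    · rw [tsum_lintegral_fold hF]; exact hfin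
  rw [step1, step2]
  simp_rw [step3]
  rw [step4]
  refine integral_congr_ae (Filter.Eventually.of_forall fun z ↦ ?_)
  simp only
  rw [tsum_const_smul'']

lemma enorm_tsum_le' {ι : Type*} (f : ι → ℂ) : ‖∑' i, f i‖ₑ ≤ ∑' i, ‖f i‖ₑ := by
  by_cases h : ∑' i, ‖f i‖ₑ = ⊤
  · rw [h]; exact le_top
  · have h1 : Summable fun i ↦ ‖f i‖ := by
      have := ENNReal.summable_toReal h
      simpa using this
    have h2 := norm_tsum_le_tsum_norm h1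
    rw [← ofReal_norm]
    refine (ENNReal.ofReal_le_ofReal h2).trans (le_of_eq ?_)
    rw [ENNReal.ofReal_tsum_of_nonneg (fun _ ↦ norm_nonneg _) h1]
    simp_rw [ofReal_norm]

lemma fold_lintegral_le {F : ℍ → ℂ} (hF : Measurable F) :
    ∫⁻ z, ‖(wt z).toReal • ∑' γ : SL(2, ℤ), F (γ⁻¹ • z)‖ₑ ≤ ∫⁻ z, ‖F z‖ₑ := by
  rw [← tsum_lintegral_fold hF]
  have hw : Measurable fun z : ℍ ↦ (wt z).toReal := measurable_wt.ennreal_toReal
  rw [← lintegral_tsum]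
  · refine lintegral_mono fun z ↦ ?_
    rw [← tsum_const_smul'']
    exact enorm_tsum_le' _
  · intro γ
    exact (hw.smul (hF.comp (measurableEmb_smul γ⁻¹).measurable)).enorm.aemeasurable

/-- a multiplier system of weight `3/2` on `Γ₀(M)`. -/
structure IsMult (M : ℕ) (J : SL(2, ℤ) → ℍ → ℂ) : Prop where
  cocycle : ∀ k₁ ∈ Gamma0 M, ∀ k₂ ∈ Gamma0 M, ∀ z, J (k₁ * k₂) z = J k₁ (k₂ • z) * J k₂ z
  norm_eq : ∀ k ∈ Gamma0 M, ∀ z, ‖J k z‖ = ‖lowerForm k z‖ ^ (3 / 2 : ℝ)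
  meas : ∀ k ∈ Gamma0 M, Measurable (J k)

lemma IsMult.ne_zero {M : ℕ} {J : SL(2, ℤ) → ℍ → ℂ} (hJ : IsMult M J) {k : SL(2, ℤ)}
    (hk : k ∈ Gamma0 M) (z : ℍ) : J k z ≠ 0 := by
  rw [← norm_pos_iff, hJ.norm_eq k hk z]
  exact Real.rpow_pos_of_pos (norm_pos_iff.2 (lowerForm_ne_zero k z)) _

lemma IsMult.norm_sq {M : ℕ} {J : SL(2, ℤ) → ℍ → ℂ} (hJ : IsMult M J) {k : SL(2, ℤ)}
    (hk : k ∈ Gamma0 M) (z : ℍ) :
    ((k • z).im ^ (3 / 2 : ℝ) : ℝ) * ‖J k z‖ ^ 2 = z.im ^ (3 / 2 : ℝ) := by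
  rw [hJ.norm_eq k hk z, im_smul_eq]
  have hL : 0 < ‖lowerForm k z‖ := norm_pos_iff.2 (lowerForm_ne_zero k z)
  rw [Real.div_rpow z.im_pos.le (by positivity)]
  have e1 : (‖lowerForm k z‖ ^ (3 / 2 : ℝ)) ^ 2 = ‖lowerForm k z‖ ^ 3 := by
    rw [← Real.rpow_natCast, ← Real.rpow_mul hL.le, ← Real.rpow_natCast]; norm_num
  have e2 : (‖lowerForm k z‖ ^ 2) ^ (3 / 2 : ℝ) = ‖lowerForm k z‖ ^ 3 := by
    rw [← Real.rpow_natCast, ← Real.rpow_mul hL.le, ← Real.rpow_natCast]; norm_num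
  rw [e1, e2]
  field_simp

/-- the incomplete Poincare series attached to `E` and the strip. -/
def pSum (M : ℕ) (Y : ℝ) (E : ℍ → ℂ) (J : SL(2, ℤ) → ℍ → ℂ) (z : ℍ) : ℂ :=
  ∑' k : Gamma0 M, (hstrip Y).indicator E ((k : SL(2, ℤ)) • z) * (J k z)⁻¹

lemma finite_strip (M : ℕ) [NeZero M] {Y : ℝ} (hY : 0 < Y) (z : ℍ) :
    {k : Gamma0 M | (k : SL(2, ℤ)) • z ∈ hstrip Y}.Finite := by
  classical
  have h1 := tsum_strip_le M hY z
  have h2 : ∑' k : Gamma0 M, (strip Y).indicator (1 : ℍ → ℝ≥0∞) ((k : SL(2, ℤ))⁻¹ • z) ≠ ⊤ :=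
    ne_top_of_le_ne_top ENNReal.ofReal_ne_top h1
  set A : Set (Gamma0 M) := {k | (k : SL(2, ℤ))⁻¹ • z ∈ strip Y} with hA
  have e1 : ∀ k : Gamma0 M, (strip Y).indicator (1 : ℍ → ℝ≥0∞) ((k : SL(2, ℤ))⁻¹ • z) =
      A.indicator (fun _ ↦ (1 : ℝ≥0∞)) k := by
    intro k
    rw [Set.indicator_apply, Set.indicator_apply]
    rfl
  simp_rw [e1] at h2
  rw [← tsum_subtype, ENNReal.tsum_set_one] at h2
  have h3 : A.Finite := by
    rw [← Set.encard_ne_top_iff]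
    intro h; rw [h] at h2; exact h2 rfl
  have h4 : {k : Gamma0 M | (k : SL(2, ℤ)) • z ∈ hstrip Y} ⊆ (fun k ↦ k⁻¹) ⁻¹' A := by
    intro k hk
    rw [Set.mem_preimage, hA, Set.mem_ofPred_eq, Subgroup.coe_inv, inv_inv]
    obtain ⟨a, b, c, d⟩ := hk
    exact ⟨a, b, c, d.le⟩
  exact (h3.preimage (inv_injective.injOn)).subset h4

/-- the function to be folded. -/
def stripF (Y : ℝ) (u E : ℍ → ℂ) (z : ℍ) : ℂ :=
  (hstrip Y).indicator (fun w ↦ u w * conj (E w) * ((w.im ^ (3 / 2 : ℝ) : ℝ) : ℂ)) z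

/-- the automorphic pairing. -/
def pair (M : ℕ) [NeZero M] [Fintype (SL(2, ℤ) ⧸ Gamma0 M)] (u v : ℍ → ℂ) (z : ℍ) : ℂ :=
  ∑ κ : SL(2, ℤ) ⧸ Gamma0 M, u ((Quotient.out κ)⁻¹ • z) * conj (v ((Quotient.out κ)⁻¹ • z)) *
    ((((Quotient.out κ)⁻¹ • z).im ^ (3 / 2 : ℝ) : ℝ) : ℂ)

lemma tsum_sub_fold {M : ℕ} [NeZero M] {Y : ℝ} (hY : 0 < Y) {J : SL(2, ℤ) → ℍ → ℂ}
    (hJ : IsMult M J) {u : ℍ → ℂ} (hu : ∀ k ∈ Gamma0 M, ∀ z, u (k • z) = J k z * u z)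
    (E : ℍ → ℂ) (w : ℍ) :
    ∑' k : Gamma0 M, stripF Y u E ((k : SL(2, ℤ))⁻¹ • w) =
      u w * conj (pSum M Y E J w) * ((w.im ^ (3 / 2 : ℝ) : ℝ) : ℂ) := by
  have h1 : ∑' k : Gamma0 M, stripF Y u E ((k : SL(2, ℤ))⁻¹ • w) =
      ∑' k : Gamma0 M, stripF Y u E ((k : SL(2, ℤ)) • w) := by
    rw [← (Equiv.inv (Gamma0 M)).tsum_eq (fun k : Gamma0 M ↦ stripF Y u E ((k : SL(2, ℤ)) • w))]
    rfl
  rw [h1]
  have h2 : ∀ k : Gamma0 M, stripF Y u E ((k : SL(2, ℤ)) • w) =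
      (u w * ((w.im ^ (3 / 2 : ℝ) : ℝ) : ℂ)) *
        conj ((hstrip Y).indicator E ((k : SL(2, ℤ)) • w) * (J k w)⁻¹) := by
    intro k
    unfold stripF
    by_cases hk : (k : SL(2, ℤ)) • w ∈ hstrip Y
    · rw [Set.indicator_of_mem hk, Set.indicator_of_mem hk, hu k k.2 w]
      have h0 := hJ.ne_zero k.2 w
      have h3 := hJ.norm_sq k.2 w
      have h4 : (J k w) * conj (J k w) = ((‖J k w‖ ^ 2 : ℝ) : ℂ) := by
        rw [Complex.mul_conj, Complex.normSq_eq_norm_sq]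
      have h5 : conj (J k w) ≠ 0 := by simpa using h0
      rw [map_mul, map_inv₀]
      rw [← h3]
      push_cast at h4 ⊢
      field_simp
      linear_combination (u w * conj (E ((k : SL(2, ℤ)) • w)) *
        ((((k : SL(2, ℤ)) • w).im ^ (3 / 2 : ℝ) : ℝ) : ℂ)) * h4
    · rw [Set.indicator_of_notMem hk, Set.indicator_of_notMem hk]; simp
  simp_rw [h2]
  rw [tsum_mul_left]
  unfold pSum
  rw [Complex.conj_tsum]
  ring

lemma tsum_fold {M : ℕ} [NeZero M] [Fintype (SL(2, ℤ) ⧸ Gamma0 M)] {Y : ℝ} (hY : 0 < Y)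
    {J : SL(2, ℤ) → ℍ → ℂ}
    (hJ : IsMult M J) {u : ℍ → ℂ} (hu : ∀ k ∈ Gamma0 M, ∀ z, u (k • z) = J k z * u z)
    (E : ℍ → ℂ) (z : ℍ) :
    ∑' γ : SL(2, ℤ), stripF Y u E (γ⁻¹ • z) = pair M u (pSum M Y E J) z := by
  have hfin : (Function.support fun γ : SL(2, ℤ) ↦ stripF Y u E (γ⁻¹ • z)).Finite := by
    have h1 := finite_strip 1 hY z
    have hinj : Function.Injective (fun k : Gamma0 1 ↦ (k : SL(2, ℤ))⁻¹) := by
      intro a b h; exact Subtype.ext (inv_injective h)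
    refine (h1.image (fun k : Gamma0 1 ↦ (k : SL(2, ℤ))⁻¹)).subset ?_
    intro γ hγ
    rw [Function.mem_support] at hγ
    have hγ2 : γ⁻¹ • z ∈ hstrip Y := by
      by_contra h
      apply hγ
      unfold stripF
      rw [Set.indicator_of_notMem h]
    refine ⟨⟨γ⁻¹, ?_⟩, hγ2, inv_inv γ⟩
    rw [Gamma0_mem]
    exact Subsingleton.elim _ _
  have hsum : Summable fun γ : SL(2, ℤ) ↦ stripF Y u E (γ⁻¹ • z) :=
    summable_of_finite_support hfin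
  rw [← (cosetEquiv (Gamma0 M)).tsum_eq (fun γ ↦ stripF Y u E (γ⁻¹ • z))]
  have hsum2 : Summable fun p : (SL(2, ℤ) ⧸ Gamma0 M) × Gamma0 M ↦
      stripF Y u E (((cosetEquiv (Gamma0 M)) p)⁻¹ • z) :=
    (cosetEquiv (Gamma0 M)).summable_iff.2 hsum
  rw [hsum2.tsum_prod' (fun κ ↦ hsum2.comp_injective (fun a b h ↦ by simpa using h)), tsum_fintype]
  unfold pair
  refine Finset.sum_congr rfl fun κ _ ↦ ?_
  rw [← tsum_sub_fold hY hJ hu E]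
  refine tsum_congr fun k ↦ ?_
  have e : ((cosetEquiv (Gamma0 M)) (κ, k))⁻¹ • z =
      (k : SL(2, ℤ))⁻¹ • (Quotient.out κ)⁻¹ • z := by
    change (Quotient.out κ * (k : SL(2, ℤ)))⁻¹ • z = _
    rw [mul_inv_rev, mul_smul]
  rw [e]

/-- the Poincare series is automorphic. -/
lemma pSum_smul {M : ℕ} [NeZero M] {Y : ℝ} {J : SL(2, ℤ) → ℍ → ℂ}
    (hJ : IsMult M J) (E : ℍ → ℂ) {g : SL(2, ℤ)} (hg : g ∈ Gamma0 M) (z : ℍ) :
    pSum M Y E J (g • z) = J g z * pSum M Y E J z := by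
  unfold pSum
  rw [← tsum_mul_left, ← (Equiv.mulRight (⟨g, hg⟩ : Gamma0 M)).tsum_eq
    (fun k : Gamma0 M ↦ J g z * ((hstrip Y).indicator E ((k : SL(2, ℤ)) • z) * (J k z)⁻¹))]
  refine tsum_congr fun k ↦ ?_
  simp only [Equiv.coe_mulRight, Subgroup.coe_mul]
  rw [hJ.cocycle k k.2 g hg z, mul_smul]
  have h0 := hJ.ne_zero hg z
  have h1 := hJ.ne_zero k.2 (g • z)
  field_simp

end

end Pool.Agent.Work.MP_af11aa_nt.K
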