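import Mathlib
import Pool.Agent.Work.MP_af11aa_nt.K.Fold

namespace Pool.Agent.Work.MP_af11aa_nt.K

open Pool.Agent.Work.MP_af11aa_nt
open UpperHalfPlane CongruenceSubgroup MeasureTheory
open Complex hiding Gamma
open scoped MatrixGroups Manifold Topology ComplexConjugate ENNReal Modular

noncomputable section

lemma measurable_pSum {M : ℕ} {Y : ℝ} {J : SL(2, ℤ) → ℍ → ℂ}
    (hJ : IsMult M J) {E : ℍ → ℂ} (hE : Measurable E) : Measurable (pSum M Y E J) := by
  unfold pSum
  refine Measurable.tsum fun k ↦ ?_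
  exact ((hE.indicator (measurableSet_hstrip Y)).comp (measurableEmb_smul k).measurable).mul
    (hJ.meas k k.2).inv

lemma measurable_stripF {Y : ℝ} {u E : ℍ → ℂ} (hu : Measurable u) (hE : Measurable E) :
    Measurable (stripF Y u E) := by
  unfold stripF
  refine Measurable.indicator ?_ (measurableSet_hstrip Y)
  refine (hu.mul (Complex.continuous_conj.measurable.comp hE)).mul ?_
  exact Complex.measurable_ofReal.comp (measurable_upper_im.pow_const _)

lemma real_opt {x a b : ℝ} (hx : 0 ≤ x) (ha : 0 ≤ a) (hb : 0 ≤ b)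
    (h : ∀ l : ℝ, 0 < l → x ≤ l / 2 * a + 1 / (2 * l) * b) : x ^ 2 ≤ a * b := by
  rcases ha.eq_or_lt with ha0 | ha0
  · -- a = 0
    have hx0 : x = 0 := by
      by_contra hne
      have hxp : 0 < x := lt_of_le_of_ne hx (Ne.symm hne)
      have h1 := h ((b + 1) / x) (by positivity)
      rw [← ha0, mul_zero, zero_add] at h1
      have h2 : 1 / (2 * ((b + 1) / x)) * b = x * (b / (2 * (b + 1))) := by field_simp
      rw [h2] at h1
      have h3 : b / (2 * (b + 1)) < 1 := by
        rw [div_lt_one (by positivity)]; linarith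
      nlinarith
    rw [hx0, ← ha0]; simp
  · rcases hb.eq_or_lt with hb0 | hb0
    · have hx0 : x = 0 := by
        by_contra hne
        have hxp : 0 < x := lt_of_le_of_ne hx (Ne.symm hne)
        have h1 := h (x / a) (by positivity)
        rw [← hb0, mul_zero, add_zero] at h1
        have h2 : x / a / 2 * a = x / 2 := by field_simp
        rw [h2] at h1
        linarith
      rw [hx0, ← hb0]; simp
    · have h1 := h (Real.sqrt (b / a)) (by positivity)
      have hs : Real.sqrt (b / a) ^ 2 = b / a := Real.sq_sqrt (by positivity)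
      set s := Real.sqrt (b / a) with hsdef
      have hspos : 0 < s := Real.sqrt_pos.2 (by positivity)
      have h2 : s / 2 * a + 1 / (2 * s) * b = s * a := by
        have : b = s ^ 2 * a := by rw [hs]; field_simp
        rw [this]; field_simp; ring
      rw [h2] at h1
      calc x ^ 2 ≤ (s * a) ^ 2 := by gcongr
        _ = a * b := by rw [mul_pow, hs]; field_simp

theorem pair_bound {M : ℕ} [NeZero M] [Fintype (SL(2, ℤ) ⧸ Gamma0 M)] {Y : ℝ} (hY : 0 < Y)
    {J : SL(2, ℤ) → ℍ → ℂ} (hJ : IsMult M J) {u : ℍ → ℂ} (hum : Measurable u)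
    (hu : ∀ k ∈ Gamma0 M, ∀ z, u (k • z) = J k z * u z) {E : ℍ → ℂ} (hE : Measurable E)
    {a : ℝ} (ha : 0 ≤ a)
    (hau : ∫⁻ z, wt z * ∑ κ : SL(2, ℤ) ⧸ Gamma0 M,
      ENNReal.ofReal (hFun u ((Quotient.out κ)⁻¹ • z)) ≤ ENNReal.ofReal a)
    (h1 : ∫⁻ z, ‖stripF Y u E z‖ₑ ≠ ⊤)
    (h2 : ∫⁻ z, ‖stripF Y (pSum M Y E J) E z‖ₑ ≠ ⊤) :
    ‖∫ z, stripF Y u E z‖ ^ 2 ≤ a * (∫ z, stripF Y (pSum M Y E J) E z).re ∧
      0 ≤ (∫ z, stripF Y (pSum M Y E J) E z).re := by
  set P := pSum M Y E J with hP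
  have hPm : Measurable P := measurable_pSum hJ hE
  have hA := fold_integral (measurable_stripF (Y := Y) hum hE) h1
  simp_rw [tsum_fold hY hJ hu E, ← hP] at hA
  have hPu : ∀ k ∈ Gamma0 M, ∀ z, P (k • z) = J k z * P z := fun k hk z ↦ pSum_smul hJ E hk z
  have hB := fold_integral (measurable_stripF (Y := Y) hPm hE) h2
  simp_rw [tsum_fold hY hJ hPu E, ← hP] at hB
  -- the pairing of P with itself is real
  have hPP : ∀ z, pair M P P z = ((∑ κ : SL(2, ℤ) ⧸ Gamma0 M,
      hFun P ((Quotient.out κ)⁻¹ • z) : ℝ) : ℂ) := by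
    intro z
    unfold pair
    rw [Complex.ofReal_sum]
    refine Finset.sum_congr rfl fun κ _ ↦ ?_
    unfold hFun
    rw [Complex.mul_conj, Complex.normSq_eq_norm_sq]
    push_cast
    rfl
  have hhm : Measurable (hFun P) := by
    unfold hFun
    exact (hPm.norm.pow_const 2).mul (measurable_upper_im.pow_const _)
  set Q : ℍ → ℝ := fun z ↦ ∑ κ : SL(2, ℤ) ⧸ Gamma0 M, hFun P ((Quotient.out κ)⁻¹ • z) with hQ
  have hQm : Measurable Q := by
    rw [hQ]
    exact Finset.measurable_fun_sum _ fun κ _ ↦ hhm.comp (measurableEmb_smul _).measurable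
  have hQ0 : ∀ z, 0 ≤ Q z := fun z ↦ Finset.sum_nonneg fun κ _ ↦ hFun_nonneg P _
  have hwm : Measurable fun z : ℍ ↦ (wt z).toReal := measurable_wt.ennreal_toReal
  have hBreal : ∫ z, stripF Y P E z = ((∫ z, (wt z).toReal * Q z : ℝ) : ℂ) := by
    rw [hB, ← integral_complex_ofReal]
    refine integral_congr_ae (Filter.Eventually.of_forall fun z ↦ ?_)
    simp only
    rw [hPP z, Complex.real_smul, ← Complex.ofReal_mul]
  have hint : Integrable fun z ↦ (wt z).toReal * Q z := by
    refine ⟨(hwm.mul hQm).aestronglyMeasurable, ?_⟩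
    unfold HasFiniteIntegral
    have h3 := fold_lintegral_le (measurable_stripF (Y := Y) hPm hE)
    simp_rw [tsum_fold hY hJ hPu E, ← hP] at h3
    refine lt_of_le_of_lt (le_trans (le_of_eq ?_) h3) (lt_top_iff_ne_top.2 h2)
    refine lintegral_congr fun z ↦ ?_
    rw [hPP z, Complex.real_smul, ← Complex.ofReal_mul]
    rw [← ofReal_norm, ← ofReal_norm, Complex.norm_real]
  have hBre : (∫ z, stripF Y P E z).re = ∫ z, (wt z).toReal * Q z := by
    rw [hBreal, Complex.ofReal_re]
  have hb0 : 0 ≤ ∫ z, (wt z).toReal * Q z :=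
    integral_nonneg fun z ↦ mul_nonneg ENNReal.toReal_nonneg (hQ0 z)
  have hblin : ∫⁻ z, wt z * ENNReal.ofReal (Q z) =
      ENNReal.ofReal (∫ z, (wt z).toReal * Q z) := by
    rw [ofReal_integral_eq_lintegral_ofReal hint
      (Filter.Eventually.of_forall fun z ↦ mul_nonneg ENNReal.toReal_nonneg (hQ0 z))]
    refine lintegral_congr fun z ↦ ?_
    rw [ENNReal.ofReal_mul ENNReal.toReal_nonneg, ENNReal.ofReal_toReal (wt_ne_top z)]
  refine ⟨?_, by rw [hBre]; exact hb0⟩
  rw [hBre]
  refine real_opt (norm_nonneg _) ha hb0 fun l hl ↦ ?_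
  have key : ‖∫ z, stripF Y u E z‖ₑ ≤
      ENNReal.ofReal (l / 2) * ENNReal.ofReal a +
        ENNReal.ofReal (1 / (2 * l)) * ENNReal.ofReal (∫ z, (wt z).toReal * Q z) := by
    calc ‖∫ z, stripF Y u E z‖ₑ ≤ ∫⁻ z, ‖(wt z).toReal • pair M u P z‖ₑ := by
          rw [hA]; exact enorm_integral_le_lintegral_enorm _
      _ ≤ ∫⁻ z, (ENNReal.ofReal (l / 2) * (wt z * ∑ κ : SL(2, ℤ) ⧸ Gamma0 M,
            ENNReal.ofReal (hFun u ((Quotient.out κ)⁻¹ • z))) +
            ENNReal.ofReal (1 / (2 * l)) * (wt z * ENNReal.ofReal (Q z))) := by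
          refine lintegral_mono fun z ↦ ?_
          simp only
          rw [enorm_toReal_smul _ (wt_ne_top z)]
          have h4 : ‖pair M u P z‖ₑ ≤ ENNReal.ofReal (l / 2) * ∑ κ : SL(2, ℤ) ⧸ Gamma0 M,
              ENNReal.ofReal (hFun u ((Quotient.out κ)⁻¹ • z)) +
              ENNReal.ofReal (1 / (2 * l)) * ENNReal.ofReal (Q z) := by
            rw [hQ]
            simp only
            rw [ENNReal.ofReal_sum_of_nonneg fun κ _ ↦ hFun_nonneg P _, Finset.mul_sum,
              Finset.mul_sum, ← Finset.sum_add_distrib]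
            unfold pair
            refine (enorm_sum_le _ _).trans (Finset.sum_le_sum fun κ _ ↦ ?_)
            set w := (Quotient.out κ)⁻¹ • z with hw
            rw [← ENNReal.ofReal_mul (by positivity), ← ENNReal.ofReal_mul (by positivity),
              ← ENNReal.ofReal_add (mul_nonneg (by positivity) (hFun_nonneg _ _))
                (mul_nonneg (by positivity) (hFun_nonneg _ _)), ← ofReal_norm]
            apply ENNReal.ofReal_le_ofReal
            have hwi : 0 < w.im ^ (3 / 2 : ℝ) := Real.rpow_pos_of_pos w.im_pos _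
            rw [norm_mul, norm_mul, Complex.norm_conj, Complex.norm_real,
              Real.norm_of_nonneg hwi.le]
            unfold hFun
            have h5 : ‖u w‖ * ‖P w‖ ≤ l / 2 * ‖u w‖ ^ 2 + 1 / (2 * l) * ‖P w‖ ^ 2 := by
              have h6 : 0 ≤ (l * ‖u w‖ - ‖P w‖) ^ 2 / (2 * l) := by positivity
              have h7 : (l * ‖u w‖ - ‖P w‖) ^ 2 / (2 * l) =
                  l / 2 * ‖u w‖ ^ 2 + 1 / (2 * l) * ‖P w‖ ^ 2 - ‖u w‖ * ‖P w‖ := by
                field_simp; ring
              linarith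
            calc ‖u w‖ * ‖P w‖ * w.im ^ (3 / 2 : ℝ)
                ≤ (l / 2 * ‖u w‖ ^ 2 + 1 / (2 * l) * ‖P w‖ ^ 2) * w.im ^ (3 / 2 : ℝ) := by gcongr
              _ = _ := by ring
          calc wt z * ‖pair M u P z‖ₑ ≤ wt z * (ENNReal.ofReal (l / 2) *
                ∑ κ : SL(2, ℤ) ⧸ Gamma0 M,
                ENNReal.ofReal (hFun u ((Quotient.out κ)⁻¹ • z)) +
                ENNReal.ofReal (1 / (2 * l)) * ENNReal.ofReal (Q z)) := by gcongr
            _ = _ := by rw [mul_add]; ring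
      _ = ENNReal.ofReal (l / 2) * (∫⁻ z, wt z * ∑ κ : SL(2, ℤ) ⧸ Gamma0 M,
            ENNReal.ofReal (hFun u ((Quotient.out κ)⁻¹ • z))) +
            ENNReal.ofReal (1 / (2 * l)) * ∫⁻ z, wt z * ENNReal.ofReal (Q z) := by
          rw [lintegral_add_right, lintegral_const_mul' _ _ ENNReal.ofReal_ne_top,
            lintegral_const_mul' _ _ ENNReal.ofReal_ne_top]
          exact (measurable_wt.mul hQm.ennreal_ofReal).const_mul _
      _ ≤ _ := by rw [hblin]; gcongr
  rw [← ENNReal.ofReal_mul (by positivity), ← ENNReal.ofReal_mul (by positivity),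
    ← ENNReal.ofReal_add (by positivity) (by positivity), ← ofReal_norm] at key
  exact (ENNReal.ofReal_le_ofReal_iff (by positivity)).1 key

end

end Pool.Agent.Work.MP_af11aa_nt.K
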