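import Mathlib
import Pool.Agent.Work.MP_af11aa_nt.K.Pairing

namespace Pool.Agent.Work.MP_af11aa_nt.K

open Pool.Agent.Work.MP_af11aa_nt
open UpperHalfPlane CongruenceSubgroup MeasureTheory
open Complex hiding Gamma
open scoped MatrixGroups Manifold Topology ComplexConjugate ENNReal NNReal Modular

noncomputable section

/-- Hyperbolic integrals in the coordinates `x, y`. -/
lemma integral_coord (F : ℍ → ℂ) :
    ∫ z, F z = ∫ p : ℝ × ℝ in Set.univ ×ˢ Set.Ioi 0, (1 / p.2 ^ 2 : ℝ) • F (pt p.1 p.2) := by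
  have hmeas : Measurable fun z : ℍ ↦ (((1 / NNReal.mk z.im z.im_pos.le : ℝ≥0) ^ 2 : ℝ≥0)) := by
    have : Continuous fun z : ℍ ↦ (((1 / NNReal.mk z.im z.im_pos.le : ℝ≥0) ^ 2 : ℝ≥0)) := by
      refine .pow (.div₀ continuous_const ?_ ?_) _
      · exact continuous_im.subtype_mk _
      · exact fun x ↦ NNReal.ne_iff.mp x.im_ne_zero
    exact this.measurable
  rw [volume_def, integral_withDensity_eq_integral_smul hmeas]
  have hmp : MeasurePreserving UpperHalfPlane.coe (volume.comap UpperHalfPlane.coe)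
      (volume.restrict (.range UpperHalfPlane.coe)) :=
    ⟨measurable_coe, by rw [measurableEmbedding_coe.map_comap]⟩
  have h1 : ∫ z : ℍ, ((1 / NNReal.mk z.im z.im_pos.le : ℝ≥0) ^ 2 : ℝ≥0) • F z
      ∂(volume.comap UpperHalfPlane.coe) =
      ∫ z : ℍ, (fun w : ℂ ↦ (1 / w.im ^ 2 : ℝ) • F (ofComplex w)) z
      ∂(volume.comap UpperHalfPlane.coe) := by
    congr 1
    funext z
    simp only [ofComplex_apply]
    rw [NNReal.smul_def]
    congr 1
    push_cast
    simp
  rw [h1, hmp.integral_comp measurableEmbedding_coe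
    (fun w : ℂ ↦ (1 / w.im ^ 2 : ℝ) • F (ofComplex w))]
  have h2 : (Set.range UpperHalfPlane.coe) = Complex.measurableEquivRealProd ⁻¹' (Set.univ ×ˢ Set.Ioi 0) := by
    ext w
    simp only [Set.mem_range, Set.mem_preimage, Complex.measurableEquivRealProd_apply, Set.mem_prod,
      Set.mem_univ, true_and, Set.mem_Ioi]
    constructor
    · rintro ⟨z, rfl⟩; exact z.im_pos
    · intro h; exact ⟨⟨w, h⟩, rfl⟩
  rw [h2]
  have h3 := Complex.volume_preserving_equiv_real_prod
  rw [← h3.setIntegral_preimage_emb (Complex.measurableEquivRealProd.measurableEmbedding)]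
  congr 1
  funext w
  simp [Complex.measurableEquivRealProd_apply, pt]

lemma measurable_pt : Measurable fun p : ℝ × ℝ ↦ pt p.1 p.2 := by
  classical
  have hs : MeasurableSet {p : ℝ × ℝ | 0 < p.2} := measurableSet_lt measurable_const measurable_snd
  have h1 : (fun p : ℝ × ℝ ↦ pt p.1 p.2) =
      {p : ℝ × ℝ | 0 < p.2}.piecewise (fun p : ℝ × ℝ ↦ pt p.1 p.2) (fun _ ↦ ofComplex 0) := by
    funext p
    by_cases hp : p ∈ {p : ℝ × ℝ | 0 < p.2}
    · rw [Set.piecewise_eq_of_mem _ _ _ hp]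
    · rw [Set.piecewise_eq_of_notMem _ _ _ hp]
      have hp' : ¬ 0 < p.2 := hp
      unfold pt
      rw [ofComplex_apply_of_im_nonpos (by simpa using hp'),
        ofComplex_apply_of_im_nonpos (by simp)]
  rw [h1]
  exact continuousOn_pt.measurable_piecewise continuousOn_const hs

lemma hstrip_pt_iff {Y x y : ℝ} (hy : 0 < y) :
    pt x y ∈ hstrip Y ↔ (x, y) ∈ Set.Ico (0 : ℝ) 1 ×ˢ Set.Ico (1 / Y) (2 / Y) := by
  unfold hstrip
  rw [Set.mem_ofPred_eq, re_pt hy, im_pt hy, Set.mem_prod, Set.mem_Ico, Set.mem_Ico]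
  simp only
  tauto

lemma volume_hstrip_ne_top {Y : ℝ} (hY : 0 < Y) : volume (hstrip Y) ≠ ⊤ := by
  have h1 : volume (hstrip Y) = ∫⁻ z, (hstrip Y).indicator 1 z := by
    rw [lintegral_indicator_one (measurableSet_hstrip Y)]
  rw [h1, lintegral_coord (measurable_one.indicator (measurableSet_hstrip Y))]
  have h1Y : 0 < 1 / Y := by positivity
  have hI : MeasurableSet (Set.Ico (0 : ℝ) 1 ×ˢ Set.Ico (1 / Y) (2 / Y)) :=
    measurableSet_Ico.prod measurableSet_Ico
  refine ne_top_of_le_ne_top ?_ (b := ∫⁻ p : ℝ × ℝ in Set.Ico (0 : ℝ) 1 ×ˢ Set.Ico (1 / Y) (2 / Y),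
    ENNReal.ofReal (Y ^ 2)) ?_ 
  swap
  · calc _ ≤ ∫⁻ p in Set.univ ×ˢ Set.Ioi 0,
          (Set.Ico (0 : ℝ) 1 ×ˢ Set.Ico (1 / Y) (2 / Y)).indicator (fun p : ℝ × ℝ ↦
            ENNReal.ofReal (Y ^ 2)) p := by
          refine setLIntegral_mono' (MeasurableSet.univ.prod measurableSet_Ioi) ?_
          rintro ⟨x, y⟩ ⟨-, hy⟩
          have hy0 : 0 < y := hy
          have e : (ofComplex (x + y * Complex.I)) = pt x y := rfl
          simp only
          rw [e]
          by_cases hm : pt x y ∈ hstrip Y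
          · have h2 := (hstrip_pt_iff hy0).1 hm
            rw [Set.indicator_of_mem hm, Set.indicator_of_mem h2, Pi.one_apply, one_mul]
            apply ENNReal.ofReal_le_ofReal
            have h3 : 1 / Y ≤ y := h2.2.1
            rw [div_le_iff₀ (by positivity)]
            rw [div_le_iff₀ hY] at h3
            calc (1 : ℝ) = 1 ^ 2 := by norm_num
              _ ≤ (y * Y) ^ 2 := by gcongr
              _ = _ := by ring
          · rw [Set.indicator_of_notMem hm, zero_mul]; exact zero_le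
      _ ≤ ∫⁻ p, (Set.Ico (0 : ℝ) 1 ×ˢ Set.Ico (1 / Y) (2 / Y)).indicator (fun p : ℝ × ℝ ↦
            ENNReal.ofReal (Y ^ 2)) p := setLIntegral_le_lintegral _ _
      _ = _ := lintegral_indicator hI _
  · rw [setLIntegral_const, Measure.volume_eq_prod, Measure.prod_prod, Real.volume_Ico,
      Real.volume_Ico]
    exact ENNReal.mul_ne_top ENNReal.ofReal_ne_top
      (ENNReal.mul_ne_top ENNReal.ofReal_ne_top ENNReal.ofReal_ne_top)

lemma lintegral_stripF_ne_top {Y C : ℝ} (hY : 0 < Y) {u E : ℍ → ℂ}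
    (hb : ∀ z ∈ hstrip Y, ‖u z * conj (E z)‖ ≤ C) : ∫⁻ z, ‖stripF Y u E z‖ₑ ≠ ⊤ := by
  have h1 : ∀ z, ‖stripF Y u E z‖ₑ ≤
      (hstrip Y).indicator (fun _ ↦ ENNReal.ofReal (C * (2 / Y) ^ (3 / 2 : ℝ))) z := by
    intro z
    unfold stripF
    by_cases hz : z ∈ hstrip Y
    · rw [Set.indicator_of_mem hz, Set.indicator_of_mem hz, ← ofReal_norm]
      apply ENNReal.ofReal_le_ofReal
      have hC := hb z hz
      have hz' : 0 < z.im ^ (3 / 2 : ℝ) := Real.rpow_pos_of_pos z.im_pos _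
      rw [norm_mul, Complex.norm_real, Real.norm_of_nonneg hz'.le]
      have h2 : z.im ≤ 2 / Y := hz.2.2.2.le
      have h3 : z.im ^ (3 / 2 : ℝ) ≤ (2 / Y) ^ (3 / 2 : ℝ) :=
        Real.rpow_le_rpow z.im_pos.le h2 (by norm_num)
      have h4 : 0 ≤ C := le_trans (norm_nonneg _) hC
      gcongr
    · rw [Set.indicator_of_notMem hz, Set.indicator_of_notMem hz]; simp
  refine ne_top_of_le_ne_top ?_ (lintegral_mono h1)
  rw [lintegral_indicator (measurableSet_hstrip Y), setLIntegral_const]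
  exact ENNReal.mul_ne_top ENNReal.ofReal_ne_top (volume_hstrip_ne_top hY)

/-- the strip integral as an iterated integral. -/
lemma integral_stripF {Y C : ℝ} (hY : 0 < Y) {u E : ℍ → ℂ} (hum : Measurable u)
    (hE : Measurable E) (hb : ∀ z ∈ hstrip Y, ‖u z * conj (E z)‖ ≤ C) :
    ∫ z, stripF Y u E z = ∫ y in Set.Ico (1 / Y) (2 / Y), ∫ x in Set.Ico (0 : ℝ) 1,
      u (pt x y) * conj (E (pt x y)) * ((y ^ (-(1 / 2) : ℝ) : ℝ) : ℂ) := by
  have h1Y : 0 < 1 / Y := by positivity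
  have hI : MeasurableSet (Set.Ico (0 : ℝ) 1 ×ˢ Set.Ico (1 / Y) (2 / Y)) :=
    measurableSet_Ico.prod measurableSet_Ico
  have hsub : Set.Ico (0 : ℝ) 1 ×ˢ Set.Ico (1 / Y) (2 / Y) ⊆ Set.univ ×ˢ Set.Ioi 0 := by
    rintro ⟨x, y⟩ ⟨hx, hy⟩
    exact ⟨Set.mem_univ _, lt_of_lt_of_le h1Y hy.1⟩
  set g : ℝ × ℝ → ℂ := fun p ↦ u (pt p.1 p.2) * conj (E (pt p.1 p.2)) *
    ((p.2 ^ (-(1 / 2) : ℝ) : ℝ) : ℂ) with hg
  have step1 : ∫ z, stripF Y u E z =
      ∫ p in Set.Ico (0 : ℝ) 1 ×ˢ Set.Ico (1 / Y) (2 / Y), g p := by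
    rw [integral_coord]
    calc _ = ∫ p in Set.univ ×ˢ Set.Ioi 0,
          (Set.Ico (0 : ℝ) 1 ×ˢ Set.Ico (1 / Y) (2 / Y)).indicator g p := by
          refine setIntegral_congr_fun (MeasurableSet.univ.prod measurableSet_Ioi) ?_
          rintro ⟨x, y⟩ ⟨-, hy⟩
          have hy0 : 0 < y := hy
          simp only
          unfold stripF
          by_cases hm : pt x y ∈ hstrip Y
          · rw [Set.indicator_of_mem hm, Set.indicator_of_mem ((hstrip_pt_iff hy0).1 hm), hg]
            simp only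
            rw [im_pt hy0, Complex.real_smul]
            have e3 : (y ^ (3 / 2 : ℝ) : ℝ) = y ^ (-(1 / 2) : ℝ) * y ^ 2 := by
              rw [← Real.rpow_natCast, ← Real.rpow_add hy0]; norm_num
            rw [e3]
            have : (y : ℂ) ≠ 0 := by exact_mod_cast hy0.ne'
            push_cast
            field_simp
          · rw [Set.indicator_of_notMem hm,
              Set.indicator_of_notMem (fun h ↦ hm ((hstrip_pt_iff hy0).2 h)), smul_zero]
      _ = _ := by
          rw [integral_indicator hI, Measure.restrict_restrict hI,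
            Set.inter_eq_self_of_subset_left hsub]
  rw [step1]
  have hgm : Measurable g := by
    rw [hg]
    refine ((hum.comp measurable_pt).mul
      (Complex.continuous_conj.measurable.comp (hE.comp measurable_pt))).mul ?_
    exact Complex.measurable_ofReal.comp (measurable_snd.pow_const _)
  have hint : IntegrableOn g (Set.Ico (0 : ℝ) 1 ×ˢ Set.Ico (1 / Y) (2 / Y))
      (volume.prod volume) := by
    have hfin : (volume.prod volume) (Set.Ico (0 : ℝ) 1 ×ˢ Set.Ico (1 / Y) (2 / Y)) ≠ ⊤ := by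
      rw [Measure.prod_prod, Real.volume_Ico, Real.volume_Ico]
      exact ENNReal.mul_ne_top ENNReal.ofReal_ne_top ENNReal.ofReal_ne_top
    refine Measure.integrableOn_of_bounded (M := C * (1 / Y) ^ (-(1 / 2) : ℝ)) hfin
      hgm.aestronglyMeasurable ?_
    refine (ae_restrict_iff' hI).2 (Filter.Eventually.of_forall ?_)
    rintro ⟨x, y⟩ hxy
    have hy0 : 0 < y := lt_of_lt_of_le h1Y hxy.2.1
    have h2 := hb _ ((hstrip_pt_iff hy0).2 hxy)
    rw [hg]
    simp only
    have h3 : 0 < y ^ (-(1 / 2) : ℝ) := Real.rpow_pos_of_pos hy0 _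
    rw [norm_mul, Complex.norm_real, Real.norm_of_nonneg h3.le]
    have h4 : y ^ (-(1 / 2) : ℝ) ≤ (1 / Y) ^ (-(1 / 2) : ℝ) :=
      Real.rpow_le_rpow_of_nonpos h1Y hxy.2.1 (by norm_num)
    have h5 : 0 ≤ C := le_trans (norm_nonneg _) h2
    gcongr
  rw [Measure.volume_eq_prod, ← setIntegral_prod_swap, setIntegral_prod]
  · rfl
  · have h6 := hint.swap
    exact h6

end

end Pool.Agent.Work.MP_af11aa_nt.K
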