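import Mathlib
import Pool.Agent.Work.MP_af11aa_nt.K.Coords

namespace Pool.Agent.Work.MP_af11aa_nt.K

open Pool.Agent.Work.MP_af11aa_nt
open UpperHalfPlane CongruenceSubgroup MeasureTheory
open Complex hiding Gamma
open scoped MatrixGroups Manifold Topology ComplexConjugate ENNReal NNReal Modular

noncomputable section

/-- a multiplier system which is trivial on translations and on `-1`. -/
structure IsMultT (M : ℕ) (J : SL(2, ℤ) → ℍ → ℂ) : Prop extends IsMult M J where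
  T_eq : ∀ (n : ℤ) (z : ℍ), J (ModularGroup.T ^ n) z = 1
  neg_eq : ∀ z : ℍ, J (-1) z = 1

lemma T_zpow_mem (M : ℕ) (n : ℤ) : ModularGroup.T ^ n ∈ Gamma0 M := by
  rw [Gamma0_mem, ModularGroup.coe_T_zpow]; simp

lemma neg_one_mem (M : ℕ) : (-1 : SL(2, ℤ)) ∈ Gamma0 M := by
  rw [Gamma0_mem]; simp

lemma T10 (n : ℤ) : (ModularGroup.T ^ n) 1 0 = 0 := by rw [ModularGroup.coe_T_zpow]; simp
lemma T11 (n : ℤ) : (ModularGroup.T ^ n) 1 1 = 1 := by rw [ModularGroup.coe_T_zpow]; simp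
lemma T00 (n : ℤ) : (ModularGroup.T ^ n) 0 0 = 1 := by rw [ModularGroup.coe_T_zpow]; simp
lemma T01 (n : ℤ) : (ModularGroup.T ^ n) 0 1 = n := by rw [ModularGroup.coe_T_zpow]; simp

/-- matrices with the same lower row differ by a translation. -/
lemma same_row {g g' : SL(2, ℤ)} (hc : g 1 0 = g' 1 0) (hd : g 1 1 = g' 1 1) :
    ∃ n : ℤ, g' = ModularGroup.T ^ n * g := by
  have hdet := g.det_coe
  have hdet' := g'.det_coe
  rw [Matrix.det_fin_two] at hdet hdet'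
  set n : ℤ := (g' 0 1 - g 0 1) * g 0 0 - (g' 0 0 - g 0 0) * g 0 1 with hn
  rw [← hc, ← hd] at hdet'
  have e0 : g' 0 0 - g 0 0 = n * g 1 0 := by
    rw [hn]
    linear_combination (g' 0 0 - g 0 0) * (-1 : ℤ) * hdet - (g 0 0) * (hdet - hdet')
  have e1 : g' 0 1 - g 0 1 = n * g 1 1 := by
    rw [hn]
    linear_combination (g' 0 1 - g 0 1) * (-1 : ℤ) * hdet - (g 0 1) * (hdet - hdet')
  refine ⟨n, ?_⟩
  ext i j
  fin_cases i <;> fin_cases j
  · change g' 0 0 = (ModularGroup.T ^ n * g) 0 0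
    rw [mul_apply_two, T00, T01]; linarith
  · change g' 0 1 = (ModularGroup.T ^ n * g) 0 1
    rw [mul_apply_two, T00, T01]; linarith
  · change g' 1 0 = (ModularGroup.T ^ n * g) 1 0
    rw [mul_apply_two, T10, T11, ← hc]; ring
  · change g' 1 1 = (ModularGroup.T ^ n * g) 1 1
    rw [mul_apply_two, T10, T11, ← hd]; ring

open Classical in
/-- a matrix with given coprime lower row. -/
def rowMat (r : ℤ × ℤ) : SL(2, ℤ) :=
  if h : IsCoprime r.1 r.2 then
    Classical.choose (ModularGroup.bottom_row_surj (R := ℤ) (show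
        (![r.1, r.2] : Fin 2 → ℤ) ∈ {cd : Fin 2 → ℤ | IsCoprime (cd 0) (cd 1)} from h))
  else 1

lemma rowMat_row {r : ℤ × ℤ} (h : IsCoprime r.1 r.2) :
    rowMat r 1 0 = r.1 ∧ rowMat r 1 1 = r.2 := by
  have h2 := Classical.choose_spec (ModularGroup.bottom_row_surj (R := ℤ) (show
        (![r.1, r.2] : Fin 2 → ℤ) ∈ {cd : Fin 2 → ℤ | IsCoprime (cd 0) (cd 1)} from h))
  unfold rowMat
  rw [dif_pos h]
  exact ⟨congrFun h2.2 0, congrFun h2.2 1⟩

lemma mem_of_dvd {M : ℕ} {g : SL(2, ℤ)} (h : (M : ℤ) ∣ g 1 0) : g ∈ Gamma0 M := by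
  rw [Gamma0_mem, ZMod.intCast_zmod_eq_zero_iff_dvd]; exact h

lemma dvd_of_mem {M : ℕ} {g : SL(2, ℤ)} (h : g ∈ Gamma0 M) : (M : ℤ) ∣ g 1 0 := by
  rwa [Gamma0_mem, ZMod.intCast_zmod_eq_zero_iff_dvd] at h

lemma im_T_mul (n : ℤ) (g : SL(2, ℤ)) (z : ℍ) : ((ModularGroup.T ^ n * g) • z).im = (g • z).im := by
  rw [mul_smul, ModularGroup.im_T_zpow_smul]

lemma re_T_mul (n : ℤ) (g : SL(2, ℤ)) (z : ℍ) :
    ((ModularGroup.T ^ n * g) • z).re = (g • z).re + n := by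
  rw [mul_smul, ModularGroup.re_T_zpow_smul]

open Classical in
/-- the term of the Poincare series attached to a lower row. -/
def rowG (M : ℕ) (Y : ℝ) (E : ℍ → ℂ) (J : SL(2, ℤ) → ℍ → ℂ) (z : ℍ) (r : ℤ × ℤ) : ℂ :=
  if (M : ℤ) ∣ r.1 ∧ IsCoprime r.1 r.2 ∧ 1 / Y ≤ (rowMat r • z).im ∧ (rowMat r • z).im < 2 / Y then
    E (rowMat r • z) * (J (rowMat r) z)⁻¹ else 0

theorem pSum_eq_rows {M : ℕ} [NeZero M] {Y : ℝ} {J : SL(2, ℤ) → ℍ → ℂ}
    (hJ : IsMultT M J) {E : ℍ → ℂ} (hE : ∀ (n : ℤ) (z : ℍ), E (ModularGroup.T ^ n • z) = E z)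
    (z : ℍ) :
    pSum M Y E J z = ∑' r : ℤ × ℤ, rowG M Y E J z r := by
  classical
  unfold pSum
  symm
  have hJT : ∀ (n : ℤ) (g : SL(2, ℤ)), g ∈ Gamma0 M → J (ModularGroup.T ^ n * g) z = J g z := by
    intro n g hg
    rw [hJ.cocycle _ (T_zpow_mem M n) _ hg, hJ.T_eq, one_mul]
  set g : Gamma0 M → ℂ := fun k ↦ (hstrip Y).indicator E ((k : SL(2, ℤ)) • z) * (J k z)⁻¹ with hg
  have hsupp : ∀ k : Gamma0 M, g k ≠ 0 → (k : SL(2, ℤ)) • z ∈ hstrip Y := by
    intro k hk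
    by_contra h
    apply hk
    rw [hg]; simp only
    rw [Set.indicator_of_notMem h, zero_mul]
  refine tsum_eq_tsum_of_ne_zero_bij
    (fun k : Function.support g ↦ (((k : Gamma0 M) : SL(2, ℤ)) 1 0, ((k : Gamma0 M) : SL(2, ℤ)) 1 1))
    ?_ ?_ ?_
  · rintro ⟨k, hk⟩ ⟨k', hk'⟩ h
    simp only [Prod.mk.injEq] at h
    have h1 := hsupp k hk
    have h2 := hsupp k' hk'
    have h3 := eq_of_row h.1 h.2 h1.1 h1.2.1 h2.1 h2.2.1
    exact Subtype.ext (Subtype.ext h3)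
  · intro r hr
    rw [Function.mem_support] at hr
    unfold rowG at hr
    rw [ne_eq, ite_eq_right_iff, Classical.not_imp] at hr
    obtain ⟨⟨h1, h2, h3, h4⟩, h5⟩ := hr
    obtain ⟨hr1, hr2⟩ := rowMat_row h2
    have hmem : rowMat r ∈ Gamma0 M := mem_of_dvd (by rw [hr1]; exact h1)
    set n : ℤ := -⌊(rowMat r • z).re⌋ with hn
    have hfl1 := Int.floor_le (rowMat r • z).re
    have hfl2 := Int.lt_floor_add_one (rowMat r • z).re
    have hk : ModularGroup.T ^ n * rowMat r ∈ Gamma0 M := mul_mem (T_zpow_mem M n) hmem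
    have hstr : (ModularGroup.T ^ n * rowMat r) • z ∈ hstrip Y := by
      refine ⟨?_, ?_, ?_, ?_⟩
      · rw [re_T_mul, hn]; push_cast; linarith
      · rw [re_T_mul, hn]; push_cast; linarith
      · rw [im_T_mul]; exact h3
      · rw [im_T_mul]; exact h4
    have hval : g ⟨_, hk⟩ = E (rowMat r • z) * (J (rowMat r) z)⁻¹ := by
      rw [hg]; simp only
      rw [Set.indicator_of_mem hstr, mul_smul, hE, hJT n _ hmem]
    refine ⟨⟨⟨_, hk⟩, ?_⟩, ?_⟩
    · change g ⟨_, hk⟩ ≠ 0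
      rw [hval]; exact h5
    · simp only
      rw [mul_apply_two, mul_apply_two, T10, T11, hr1, hr2]
      ext <;> simp
  · rintro ⟨k, hk⟩
    simp only
    have h1 := hsupp k hk
    have hcop : IsCoprime ((k : SL(2, ℤ)) 1 0) ((k : SL(2, ℤ)) 1 1) := gcd_of_mem
    obtain ⟨hr1, hr2⟩ := rowMat_row (r := ((k : SL(2, ℤ)) 1 0, (k : SL(2, ℤ)) 1 1)) hcop
    simp only at hr1 hr2
    obtain ⟨n, hn⟩ := same_row hr1.symm hr2.symm
    unfold rowG
    have him : (rowMat ((k : SL(2, ℤ)) 1 0, (k : SL(2, ℤ)) 1 1) • z).im = ((k : SL(2, ℤ)) • z).im := by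
      rw [hn, im_T_mul]
    rw [if_pos, hn, mul_smul, hE, hJT n _ k.2]
    · rw [Set.indicator_of_mem h1]
    · refine ⟨dvd_of_mem k.2, hcop, ?_, ?_⟩
      · rw [him]; exact h1.2.2.1
      · rw [him]; exact h1.2.2.2

/-- the exponential `e(mz)`. -/
def eFun (m : ℕ) (z : ℍ) : ℂ := Complex.exp (2 * Real.pi * Complex.I * m * z)

lemma eFun_T (m : ℕ) (n : ℤ) (z : ℍ) : eFun m (ModularGroup.T ^ n • z) = eFun m z := by
  unfold eFun
  rw [Complex.exp_eq_exp_iff_exists_int]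
  refine ⟨m * n, ?_⟩
  have : ((ModularGroup.T ^ n • z : ℍ) : ℂ) = z + n := by
    rw [ModularGroup.coe_T_zpow_smul_eq]
  rw [this]; push_cast; ring

lemma measurable_eFun (m : ℕ) : Measurable (eFun m) := by
  unfold eFun
  have : Continuous fun z : ℍ ↦ Complex.exp (2 * Real.pi * Complex.I * m * z) := by
    have := UpperHalfPlane.continuous_coe
    fun_prop
  exact this.measurable

lemma norm_eFun (m : ℕ) (z : ℍ) : ‖eFun m z‖ = Real.exp (-(2 * Real.pi * m * z.im)) := by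
  unfold eFun
  rw [Complex.norm_exp]
  congr 1
  simp

/-- the test function on a horizontal line. -/
def psiC (m c : ℕ) (w : ℂ) : ℂ :=
  Complex.exp (-(2 * Real.pi * Complex.I * m) / (c ^ 2 * w)) *
    conj (Complex.exp (2 * Real.pi * Complex.I * m * w)) * (((c * w) ^ (1 / 2 : ℂ)) ^ 3)⁻¹

open Classical in
/-- its truncation. -/
def psiT (m c : ℕ) (Y y : ℝ) (t : ℝ) : ℂ :=
  if 1 / Y ≤ y / ‖(c : ℂ) * (t + y * Complex.I)‖ ^ 2 ∧ y / ‖(c : ℂ) * (t + y * Complex.I)‖ ^ 2 < 2 / Y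
  then psiC m c (t + y * Complex.I) else 0

open Classical in
/-- the arithmetic weight. -/
def kap (m : ℕ) (s : ℤ → ℤ → ℂ) (c : ℕ) [NeZero c] (d : ℤ) : ℂ :=
  if IsCoprime (c : ℤ) d then
    (s c d)⁻¹ * ZMod.stdAddChar ((m : ZMod c) * ((d : ZMod c) + (d : ZMod c)⁻¹)) else 0

lemma rowG_eq {M : ℕ} [NeZero M] {Y : ℝ} {J : SL(2, ℤ) → ℍ → ℂ} {s : ℤ → ℤ → ℂ}
    (hs : ∀ k ∈ Gamma0 M, ∀ z, J k z = s (k 1 0) (k 1 1) * (lowerForm k z ^ (1 / 2 : ℂ)) ^ 3)
    (m : ℕ) {c : ℕ} [NeZero c] (hMc : M ∣ c) (d : ℤ) {x y : ℝ} (hy : 0 < y) :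
    rowG M Y (eFun m) J (pt x y) (c, d) * conj (eFun m (pt x y)) =
      kap m s c d * psiT m c Y y (x + d / c) := by
  classical
  have hc0 : (c : ℂ) ≠ 0 := by exact_mod_cast NeZero.ne c
  unfold rowG kap
  by_cases hcop : IsCoprime (c : ℤ) d
  · obtain ⟨hr1, hr2⟩ := rowMat_row (r := ((c : ℤ), d)) hcop
    simp only at hr1 hr2
    set g := rowMat ((c : ℤ), d) with hg
    have hgm : g ∈ Gamma0 M := mem_of_dvd (by rw [hr1]; exact_mod_cast hMc)
    set w : ℂ := ((x + d / c : ℝ) : ℂ) + y * Complex.I with hw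
    have hcw : (c : ℂ) * w = lowerForm g (pt x y) := by
      unfold lowerForm
      rw [hr1, hr2, coe_pt hy, hw]
      push_cast
      field_simp
      ring
    have him : (g • pt x y).im = y / ‖(c : ℂ) * w‖ ^ 2 := by
      rw [im_smul_eq, im_pt hy, hcw]
    have hM' : (M : ℤ) ∣ ((c : ℤ), d).1 := by simpa using (Int.natCast_dvd_natCast.2 hMc)
    unfold psiT
    rw [him]
    by_cases hcond : 1 / Y ≤ y / ‖(c : ℂ) * w‖ ^ 2 ∧ y / ‖(c : ℂ) * w‖ ^ 2 < 2 / Y
    · rw [if_pos ⟨hM', hcop, hcond.1, hcond.2⟩, if_pos hcop, if_pos hcond, hs g hgm, hr1, hr2, ← hcw]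
      unfold psiC eFun
      have hcw0 : (c : ℂ) * w ≠ 0 := by rw [hcw]; exact lowerForm_ne_zero _ _
      have hw0 : w ≠ 0 := right_ne_zero_of_mul hcw0
      -- the point
      have hdet := g.det_coe
      rw [Matrix.det_fin_two, hr1, hr2] at hdet
      have hpt : ((g • pt x y : ℍ) : ℂ) = ((g 0 0 : ℤ) : ℂ) / c - 1 / (c ^ 2 * w) := by
        rw [coe_sl_smul, ← hcw]
        have e1 : ((g 0 0 : ℤ) : ℂ) * ((pt x y : ℍ) : ℂ) + ((g 0 1 : ℤ) : ℂ) =
            ((g 0 0 : ℤ) : ℂ) * w - 1 / c := by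
          have h2 : ((g 0 0 : ℤ) : ℂ) * d - ((g 0 1 : ℤ) : ℂ) * c = 1 := by exact_mod_cast hdet
          rw [coe_pt hy, hw]
          push_cast
          field_simp
          linear_combination (-1 : ℂ) * h2
        rw [e1]
        field_simp
      have hzw : ((pt x y : ℍ) : ℂ) = w - d / c := by
        rw [coe_pt hy, hw]; push_cast; ring
      rw [hpt, hzw]
      have hinv : ((d : ZMod c))⁻¹ = ((g 0 0 : ℤ) : ZMod c) := by
        have h3 : ((g 0 0 : ℤ) : ZMod c) * (d : ZMod c) = 1 := by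
          have := congrArg (Int.cast : ℤ → ZMod c) hdet
          push_cast at this
          simpa using this
        have hu : IsUnit (d : ZMod c) := IsUnit.of_mul_eq_one_right _ h3
        calc ((d : ZMod c))⁻¹ = (((g 0 0 : ℤ) : ZMod c) * (d : ZMod c)) * (d : ZMod c)⁻¹ := by
              rw [h3, one_mul]
          _ = _ := by rw [mul_assoc, ZMod.mul_inv_of_unit _ hu, mul_one]
      have hchar : (ZMod.stdAddChar ((m : ZMod c) * ((d : ZMod c) + (d : ZMod c)⁻¹)) : ℂ) =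
          Complex.exp (2 * Real.pi * Complex.I * (m * (d + g 0 0) : ℤ) / c) := by
        rw [hinv]
        have e2 : (m : ZMod c) * ((d : ZMod c) + ((g 0 0 : ℤ) : ZMod c)) =
            ((m * (d + g 0 0) : ℤ) : ZMod c) := by push_cast; ring
        rw [e2, ZMod.stdAddChar_coe]
      rw [hchar]
      have hconj : conj (Complex.exp (2 * Real.pi * Complex.I * m * (w - d / c))) =
          conj (Complex.exp (2 * Real.pi * Complex.I * m * w)) *
            Complex.exp (2 * Real.pi * Complex.I * m * d / c) := by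
        rw [← Complex.exp_conj, ← Complex.exp_conj, ← Complex.exp_add]
        congr 1
        simp only [map_mul, map_sub, map_div₀, Complex.conj_I, Complex.conj_ofReal, map_natCast,
          map_intCast, map_ofNat]
        ring
      rw [hconj]
      have hexp : Complex.exp (2 * Real.pi * Complex.I * m * (((g 0 0 : ℤ) : ℂ) / c - 1 / (c ^ 2 * w))) *
          Complex.exp (2 * Real.pi * Complex.I * m * d / c) =
          Complex.exp (2 * Real.pi * Complex.I * (m * (d + g 0 0) : ℤ) / c) *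
          Complex.exp (-(2 * Real.pi * Complex.I * m) / (c ^ 2 * w)) := by
        rw [← Complex.exp_add, ← Complex.exp_add]
        congr 1
        push_cast
        ring
      rw [mul_inv]
      linear_combination ((s c d)⁻¹ * (((((c : ℂ) * w) ^ (1 / 2 : ℂ)) ^ 3)⁻¹) *
        conj (Complex.exp (2 * Real.pi * Complex.I * m * w))) * hexp
    · rw [if_neg, if_neg hcond]
      · simp
      · rintro ⟨-, -, h3, h4⟩; exact hcond ⟨h3, h4⟩
  · rw [if_neg, if_neg hcop]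
    · simp
    · rintro ⟨-, h2, -⟩; exact hcop h2

end

end Pool.Agent.Work.MP_af11aa_nt.K
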