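import Mathlib
import Pool.Agent.Work.MP_af11aa_nt.K.RowSum

namespace Pool.Agent.Work.MP_af11aa_nt.K

open Pool.Agent.Work.MP_af11aa_nt
open UpperHalfPlane CongruenceSubgroup MeasureTheory
open Complex hiding Gamma
open scoped MatrixGroups Manifold Topology ComplexConjugate ENNReal NNReal Modular

noncomputable section

lemma im_w (t y : ℝ) : ((t : ℂ) + y * Complex.I).im = y := by simp

lemma re_w (t y : ℝ) : ((t : ℂ) + y * Complex.I).re = t := by simp

lemma norm_psiC_le (m c : ℕ) {t y : ℝ} (hy : 0 < y)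
    (h : 1 / 2 ≤ ‖(c : ℂ) * (t + y * Complex.I)‖ ^ 2) : ‖psiC m c (t + y * Complex.I)‖ ≤ 2 := by
  set w : ℂ := t + y * Complex.I with hw
  have him : w.im = y := im_w t y
  unfold psiC
  rw [norm_mul, norm_mul, Complex.norm_conj, norm_inv, norm_pow, norm_cpow_half]
  have h1 : ‖Complex.exp (-(2 * Real.pi * Complex.I * m) / (c ^ 2 * w))‖ ≤ 1 := by
    rw [Complex.norm_exp, Real.exp_le_one_iff]
    have e : -(2 * Real.pi * Complex.I * m) / (c ^ 2 * w) =
        ((-(2 * Real.pi * m) / c ^ 2 : ℝ) : ℂ) * (Complex.I / w) := by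
      push_cast; field_simp
    rw [e, Complex.re_ofReal_mul]
    have h2 : (Complex.I / w).re = y / Complex.normSq w := by
      rw [Complex.div_re]; simp [him]
    rw [h2]
    have h3 : 0 ≤ y / Complex.normSq w := div_nonneg hy.le (Complex.normSq_nonneg _)
    have h4 : (-(2 * Real.pi * m) / (c : ℝ) ^ 2) ≤ 0 := by
      apply div_nonpos_of_nonpos_of_nonneg _ (by positivity)
      have := Real.pi_pos
      have : 0 ≤ 2 * Real.pi * m := by positivity
      linarith
    exact mul_nonpos_of_nonpos_of_nonneg h4 h3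
  have h5 : ‖Complex.exp (2 * Real.pi * Complex.I * m * w)‖ ≤ 1 := by
    rw [Complex.norm_exp, Real.exp_le_one_iff]
    have e : (2 * Real.pi * Complex.I * m * w).re = -(2 * Real.pi * m * y) := by
      have e2 : (2 * Real.pi * Complex.I * m * w : ℂ) = ((2 * Real.pi * m : ℝ) : ℂ) * (Complex.I * w) := by
        push_cast; ring
      rw [e2, Complex.re_ofReal_mul]
      simp [him]
    rw [e]
    have := Real.pi_pos
    have : 0 ≤ 2 * Real.pi * m * y := by positivity
    linarith
  have h6 : ((‖(c : ℂ) * w‖ ^ (1 / 2 : ℝ)) ^ 3)⁻¹ ≤ 2 := by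
    rw [inv_le_comm₀]
    · set A := ‖(c : ℂ) * w‖ with hA
      have hA0 : 0 ≤ A := norm_nonneg _
      set B := A ^ (1 / 2 : ℝ) with hB
      have hB0 : 0 ≤ B := by positivity
      have hB2 : B ^ 2 = A := by
        rw [hB, ← Real.rpow_natCast, ← Real.rpow_mul hA0]; norm_num
      have hB4 : 1 / 2 ≤ B ^ 4 := by
        calc 1 / 2 ≤ A ^ 2 := h
          _ = B ^ 4 := by rw [← hB2]; ring
      by_contra hcon
      push Not at hcon
      have hB1 : B < 1 := by
        by_contra h7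
        push Not at h7
        have : 1 ≤ B ^ 3 := one_le_pow₀ h7
        norm_num at hcon
        linarith
      have : B ^ 4 < 1 / 2 := by
        calc B ^ 4 = B ^ 3 * B := by ring
          _ ≤ B ^ 3 * 1 := by gcongr
          _ < 1 / 2 := by norm_num at hcon ⊢; linarith
      linarith
    · have hA0 : 0 < ‖(c : ℂ) * w‖ := by
        by_contra h7
        have : ‖(c : ℂ) * w‖ = 0 := le_antisymm (not_lt.1 h7) (norm_nonneg _)
        rw [this] at h; norm_num at h
      positivity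
    · norm_num
  calc ‖Complex.exp (-(2 * Real.pi * Complex.I * m) / (c ^ 2 * w))‖ *
        ‖Complex.exp (2 * Real.pi * Complex.I * m * w)‖ * ((‖(c : ℂ) * w‖ ^ (1 / 2 : ℝ)) ^ 3)⁻¹
      ≤ 1 * 1 * 2 := by gcongr
    _ = 2 := by norm_num

lemma normSq_cw (c : ℕ) (t y : ℝ) :
    ‖(c : ℂ) * (t + y * Complex.I)‖ ^ 2 = (c : ℝ) ^ 2 * (t ^ 2 + y ^ 2) := by
  rw [norm_mul, mul_pow, Complex.norm_natCast, ← Complex.normSq_eq_norm_sq, Complex.normSq_apply,
    re_w, im_w]
  ring

lemma psiT_cond {c : ℕ} [NeZero c] {Y y t : ℝ} (hY : 0 < Y) (hy : y ∈ Set.Ico (1 / Y) (2 / Y))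
    (h : 1 / Y ≤ y / ‖(c : ℂ) * (t + y * Complex.I)‖ ^ 2 ∧
      y / ‖(c : ℂ) * (t + y * Complex.I)‖ ^ 2 < 2 / Y) :
    1 / 2 ≤ ‖(c : ℂ) * (t + y * Complex.I)‖ ^ 2 ∧ |t| ≤ 3 / 2 / c ∧ (c : ℝ) ≤ Real.sqrt 2 * Y := by
  have hc : (0 : ℝ) < c := Nat.cast_pos.2 (NeZero.pos c)
  have hy0 : 0 < y := lt_of_lt_of_le (by positivity) hy.1
  obtain ⟨h1, h2⟩ := h
  have hy1 : 1 ≤ y * Y := by
    have := hy.1; rwa [div_le_iff₀ hY] at this
  have hy2 : y * Y < 2 := by
    have := hy.2; rwa [lt_div_iff₀ hY] at this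
  rw [normSq_cw] at h1 h2 ⊢
  have hQ : 0 < (c : ℝ) ^ 2 * (t ^ 2 + y ^ 2) := by positivity
  rw [div_le_div_iff₀ hY hQ] at h1
  rw [div_lt_div_iff₀ hQ hY] at h2
  refine ⟨by linarith, ?_, ?_⟩
  · rw [le_div_iff₀ hc]
    have h3 : (|t| * c) ^ 2 ≤ (3 / 2 : ℝ) ^ 2 := by
      rw [mul_pow, sq_abs]
      nlinarith [sq_nonneg (c * y : ℝ)]
    exact (pow_le_pow_iff_left₀ (by positivity) (by norm_num) (by norm_num)).1 h3
  · have h3 : (c * y : ℝ) ^ 2 ≤ 2 := by nlinarith [sq_nonneg (c * t : ℝ)]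
    have h4 : (c * y : ℝ) ≤ Real.sqrt 2 := by
      rw [← Real.sqrt_sq (by positivity : (0 : ℝ) ≤ c * y)]
      exact Real.sqrt_le_sqrt h3
    calc (c : ℝ) = c * 1 := (mul_one _).symm
      _ ≤ c * (y * Y) := by gcongr
      _ = (c * y) * Y := by ring
      _ ≤ _ := by gcongr

lemma norm_psiT_le {m c : ℕ} [NeZero c] {Y y : ℝ} (hY : 0 < Y) (hy : y ∈ Set.Ico (1 / Y) (2 / Y))
    (t : ℝ) :
    ‖psiT m c Y y t‖ ≤ (Set.Icc (-(3 / 2 / c) : ℝ) (3 / 2 / c)).indicator (fun _ ↦ (2 : ℝ)) t := by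
  have hy0 : 0 < y := lt_of_lt_of_le (by positivity) hy.1
  unfold psiT
  split_ifs with h
  · obtain ⟨h1, h2, -⟩ := psiT_cond hY hy h
    have hm : t ∈ Set.Icc (-(3 / 2 / c) : ℝ) (3 / 2 / c) := abs_le.1 h2
    rw [Set.indicator_of_mem hm]
    exact norm_psiC_le m c hy0 h1
  · rw [norm_zero]
    exact Set.indicator_nonneg (fun _ _ ↦ by norm_num) _

lemma measurable_psiT (m c : ℕ) (Y y : ℝ) : Measurable (psiT m c Y y) := by
  unfold psiT
  have h1 : Measurable fun t : ℝ ↦ y / ‖(c : ℂ) * (t + y * Complex.I)‖ ^ 2 := by fun_prop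
  refine Measurable.ite ?_ ?_ measurable_const
  · exact (measurableSet_le measurable_const h1).inter (measurableSet_lt h1 measurable_const)
  · unfold psiC
    have h2 : Measurable fun t : ℝ ↦ (t + y * Complex.I : ℂ) := by fun_prop
    refine ((Complex.measurable_exp.comp ?_).mul
      (Complex.continuous_conj.measurable.comp (Complex.measurable_exp.comp ?_))).mul ?_
    · exact measurable_const.div (h2.const_mul _)
    · exact h2.const_mul _
    · exact (((h2.const_mul _).pow_const _).pow_const _).inv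

lemma integrable_psiT {m c : ℕ} [NeZero c] {Y y : ℝ} (hY : 0 < Y)
    (hy : y ∈ Set.Ico (1 / Y) (2 / Y)) : Integrable (psiT m c Y y) := by
  have h1 : Integrable ((Set.Icc (-(3 / 2 / c) : ℝ) (3 / 2 / c)).indicator (fun _ ↦ (2 : ℝ))) := by
    rw [integrable_indicator_iff measurableSet_Icc]
    exact integrableOn_const (by simp) 
  exact h1.mono' (measurable_psiT m c Y y).aestronglyMeasurable
    (Filter.Eventually.of_forall fun t ↦ norm_psiT_le hY hy t)

lemma norm_integral_psiT_le {m c : ℕ} [NeZero c] {Y y : ℝ} (hY : 0 < Y)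
    (hy : y ∈ Set.Ico (1 / Y) (2 / Y)) : ‖∫ t, psiT m c Y y t‖ ≤ 6 / c := by
  have hc : (0 : ℝ) < c := Nat.cast_pos.2 (NeZero.pos c)
  have h1 : Integrable ((Set.Icc (-(3 / 2 / c) : ℝ) (3 / 2 / c)).indicator (fun _ ↦ (2 : ℝ))) := by
    rw [integrable_indicator_iff measurableSet_Icc]
    exact integrableOn_const (by simp)
  refine (norm_integral_le_of_norm_le h1
    (Filter.Eventually.of_forall fun t ↦ norm_psiT_le hY hy t)).trans (le_of_eq ?_)
  rw [integral_indicator measurableSet_Icc, setIntegral_const, Measure.real, Real.volume_Icc,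
    ENNReal.toReal_ofReal (by have : 0 < 3 / 2 / (c : ℝ) := by positivity
                              linarith)]
  simp only [smul_eq_mul]
  field_simp
  ring

/-- sum over all shifts by multiples of `1/c`, with a periodic weight. -/
lemma hasSum_shifts {φ : ℝ → ℂ} (hφ : Integrable φ) (c : ℕ) [NeZero c] {κ : ℤ → ℂ}
    (hκ : ∀ d, κ (d + c) = κ d) :
    HasSum (fun d : ℤ ↦ κ d * ∫ x in (0 : ℝ)..1, φ (x + d / c))
      ((∑ j ∈ Finset.range c, κ j) * ∫ t, φ t) := by
  classical
  have hc : (c : ℝ) ≠ 0 := by exact_mod_cast NeZero.ne c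
  have hcz : (c : ℤ) ≠ 0 := by exact_mod_cast NeZero.ne c
  have hκn : ∀ (n : ℤ) (j : ℤ), κ (j + c * n) = κ j := by
    intro n j
    induction n using Int.induction_on with
    | zero => simp
    | succ n ih =>
      have : j + c * ((n : ℤ) + 1) = (j + c * n) + c := by ring
      rw [this, hκ, ih]
    | pred n ih =>
      have h1 := hκ (j + c * (-(n : ℤ) - 1))
      have : j + c * (-(n : ℤ) - 1) + c = j + c * (-(n : ℤ)) := by ring
      rw [this, ih] at h1
      exact h1.symm
  rw [Finset.sum_mul]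
  have h1 : ∀ j ∈ Finset.range c, HasSum (fun d : ℤ ↦ if d % c = j then
      κ d * ∫ x in (0 : ℝ)..1, φ (x + d / c) else 0) (κ j * ∫ t, φ t) := by
    intro j hj
    have hinj : Function.Injective fun n : ℤ ↦ (j : ℤ) + c * n := by
      intro a b h
      simp only [add_right_inj] at h
      exact mul_left_cancel₀ hcz h
    rw [← hinj.hasSum_iff]
    · have h2 : ∀ n : ℤ, ((fun d : ℤ ↦ if d % c = j then
          κ d * ∫ x in (0 : ℝ)..1, φ (x + d / c) else 0) ∘ fun n : ℤ ↦ (j : ℤ) + c * n) n =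
          κ j * ∫ x in (0 : ℝ)..1, φ ((x + n) + j / c) := by
        intro n
        simp only [Function.comp_apply]
        have hmod : ((j : ℤ) + c * n) % c = j := by
          rw [Int.add_mul_emod_self_left]
          exact Int.emod_eq_of_lt (by positivity) (by exact_mod_cast Finset.mem_range.1 hj)
        rw [if_pos hmod, hκn]
        congr 1
        congr 1
        funext x
        congr 1
        push_cast
        field_simp
        ring
      have h3 := (hφ.comp_add_right ((j : ℝ) / c)).hasSum_intervalIntegral_comp_add_int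
      rw [integral_add_right_eq_self φ ((j : ℝ) / c)] at h3
      have h4 := h3.mul_left (κ j)
      have h5 : (fun n : ℤ ↦ κ j * ∫ x in (0 : ℝ)..1, φ ((x + n) + j / c)) =
          ((fun d : ℤ ↦ if d % c = j then
          κ d * ∫ x in (0 : ℝ)..1, φ (x + d / c) else 0) ∘ fun n : ℤ ↦ (j : ℤ) + c * n) :=
        funext fun n ↦ (h2 n).symm
      rw [← h5]
      exact h4
    · intro d hd
      rw [if_neg]
      intro h
      apply hd
      refine ⟨d / c, ?_⟩
      simp only
      have := Int.emod_add_mul_ediv d c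
      rw [h] at this
      exact this
  have h2 := hasSum_sum h1
  have h3 : (fun d : ℤ ↦ ∑ j ∈ Finset.range c, if d % c = j then
      κ d * ∫ x in (0 : ℝ)..1, φ (x + d / c) else 0) =
      fun d : ℤ ↦ κ d * ∫ x in (0 : ℝ)..1, φ (x + d / c) := by
    funext d
    have hd0 : 0 ≤ d % c := Int.emod_nonneg _ hcz
    have hd1 : d % c < c := Int.emod_lt_of_pos _ (by exact_mod_cast NeZero.pos c)
    obtain ⟨j0, hj0⟩ := Int.eq_ofNat_of_zero_le hd0
    have hj1 : j0 ∈ Finset.range c := by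
      rw [Finset.mem_range]; rw [hj0] at hd1; exact_mod_cast hd1
    rw [Finset.sum_eq_single_of_mem j0 hj1]
    · rw [if_pos hj0]
    · intro j _ hj
      rw [if_neg]
      intro h
      apply hj
      rw [hj0] at h
      exact_mod_cast h.symm
  rw [← h3]
  exact h2

end

end Pool.Agent.Work.MP_af11aa_nt.K
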