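import Mathlib
import Pool.Agent.Work.MP_af11aa_nt.K.LineSum

namespace Pool.Agent.Work.MP_af11aa_nt.K

open Pool.Agent.Work.MP_af11aa_nt
open UpperHalfPlane CongruenceSubgroup MeasureTheory
open Complex hiding Gamma
open scoped MatrixGroups Manifold Topology ComplexConjugate ENNReal NNReal Modular

noncomputable section

/-- the box of lower rows. -/
def rowBox (Y : ℝ) : Finset (ℤ × ℤ) :=
  Finset.Icc (-(⌊Real.sqrt 2 * Y⌋₊ : ℤ)) ⌊Real.sqrt 2 * Y⌋₊ ×ˢ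
    Finset.Icc (-(⌊Real.sqrt 2 * Y⌋₊ + 2 : ℤ)) (⌊Real.sqrt 2 * Y⌋₊ + 2)

lemma rowG_cond {M : ℕ} {Y : ℝ} {J : SL(2, ℤ) → ℍ → ℂ} {E : ℍ → ℂ} {z : ℍ}
    {r : ℤ × ℤ} (hr : rowG M Y E J z r ≠ 0) :
    (M : ℤ) ∣ r.1 ∧ IsCoprime r.1 r.2 ∧ 1 / Y ≤ z.im / ‖(r.1 : ℂ) * z + r.2‖ ^ 2 ∧
      z.im / ‖(r.1 : ℂ) * z + r.2‖ ^ 2 < 2 / Y ∧ (r.1 : ℂ) * z + r.2 ≠ 0 := by
  classical
  unfold rowG at hr
  rw [ne_eq, ite_eq_right_iff, Classical.not_imp] at hr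
  obtain ⟨⟨h1, h2, h3, h4⟩, -⟩ := hr
  obtain ⟨hr1, hr2⟩ := rowMat_row h2
  have hL : lowerForm (rowMat r) z = (r.1 : ℂ) * z + r.2 := by
    unfold lowerForm; rw [hr1, hr2]
  rw [im_smul_eq, hL] at h3 h4
  refine ⟨h1, h2, h3, h4, ?_⟩
  rw [← hL]; exact lowerForm_ne_zero _ _

lemma normSq_row (z : ℍ) (r : ℤ × ℤ) :
    ‖(r.1 : ℂ) * z + r.2‖ ^ 2 = (r.1 * z.re + r.2) ^ 2 + (r.1 * z.im) ^ 2 := by
  rw [← Complex.normSq_eq_norm_sq, Complex.normSq_apply]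
  have h1 : ((r.1 : ℂ) * z + r.2).re = r.1 * z.re + r.2 := by simp
  have h2 : ((r.1 : ℂ) * z + r.2).im = r.1 * z.im := by simp
  rw [h1, h2]; ring

lemma rowG_support {M : ℕ} {Y : ℝ} (hY : 0 < Y) {J : SL(2, ℤ) → ℍ → ℂ} {E : ℍ → ℂ} {z : ℍ}
    (hz : z ∈ hstrip Y) {r : ℤ × ℤ} (hr : rowG M Y E J z r ≠ 0) : r ∈ rowBox Y := by
  obtain ⟨-, -, h3, -, h5⟩ := rowG_cond hr
  obtain ⟨z1, z2, z3, z4⟩ := hz
  have hQ : 0 < ‖(r.1 : ℂ) * z + r.2‖ ^ 2 := by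
    have := norm_pos_iff.2 h5; positivity
  rw [div_le_div_iff₀ hY hQ, one_mul, normSq_row] at h3
  rw [div_le_iff₀ hY] at z3
  rw [lt_div_iff₀ hY] at z4
  have hy := z.im_pos
  have h6 : (r.1 * z.im) ^ 2 ≤ 2 := by nlinarith [sq_nonneg (r.1 * z.re + r.2 : ℝ)]
  have h7 : (r.1 * z.re + r.2) ^ 2 ≤ 2 := by nlinarith [sq_nonneg (r.1 * z.im : ℝ)]
  have h8 : |(r.1 : ℝ)| ≤ Real.sqrt 2 * Y := by
    have h9 : |(r.1 : ℝ) * z.im| ≤ Real.sqrt 2 := by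
      rw [← Real.sqrt_sq_eq_abs]; exact Real.sqrt_le_sqrt h6
    rw [abs_mul, abs_of_pos hy] at h9
    calc |(r.1 : ℝ)| = |(r.1 : ℝ)| * 1 := (mul_one _).symm
      _ ≤ |(r.1 : ℝ)| * (z.im * Y) := by gcongr
      _ = (|(r.1 : ℝ)| * z.im) * Y := by ring
      _ ≤ _ := by gcongr
  have h10 : r.1.natAbs ≤ ⌊Real.sqrt 2 * Y⌋₊ := by
    apply Nat.le_floor
    rw [Nat.cast_natAbs, Int.cast_abs]
    exact h8
  have h11 : |(r.2 : ℝ)| < |(r.1 : ℝ)| + 2 := by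
    have h12 : |(r.1 : ℝ) * z.re + r.2| ≤ 3 / 2 := by
      have : (r.1 * z.re + r.2) ^ 2 ≤ (3 / 2 : ℝ) ^ 2 := by linarith
      exact abs_le_of_sq_le_sq this (by norm_num)
    have h13 : |(r.1 : ℝ) * z.re| ≤ |(r.1 : ℝ)| := by
      rw [abs_mul, abs_of_nonneg z1]
      calc |(r.1 : ℝ)| * z.re ≤ |(r.1 : ℝ)| * 1 := by gcongr
        _ = _ := mul_one _
    have h14 : (r.2 : ℝ) = ((r.1 : ℝ) * z.re + r.2) - (r.1 : ℝ) * z.re := by ring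
    calc |(r.2 : ℝ)| = |((r.1 : ℝ) * z.re + r.2) - (r.1 : ℝ) * z.re| := by rw [← h14]
      _ ≤ |(r.1 : ℝ) * z.re + r.2| + |(r.1 : ℝ) * z.re| := abs_sub _ _
      _ < _ := by linarith
  have h15 : r.2.natAbs < r.1.natAbs + 2 := by
    have : ((r.2.natAbs : ℕ) : ℝ) < ((r.1.natAbs + 2 : ℕ) : ℝ) := by
      push_cast
      rw [Nat.cast_natAbs, Nat.cast_natAbs, Int.cast_abs, Int.cast_abs]
      exact h11
    exact_mod_cast this
  unfold rowBox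
  rw [Finset.mem_product, Finset.mem_Icc, Finset.mem_Icc]
  omega

lemma rowG_norm {M : ℕ} {Y : ℝ} (hY : 0 < Y) {J : SL(2, ℤ) → ℍ → ℂ} (hJ : IsMult M J)
    {E : ℍ → ℂ} (hE : ∀ z, ‖E z‖ ≤ 1) {z : ℍ} (hz : 1 / Y ≤ z.im) (r : ℤ × ℤ) :
    ‖rowG M Y E J z r‖ ≤ 2 := by
  classical
  by_cases h0 : rowG M Y E J z r = 0
  · rw [h0]; simp
  obtain ⟨h1, h2, -, h4, h5⟩ := rowG_cond h0
  obtain ⟨hr1, hr2⟩ := rowMat_row h2
  have hL : lowerForm (rowMat r) z = (r.1 : ℂ) * z + r.2 := by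
    unfold lowerForm; rw [hr1, hr2]
  have hmem : rowMat r ∈ Gamma0 M := mem_of_dvd (by rw [hr1]; exact h1)
  have hpos : 0 < ‖(r.1 : ℂ) * z + r.2‖ := norm_pos_iff.2 h5
  have hQ : 0 < ‖(r.1 : ℂ) * z + r.2‖ ^ 2 := by positivity
  rw [div_lt_div_iff₀ hQ hY] at h4
  rw [div_le_iff₀ hY] at hz
  set A := ‖(r.1 : ℂ) * z + r.2‖ with hA
  have hA2 : 1 / 2 ≤ A ^ 2 := by linarith
  have hJn : (‖J (rowMat r) z‖)⁻¹ ≤ 2 := by
    rw [hJ.norm_eq _ hmem, hL, ← hA]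
    rw [inv_le_comm₀ (by positivity) (by norm_num)]
    by_contra hcon
    push Not at hcon
    have hB : (A ^ (3 / 2 : ℝ)) ^ 4 = (A ^ 2) ^ 3 := by
      rw [← Real.rpow_natCast, ← Real.rpow_mul hpos.le, ← pow_mul, ← Real.rpow_natCast]
      norm_num
    have h6 : (A ^ (3 / 2 : ℝ)) ^ 4 < (2⁻¹ : ℝ) ^ 4 :=
      pow_lt_pow_left₀ hcon (by positivity) (by norm_num)
    have h7 : (1 / 2 : ℝ) ^ 3 ≤ (A ^ 2) ^ 3 := by gcongr
    rw [hB] at h6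
    norm_num at h6 h7
    linarith
  unfold rowG
  split_ifs
  · rw [norm_mul, norm_inv]
    calc ‖E (rowMat r • z)‖ * ‖J (rowMat r) z‖⁻¹ ≤ 1 * 2 := by
          gcongr
          exact hE _
      _ = 2 := by norm_num
  · simp

lemma measurable_rowG {M : ℕ} {Y : ℝ} {J : SL(2, ℤ) → ℍ → ℂ} (hJ : IsMult M J)
    {E : ℍ → ℂ} (hE : Measurable E) (r : ℤ × ℤ) : Measurable fun z ↦ rowG M Y E J z r := by
  classical
  by_cases h : (M : ℤ) ∣ r.1 ∧ IsCoprime r.1 r.2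
  · have hmem : rowMat r ∈ Gamma0 M := mem_of_dvd (by rw [(rowMat_row h.2).1]; exact h.1)
    have h1 : (fun z ↦ rowG M Y E J z r) = {z : ℍ | 1 / Y ≤ (rowMat r • z).im ∧
        (rowMat r • z).im < 2 / Y}.indicator (fun z ↦ E (rowMat r • z) * (J (rowMat r) z)⁻¹) := by
      funext z
      unfold rowG
      rw [Set.indicator_apply]
      congr 1
      simp only [Set.mem_ofPred_eq, eq_iff_iff]
      tauto
    rw [h1]
    refine Measurable.indicator ?_ ?_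
    · exact (hE.comp (measurableEmb_smul _).measurable).mul (hJ.meas _ hmem).inv
    · have h2 : Measurable fun z : ℍ ↦ (rowMat r • z).im :=
        measurable_upper_im.comp (measurableEmb_smul _).measurable
      exact (measurableSet_le measurable_const h2).inter (measurableSet_lt h2 measurable_const)
  · have h1 : (fun z ↦ rowG M Y E J z r) = fun _ ↦ 0 := by
      funext z
      unfold rowG
      rw [if_neg]
      rintro ⟨a, b, -, -⟩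
      exact h ⟨a, b⟩
    rw [h1]
    exact measurable_const

lemma pSum_strip {M : ℕ} [NeZero M] {Y : ℝ} (hY : 0 < Y) {J : SL(2, ℤ) → ℍ → ℂ}
    (hJ : IsMultT M J) {E : ℍ → ℂ} (hE : ∀ (n : ℤ) (z : ℍ), E (ModularGroup.T ^ n • z) = E z)
    {z : ℍ} (hz : z ∈ hstrip Y) :
    pSum M Y E J z = ∑ r ∈ rowBox Y, rowG M Y E J z r := by
  rw [pSum_eq_rows hJ hE]
  apply tsum_eq_sum
  intro r hr
  by_contra h
  exact hr (rowG_support hY hz h)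

lemma norm_eFun_le (m : ℕ) (z : ℍ) : ‖eFun m z‖ ≤ 1 := by
  rw [norm_eFun, Real.exp_le_one_iff]
  have := z.im_pos
  have := Real.pi_pos
  have : 0 ≤ 2 * Real.pi * m * z.im := by positivity
  linarith

lemma pSum_bound {M : ℕ} [NeZero M] {Y : ℝ} (hY : 0 < Y) {J : SL(2, ℤ) → ℍ → ℂ}
    (hJ : IsMultT M J) (m : ℕ) {z : ℍ} (hz : z ∈ hstrip Y) :
    ‖pSum M Y (eFun m) J z * conj (eFun m z)‖ ≤ 2 * (rowBox Y).card := by
  rw [pSum_strip hY hJ (fun n z ↦ eFun_T m n z) hz, norm_mul, Complex.norm_conj]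
  calc ‖∑ r ∈ rowBox Y, rowG M Y (eFun m) J z r‖ * ‖eFun m z‖
      ≤ (∑ r ∈ rowBox Y, (2 : ℝ)) * 1 := by
        refine mul_le_mul ?_ (norm_eFun_le m z) (norm_nonneg _) (by positivity)
        refine (norm_sum_le _ _).trans (Finset.sum_le_sum fun r _ ↦ ?_)
        exact rowG_norm hY hJ.toIsMult (norm_eFun_le m) hz.2.2.1 r
    _ = _ := by rw [Finset.sum_const, nsmul_eq_mul]; ring

end

end Pool.Agent.Work.MP_af11aa_nt.K
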