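import Mathlib
import Pool.Agent.Work.MP_af11aa_nt.K.BBound

namespace Pool.Agent.Work.MP_af11aa_nt.K

open Pool.Agent.Work.MP_af11aa_nt
open UpperHalfPlane CongruenceSubgroup MeasureTheory
open Complex hiding Gamma
open scoped MatrixGroups Manifold Topology ComplexConjugate ENNReal NNReal Modular

noncomputable section

lemma rowG_neg {M : ℕ} {Y : ℝ} {J : SL(2, ℤ) → ℍ → ℂ} (hJ : IsMultT M J)
    {E : ℍ → ℂ} (hE : ∀ (n : ℤ) (z : ℍ), E (ModularGroup.T ^ n • z) = E z) (z : ℍ) (r : ℤ × ℤ) :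
    rowG M Y E J z (-r) = rowG M Y E J z r := by
  classical
  by_cases h : (M : ℤ) ∣ r.1 ∧ IsCoprime r.1 r.2
  · have h' : (M : ℤ) ∣ (-r).1 ∧ IsCoprime (-r).1 (-r).2 := by
      refine ⟨?_, ?_⟩
      · rw [Prod.fst_neg, dvd_neg]; exact h.1
      · rw [Prod.fst_neg, Prod.snd_neg]
        exact (IsCoprime.neg_neg_iff _ _).2 h.2
    obtain ⟨hr1, hr2⟩ := rowMat_row h.2
    obtain ⟨hs1, hs2⟩ := rowMat_row h'.2
    have hmem : rowMat r ∈ Gamma0 M := mem_of_dvd (by rw [hr1]; exact h.1)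
    have e1 : (-rowMat r) 1 0 = rowMat (-r) 1 0 := by
      rw [hs1]
      change -(rowMat r 1 0) = _
      rw [hr1, Prod.fst_neg]
    have e2 : (-rowMat r) 1 1 = rowMat (-r) 1 1 := by
      rw [hs2]
      change -(rowMat r 1 1) = _
      rw [hr2, Prod.snd_neg]
    obtain ⟨n, hn⟩ := same_row e1 e2
    have hneg : (-rowMat r) = (-1 : SL(2, ℤ)) * rowMat r := by simp
    have hmem' : (-rowMat r) ∈ Gamma0 M := by
      rw [hneg]; exact mul_mem (neg_one_mem M) hmem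
    have hpt : ∀ n : ℤ, (ModularGroup.T ^ n * -rowMat r) • z = ModularGroup.T ^ n • (rowMat r • z) := by
      intro n
      rw [mul_smul, ModularGroup.SL_neg_smul]
    have hJ' : J (ModularGroup.T ^ n * -rowMat r) z = J (rowMat r) z := by
      rw [hJ.cocycle _ (T_zpow_mem M n) _ hmem', hJ.T_eq, one_mul, hneg,
        hJ.cocycle _ (neg_one_mem M) _ hmem, hJ.neg_eq, one_mul]
    have him : (rowMat (-r) • z).im = (rowMat r • z).im := by
      rw [hn, hpt, ModularGroup.im_T_zpow_smul]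
    unfold rowG
    rw [him, hn, hpt, hE, hJ']
    congr 1
    simp only [h, h', true_and]
  · have h' : ¬ ((M : ℤ) ∣ (-r).1 ∧ IsCoprime (-r).1 (-r).2) := by
      rintro ⟨a, b⟩
      apply h
      refine ⟨?_, ?_⟩
      · rw [Prod.fst_neg, dvd_neg] at a; exact a
      · rw [Prod.fst_neg, Prod.snd_neg] at b
        exact (IsCoprime.neg_neg_iff _ _).1 b
    unfold rowG
    rw [if_neg, if_neg]
    · rintro ⟨a, b, -, -⟩; exact h ⟨a, b⟩
    · rintro ⟨a, b, -, -⟩; exact h' ⟨a, b⟩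

/-- the integral of one row along a horizontal line. -/
def rowI (M : ℕ) (Y : ℝ) (m : ℕ) (J : SL(2, ℤ) → ℍ → ℂ) (y : ℝ) (r : ℤ × ℤ) : ℂ :=
  ∫ x in Set.Ico (0 : ℝ) 1, rowG M Y (eFun m) J (pt x y) r * conj (eFun m (pt x y))

lemma rowI_neg {M : ℕ} {Y : ℝ} {J : SL(2, ℤ) → ℍ → ℂ} (hJ : IsMultT M J) (m : ℕ) (y : ℝ)
    (r : ℤ × ℤ) : rowI M Y m J y (-r) = rowI M Y m J y r := by
  unfold rowI
  simp_rw [rowG_neg hJ (fun n z ↦ eFun_T m n z)]

lemma measurable_pt' {y : ℝ} : Measurable fun x : ℝ ↦ pt x y :=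
  measurable_pt.comp (measurable_id.prodMk measurable_const)

lemma integrableOn_row {M : ℕ} {Y : ℝ} (hY : 0 < Y) {J : SL(2, ℤ) → ℍ → ℂ} (hJ : IsMult M J)
    (m : ℕ) {y : ℝ} (hy : 1 / Y ≤ y) (r : ℤ × ℤ) :
    IntegrableOn (fun x ↦ rowG M Y (eFun m) J (pt x y) r * conj (eFun m (pt x y)))
      (Set.Ico (0 : ℝ) 1) := by
  have hy0 : 0 < y := lt_of_lt_of_le (by positivity) hy
  refine Measure.integrableOn_of_bounded (M := 2) (by simp) ?_ ?_
  · exact (((measurable_rowG hJ (measurable_eFun m) r).comp measurable_pt').mul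
      (Complex.continuous_conj.measurable.comp
        ((measurable_eFun m).comp measurable_pt'))).aestronglyMeasurable
  · refine Filter.Eventually.of_forall fun x ↦ ?_
    rw [norm_mul, Complex.norm_conj]
    have h1 := rowG_norm hY hJ (norm_eFun_le m) (z := pt x y) (by rw [im_pt hy0]; exact hy) r
    have h2 := norm_eFun_le m (pt x y)
    calc _ ≤ 2 * 1 := mul_le_mul h1 h2 (norm_nonneg _) (by norm_num)
      _ = 2 := by norm_num

lemma line_eq_sum {M : ℕ} [NeZero M] {Y : ℝ} (hY : 0 < Y) {J : SL(2, ℤ) → ℍ → ℂ}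
    (hJ : IsMultT M J) (m : ℕ) {y : ℝ} (hy : y ∈ Set.Ico (1 / Y) (2 / Y)) :
    ∫ x in Set.Ico (0 : ℝ) 1, pSum M Y (eFun m) J (pt x y) * conj (eFun m (pt x y)) =
      ∑ r ∈ rowBox Y, rowI M Y m J y r := by
  have hy0 : 0 < y := lt_of_lt_of_le (by positivity) hy.1
  unfold rowI
  rw [← integral_finsetSum _ fun r _ ↦ integrableOn_row hY hJ.toIsMult m hy.1 r]
  refine setIntegral_congr_fun measurableSet_Ico ?_
  intro x hx
  simp only
  have hz : pt x y ∈ hstrip Y := (hstrip_pt_iff hy0).2 ⟨hx, hy⟩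
  rw [pSum_strip hY hJ (fun n z ↦ eFun_T m n z) hz, Finset.sum_mul]

lemma norm_rowI_le {M : ℕ} {Y : ℝ} (hY : 0 < Y) {J : SL(2, ℤ) → ℍ → ℂ} (hJ : IsMult M J)
    (m : ℕ) {y : ℝ} (hy : 1 / Y ≤ y) (r : ℤ × ℤ) : ‖rowI M Y m J y r‖ ≤ 2 := by
  have hy0 : 0 < y := lt_of_lt_of_le (by positivity) hy
  unfold rowI
  have h := norm_setIntegral_le_of_norm_le_const (μ := volume) (s := Set.Ico (0 : ℝ) 1)
    (f := fun x ↦ rowG M Y (eFun m) J (pt x y) r * conj (eFun m (pt x y))) (C := 2) (by simp) ?_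
  · refine h.trans (le_of_eq ?_)
    rw [Measure.real, Real.volume_Ico]; simp
  · intro x _
    rw [norm_mul, Complex.norm_conj]
    have h1 := rowG_norm hY hJ (norm_eFun_le m) (z := pt x y) (by rw [im_pt hy0]; exact hy) r
    have h2 := norm_eFun_le m (pt x y)
    calc _ ≤ 2 * 1 := mul_le_mul h1 h2 (norm_nonneg _) (by norm_num)
      _ = 2 := by norm_num

/-- the Kloosterman sum. -/
def kSum (m : ℕ) (s : ℤ → ℤ → ℂ) (c : ℕ) [NeZero c] : ℂ := ∑ j ∈ Finset.range c, kap m s c j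

lemma kap_period {m : ℕ} {s : ℤ → ℤ → ℂ} {c : ℕ} [NeZero c]
    (hsp : ∀ d : ℤ, IsCoprime (c : ℤ) d → s c (d + c) = s c d) (d : ℤ) :
    kap m s c (d + c) = kap m s c d := by
  classical
  unfold kap
  have h1 : IsCoprime (c : ℤ) (d + c) ↔ IsCoprime (c : ℤ) d := by
    have := IsCoprime.add_mul_left_right_iff (x := (c : ℤ)) (y := d) (z := 1)
    rwa [mul_one] at this
  by_cases h : IsCoprime (c : ℤ) d
  · rw [if_pos h, if_pos (h1.2 h), hsp d h]
    congr 2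
    push_cast
    rw [ZMod.natCast_self, add_zero]
  · rw [if_neg h, if_neg (fun h' ↦ h (h1.1 h'))]

lemma row_pos {M : ℕ} [NeZero M] {Y : ℝ} (hY : 0 < Y) {J : SL(2, ℤ) → ℍ → ℂ} {s : ℤ → ℤ → ℂ}
    (hs : ∀ k ∈ Gamma0 M, ∀ z, J k z = s (k 1 0) (k 1 1) * (lowerForm k z ^ (1 / 2 : ℂ)) ^ 3)
    (m : ℕ) {y : ℝ} (hy : y ∈ Set.Ico (1 / Y) (2 / Y)) {c : ℕ} [NeZero c] (hMc : M ∣ c)
    (hsp : ∀ d : ℤ, IsCoprime (c : ℤ) d → s c (d + c) = s c d) :
    ‖∑ d ∈ Finset.Icc (-(⌊Real.sqrt 2 * Y⌋₊ + 2 : ℤ)) (⌊Real.sqrt 2 * Y⌋₊ + 2),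
      rowI M Y m J y (c, d)‖ ≤ ‖kSum m s c‖ * (6 / c) := by
  have hy0 : 0 < y := lt_of_lt_of_le (by positivity) hy.1
  have hI : ∀ d : ℤ, rowI M Y m J y (c, d) =
      kap m s c d * ∫ x in (0 : ℝ)..1, psiT m c Y y (x + d / c) := by
    intro d
    unfold rowI
    simp_rw [rowG_eq hs m hMc d hy0]
    rw [intervalIntegral.integral_of_le (by norm_num), ← integral_Ico_eq_integral_Ioc,
      integral_const_mul]
  have h1 := hasSum_shifts (integrable_psiT (m := m) (c := c) hY hy) c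
    (κ := kap m s c) (kap_period hsp)
  simp_rw [← hI] at h1
  have h2 : HasSum (fun d : ℤ ↦ rowI M Y m J y (c, d))
      (∑ d ∈ Finset.Icc (-(⌊Real.sqrt 2 * Y⌋₊ + 2 : ℤ)) (⌊Real.sqrt 2 * Y⌋₊ + 2),
        rowI M Y m J y (c, d)) := by
    apply hasSum_sum_of_ne_finset_zero
    intro d hd
    unfold rowI
    apply integral_eq_zero_of_ae
    refine (ae_restrict_iff' measurableSet_Ico).2 (Filter.Eventually.of_forall fun x hx ↦ ?_)
    have hz : pt x y ∈ hstrip Y := (hstrip_pt_iff hy0).2 ⟨hx, hy⟩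
    have : rowG M Y (eFun m) J (pt x y) (c, d) = 0 := by
      by_contra hne
      have h3 := rowG_support hY hz hne
      unfold rowBox at h3
      rw [Finset.mem_product] at h3
      exact hd h3.2
    simp only
    rw [this]; simp
  rw [h2.unique h1, norm_mul]
  exact mul_le_mul_of_nonneg_left (norm_integral_psiT_le hY hy) (norm_nonneg _)

lemma sum_Icc_even {g : ℤ → ℝ} (hg : ∀ n, g (-n) = g n) (n : ℕ) :
    ∑ c ∈ Finset.Icc (-(n : ℤ)) n, g c = g 0 + 2 * ∑ c ∈ Finset.Icc 1 n, g c := by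
  induction n with
  | zero => simp
  | succ n ih =>
    have h1 : Finset.Icc (-((n + 1 : ℕ) : ℤ)) ((n + 1 : ℕ) : ℤ) =
        insert (-((n + 1 : ℕ) : ℤ)) (insert (((n + 1 : ℕ) : ℤ)) (Finset.Icc (-(n : ℤ)) n)) := by
      ext x
      simp only [Finset.mem_insert, Finset.mem_Icc]
      push_cast
      omega
    rw [h1, Finset.sum_insert, Finset.sum_insert, ih, hg, Finset.sum_Icc_succ_top (by omega)]
    · ring
    · simp
    · simp only [Finset.mem_insert, Finset.mem_Icc]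
      push_cast
      omega

/-- the Kloosterman sum, without side condition. -/
def kTot (m : ℕ) (s : ℤ → ℤ → ℂ) (c : ℕ) : ℂ :=
  if h : c = 0 then 0 else haveI : NeZero c := ⟨h⟩; kSum m s c

lemma kTot_eq (m : ℕ) (s : ℤ → ℤ → ℂ) (c : ℕ) [NeZero c] : kTot m s c = kSum m s c := by
  unfold kTot
  rw [dif_neg (NeZero.ne c)]

theorem line_bound {M : ℕ} [NeZero M] {Y : ℝ} (hY : 0 < Y) {J : SL(2, ℤ) → ℍ → ℂ}
    (hJ : IsMultT M J) {s : ℤ → ℤ → ℂ}
    (hs : ∀ k ∈ Gamma0 M, ∀ z, J k z = s (k 1 0) (k 1 1) * (lowerForm k z ^ (1 / 2 : ℂ)) ^ 3)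
    (hsp : ∀ c : ℕ, M ∣ c → ∀ d : ℤ, IsCoprime (c : ℤ) d → s c (d + c) = s c d)
    (m : ℕ) {y : ℝ} (hy : y ∈ Set.Ico (1 / Y) (2 / Y)) :
    ‖∫ x in Set.Ico (0 : ℝ) 1, pSum M Y (eFun m) J (pt x y) * conj (eFun m (pt x y))‖ ≤
      4 + 12 * ∑ c ∈ (Finset.Icc 1 ⌊Real.sqrt 2 * Y⌋₊).filter (M ∣ ·), ‖kTot m s c‖ / c := by
  classical
  rw [line_eq_sum hY hJ m hy]
  unfold rowBox
  rw [Finset.sum_product]
  set D := Finset.Icc (-(⌊Real.sqrt 2 * Y⌋₊ + 2 : ℤ)) (⌊Real.sqrt 2 * Y⌋₊ + 2) with hD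
  set g : ℤ → ℝ := fun c ↦ ‖∑ d ∈ D, rowI M Y m J y (c, d)‖ with hg
  have hgeven : ∀ c, g (-c) = g c := by
    intro c
    rw [hg]
    simp only
    congr 1
    refine Finset.sum_bij' (fun d _ ↦ -d) (fun d _ ↦ -d) ?_ ?_ ?_ ?_ ?_
    · intro d hd
      rw [hD, Finset.mem_Icc] at hd ⊢
      constructor <;> linarith [hd.1, hd.2]
    · intro d hd
      rw [hD, Finset.mem_Icc] at hd ⊢
      constructor <;> linarith [hd.1, hd.2]
    · intro d _; simp
    · intro d _; simp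
    · intro d _
      rw [← rowI_neg hJ]
      simp
  have hg0 : g 0 ≤ 4 := by
    rw [hg]
    simp only
    have hz : ∀ d : ℤ, d ∉ ({1, -1} : Finset ℤ) → rowI M Y m J y (0, d) = 0 := by
      intro d hd
      have hnc : ¬ IsCoprime (0 : ℤ) d := by
        intro h
        rw [isCoprime_zero_left, Int.isUnit_iff] at h
        apply hd
        simpa using h
      unfold rowI rowG
      simp [hnc]
    calc ‖∑ d ∈ D, rowI M Y m J y (0, d)‖ ≤ ∑ d ∈ D, ‖rowI M Y m J y (0, d)‖ := norm_sum_le _ _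
      _ ≤ ∑ d ∈ D ∪ {1, -1}, ‖rowI M Y m J y (0, d)‖ :=
          Finset.sum_le_sum_of_subset_of_nonneg Finset.subset_union_left
            fun _ _ _ ↦ norm_nonneg _
      _ = ∑ d ∈ ({1, -1} : Finset ℤ), ‖rowI M Y m J y (0, d)‖ := by
          symm
          refine Finset.sum_subset Finset.subset_union_right ?_
          intro d _ hd
          rw [hz d hd, norm_zero]
      _ ≤ ∑ d ∈ ({1, -1} : Finset ℤ), 2 :=
          Finset.sum_le_sum fun d _ ↦ norm_rowI_le hY hJ.toIsMult m hy.1 _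
      _ = 4 := by
          rw [Finset.sum_const, Finset.card_insert_of_notMem (by simp), Finset.card_singleton]
          norm_num
  have hgc : ∀ c ∈ Finset.Icc 1 ⌊Real.sqrt 2 * Y⌋₊, g (c : ℤ) ≤
      if M ∣ c then ‖kTot m s c‖ * (6 / c) else 0 := by
    intro c hc
    rw [Finset.mem_Icc] at hc
    have : NeZero c := ⟨by omega⟩
    split_ifs with hMc
    · rw [kTot_eq]
      exact row_pos hY hs m hy hMc (hsp c hMc)
    · rw [hg]
      simp only
      apply le_of_eq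
      rw [norm_eq_zero]
      apply Finset.sum_eq_zero
      intro d _
      have hnd : ¬ ((M : ℤ) ∣ (c : ℤ)) := by
        intro h; exact hMc (Int.natCast_dvd_natCast.1 h)
      unfold rowI rowG
      simp [hnd]
  calc ‖∑ c ∈ Finset.Icc (-(⌊Real.sqrt 2 * Y⌋₊ : ℤ)) ⌊Real.sqrt 2 * Y⌋₊,
        ∑ d ∈ D, rowI M Y m J y (c, d)‖
      ≤ ∑ c ∈ Finset.Icc (-(⌊Real.sqrt 2 * Y⌋₊ : ℤ)) ⌊Real.sqrt 2 * Y⌋₊, g c := norm_sum_le _ _
    _ = g 0 + 2 * ∑ c ∈ Finset.Icc 1 ⌊Real.sqrt 2 * Y⌋₊, g c := sum_Icc_even hgeven _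
    _ ≤ 4 + 2 * ∑ c ∈ Finset.Icc 1 ⌊Real.sqrt 2 * Y⌋₊,
        (if M ∣ c then ‖kTot m s c‖ * (6 / c) else 0) := by
        gcongr with c hc
        exact hgc c hc
    _ = _ := by
        rw [← Finset.sum_filter, Finset.mul_sum, Finset.mul_sum]
        congr 1
        refine Finset.sum_congr rfl fun c _ ↦ ?_
        ring

end

end Pool.Agent.Work.MP_af11aa_nt.K
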