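import Mathlib
import Pool.Agent.Work.MP_af11aa_nt.K.LineB
import Pool.Agent.Work.MP_af11aa_nt.Index

namespace Pool.Agent.Work.MP_af11aa_nt.K

open Pool.Agent.Work.MP_af11aa_nt
open UpperHalfPlane CongruenceSubgroup MeasureTheory
open Complex hiding Gamma
open scoped MatrixGroups Manifold Topology ComplexConjugate ENNReal NNReal Modular

noncomputable section

/-- the multiplier of the trace sum. -/
def mJ (N q : ℕ) (χ : DirichletCharacter ℂ N) (γ : SL(2, ℤ)) (z : ℍ) : ℂ :=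
  χ ((γ 1 1 : ℤ) : ZMod N) *
      ((epsilon (γ 1 1))⁻¹ * ((shimuraSymbol (q * γ 1 0) (γ 1 1) : ℤ) : ℂ) *
          lowerForm γ z ^ (1 / 2 : ℂ)) ^ 3

/-- its arithmetic part. -/
def mS (N q : ℕ) (χ : DirichletCharacter ℂ N) (c d : ℤ) : ℂ :=
  χ (d : ZMod N) * ((epsilon d)⁻¹ * ((shimuraSymbol (q * c) d : ℤ) : ℂ)) ^ 3

lemma mJ_eq (N q : ℕ) (χ : DirichletCharacter ℂ N) (γ : SL(2, ℤ)) (z : ℍ) :
    mJ N q χ γ z = mS N q χ (γ 1 0) (γ 1 1) * (lowerForm γ z ^ (1 / 2 : ℂ)) ^ 3 := by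
  unfold mJ mS
  rw [mul_pow _ (lowerForm γ z ^ (1 / 2 : ℂ)) 3]
  ring

section

variable {N : ℕ} {χ : DirichletCharacter ℂ N} {f : ℍ → ℂ}

lemma coprime_q {q : ℕ} {γ : SL(2, ℤ)} (hγ : γ ∈ Gamma0 (N * q)) :
    IsCoprime ((q : ℤ) * γ 1 0) (γ 1 1) := by
  rw [Gamma0_mem, ZMod.intCast_zmod_eq_zero_iff_dvd] at hγ
  obtain ⟨k, hk⟩ := hγ
  have h1 : IsCoprime (γ 1 0) (γ 1 1) := gcd_of_mem
  refine IsCoprime.mul_left ?_ h1
  exact h1.of_isCoprime_of_dvd_left ⟨N * k, by rw [hk]; push_cast; ring⟩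

lemma mem_level {q : ℕ} {γ : SL(2, ℤ)} (hγ : γ ∈ Gamma0 (N * q)) : γ ∈ Gamma0 N :=
  Gamma0_mul_le N q hγ

/-- the trace sum transforms under `Γ₀(Nq)`. -/
lemma trSum_transform [NeZero N] (hf : IsCuspForm N χ f) (h4 : 4 ∣ N) {q : ℕ} [NeZero q]
    {γ : SL(2, ℤ)} (hγ : γ ∈ Gamma0 (N * q)) (z : ℍ) :
    trSum f q (γ • z) = mJ N q χ γ z * trSum f q z := by
  rw [Gamma0_mem, ZMod.intCast_zmod_eq_zero_iff_dvd] at hγ
  obtain ⟨k, hk⟩ := hγ
  have hγ0 : γ ∈ Gamma0 N := by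
    rw [Gamma0_mem, ZMod.intCast_zmod_eq_zero_iff_dvd, hk]
    exact ⟨q * k, by push_cast; ring⟩
  have hdet := γ.det_coe
  rw [Matrix.det_fin_two] at hdet
  set A : ℂ := mJ N q χ γ z with hA
  unfold mJ at hA
  have hc : (q : ℤ) * γ 1 0 = q * (q * (N * k)) := by rw [hk]; push_cast; ring
  have h4k : (4 : ℤ) ∣ N * k := Dvd.dvd.mul_right (Int.natCast_dvd_natCast.2 h4) _
  have hcop0 : IsCoprime ((q : ℤ) * γ 1 0) (γ 1 1) := by
    have h1 : IsCoprime (γ 1 0) (γ 1 1) := gcd_of_mem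
    refine IsCoprime.mul_left ?_ h1
    exact h1.of_isCoprime_of_dvd_left ⟨N * k, by rw [hk]; push_cast; ring⟩
  have hterm : ∀ x : ZMod q, f (shiftDiv q (x.val : ℤ) (γ • z)) =
      A * f (shiftDiv q ((((((γ 0 1 : ℤ) : ZMod q) + x * ((γ 1 1 : ℤ) : ZMod q)) *
        ((γ 1 1 : ℤ) : ZMod q) : ZMod q)).val : ℤ) z) := by
    intro x
    set b' : ℤ := (γ 0 1 + (x.val : ℤ) * γ 1 1) * γ 1 1 with hb'
    have hdiv : (q : ℤ) ∣ γ 0 1 + (x.val : ℤ) * γ 1 1 - b' * (γ 0 0 + (x.val : ℤ) * γ 1 0) := by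
      refine ⟨-((γ 0 1 + (x.val : ℤ) * γ 1 1) * (γ 0 1 * (N * k) + γ 1 1 * (x.val : ℤ) * (N * k))), ?_⟩
      rw [hb', hk] at *
      push_cast at hdet ⊢
      linear_combination (-(γ 0 1 + (x.val : ℤ) * γ 1 1)) * hdet
    rw [transform_shift hf q hγ0 hdiv z]
    have hcop1 := coprime_hecke hdiv
    have hS : shimuraSymbol (q * γ 1 0) (γ 1 1 - b' * γ 1 0) =
        shimuraSymbol (q * γ 1 0) (γ 1 1) := by
      rw [hc] at hcop1 hcop0 ⊢
      refine shimura_sq_congr (NeZero.pos q) h4k hcop1 hcop0 ?_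
      refine Int.modEq_iff_dvd.2 ⟨b' * q, ?_⟩
      rw [hk]; push_cast; ring
    have hE : epsilon (γ 1 1 - b' * γ 1 0) = epsilon (γ 1 1) := by
      apply epsilon_congr
      obtain ⟨t, ht⟩ := h4k
      refine Int.modEq_iff_dvd.2 ⟨b' * q * t, ?_⟩
      rw [hk]; push_cast
      linear_combination (b' * q) * ht
    rw [hS, hE, ← hA]
    congr 1
    apply shift_congr hf
    rw [hb']
    push_cast
    rw [ZMod.natCast_zmod_val, ZMod.natCast_zmod_val]
  unfold trSum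
  rw [Finset.mul_sum]
  -- affine bijection
  have hu : ((γ 1 1 : ℤ) : ZMod q) * ((γ 0 0 : ℤ) : ZMod q) = 1 := by
    have h1 : ((γ 0 0 * γ 1 1 - γ 0 1 * γ 1 0 : ℤ) : ZMod q) = 1 := by rw [hdet]; simp
    rw [hk] at h1
    push_cast at h1
    rw [ZMod.natCast_self] at h1
    linear_combination h1
  refine Finset.sum_bij' (fun x _ ↦ ((((γ 0 1 : ℤ) : ZMod q) + x * ((γ 1 1 : ℤ) : ZMod q)) *
      ((γ 1 1 : ℤ) : ZMod q) : ZMod q))
    (fun y _ ↦ (y * ((γ 0 0 : ℤ) : ZMod q) - ((γ 0 1 : ℤ) : ZMod q)) * ((γ 0 0 : ℤ) : ZMod q))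
    (fun _ _ ↦ Finset.mem_univ _) (fun _ _ ↦ Finset.mem_univ _) ?_ ?_ ?_
  · intro x _
    linear_combination ((((γ 0 1 : ℤ) : ZMod q)) * ((γ 0 0 : ℤ) : ZMod q) +
      x * ((γ 1 1 : ℤ) : ZMod q) * ((γ 0 0 : ℤ) : ZMod q) + x) * hu
  · intro y _
    linear_combination (y * (((γ 1 1 : ℤ) : ZMod q) * ((γ 0 0 : ℤ) : ZMod q) + 1) -
      ((γ 0 1 : ℤ) : ZMod q) * ((γ 1 1 : ℤ) : ZMod q)) * hu
  · intro x _
    exact hterm x

lemma mJ_norm [NeZero N] {q : ℕ} {γ : SL(2, ℤ)} (hγ : γ ∈ Gamma0 (N * q)) (z : ℍ) :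
    ‖mJ N q χ γ z‖ = ‖lowerForm γ z‖ ^ (3 / 2 : ℝ) := by
  unfold mJ
  rw [norm_mul, norm_char χ (mem_level hγ), one_mul, norm_pow, norm_mul, norm_mul, norm_inv,
    norm_epsilon, norm_shimura (coprime_q hγ), norm_cpow_half]
  rw [inv_one, one_mul, one_mul, ← Real.rpow_natCast, ← Real.rpow_mul (norm_nonneg _)]
  norm_num

lemma continuous_mJ {q : ℕ} (γ : SL(2, ℤ)) : Continuous (mJ N q χ γ) := by
  unfold mJ
  have h1 : Continuous fun z : ℍ ↦ lowerForm γ z ^ (1 / 2 : ℂ) := by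
    by_cases hc : γ 1 0 = 0
    · have : (fun z : ℍ ↦ lowerForm γ z ^ (1 / 2 : ℂ)) = fun _ ↦ ((γ 1 1 : ℤ) : ℂ) ^ (1 / 2 : ℂ) := by
        funext z
        unfold lowerForm
        rw [hc]; simp
      rw [this]; exact continuous_const
    · have h2 : Continuous fun z : ℍ ↦ lowerForm γ z := by
        unfold lowerForm
        have := UpperHalfPlane.continuous_coe
        fun_prop
      refine h2.cpow continuous_const fun z ↦ ?_
      right
      unfold lowerForm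
      have h3 : (((γ 1 0 : ℤ) : ℂ) * (z : ℂ) + ((γ 1 1 : ℤ) : ℂ)).im = γ 1 0 * z.im := by simp
      rw [h3]
      exact mul_ne_zero (by exact_mod_cast hc) z.im_pos.ne'
  exact continuous_const.mul ((continuous_const.mul h1).pow 3)

lemma holo_trSum (hf : IsCuspForm N χ f) (q : ℕ) [NeZero q] :
    DifferentiableOn ℂ (trSum f q ∘ ofComplex) {w | 0 < w.im} := by
  have h1 : ∀ b : ℕ, DifferentiableOn ℂ ((fun z ↦ f (shiftDiv q (b : ℤ) z)) ∘ ofComplex)
      {w | 0 < w.im} := by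
    intro b
    have h2 : DifferentiableOn ℂ (f ∘ ofComplex) {w | 0 < w.im} :=
      UpperHalfPlane.mdifferentiable_iff.1 hf.holo
    have h3 : DifferentiableOn ℂ (fun w : ℂ ↦ (w + b) / q) {w | 0 < w.im} := by fun_prop
    have hq : (0 : ℝ) < q := Nat.cast_pos.2 (NeZero.pos q)
    have h4 : Set.MapsTo (fun w : ℂ ↦ (w + b) / q) {w | 0 < w.im} {w | 0 < w.im} := by
      intro w hw
      change 0 < ((w + b) / q).im
      rw [← Complex.ofReal_natCast, ← Complex.ofReal_natCast, Complex.div_ofReal_im]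
      have : 0 < w.im := hw
      simp only [Complex.add_im, Complex.ofReal_im, add_zero]
      positivity
    refine (h2.comp h3 h4).congr ?_
    intro w hw
    simp only [Function.comp_apply]
    congr 1
    ext1
    rw [coe_shiftDiv, ofComplex_apply_of_im_pos hw, ofComplex_apply_of_im_pos (h4 hw)]
    simp
  have h5 : (trSum f q ∘ ofComplex) = fun w ↦ ∑ x : ZMod q,
      ((fun z ↦ f (shiftDiv q ((x.val : ℕ) : ℤ) z)) ∘ ofComplex) w := rfl
  rw [h5]
  exact DifferentiableOn.fun_sum fun x _ ↦ h1 x.val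

lemma dense_trSum (hf : IsCuspForm N χ f) (q : ℕ) [NeZero q] (hne : ∃ z, trSum f q z ≠ 0) :
    Dense {z : ℍ | trSum f q z ≠ 0} := by
  have hopen : IsOpen {w : ℂ | 0 < w.im} := isOpen_lt continuous_const Complex.continuous_im
  have han : AnalyticOnNhd ℂ (trSum f q ∘ ofComplex) {w | 0 < w.im} :=
    (holo_trSum hf q).analyticOnNhd hopen
  have hconn : IsPreconnected {w : ℂ | 0 < w.im} := by
    have : Convex ℝ {w : ℂ | 0 < w.im} := convex_halfSpace_im_gt 0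
    exact this.isPreconnected
  rw [dense_iff_inter_open]
  intro U hU ⟨z0, hz0⟩
  by_contra hcon
  have hzero : ∀ z ∈ U, trSum f q z = 0 := by
    intro z hz
    by_contra h
    exact hcon ⟨z, hz, h⟩
  have hev : (trSum f q ∘ ofComplex) =ᶠ[𝓝 (z0 : ℂ)] 0 := by
    have h1 : ∀ᶠ w in 𝓝 (z0 : ℂ), ofComplex w ∈ U := by
      have hcont : ContinuousAt (fun w ↦ ofComplex w) (z0 : ℂ) :=
        (UpperHalfPlane.contMDiffAt_ofComplex (n := ⊤) z0.im_pos).continuousAt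
      apply hcont
      have e : (fun w : ℂ ↦ (ofComplex w : ℍ)) (z0 : ℂ) = z0 := ofComplex_apply z0
      rw [e]
      exact hU.mem_nhds hz0
    filter_upwards [h1] with w hw
    exact hzero _ hw
  have h2 := han.eqOn_zero_of_preconnected_of_eventuallyEq_zero hconn z0.im_pos hev
  obtain ⟨z, hz⟩ := hne
  apply hz
  have h3 := h2 z.im_pos
  simpa using h3

lemma mJ_isMult [NeZero N] (hf : IsCuspForm N χ f) (h4 : 4 ∣ N) {q : ℕ} [NeZero q]
    (hne : ∃ z, trSum f q z ≠ 0) : IsMultT (N * q) (mJ N q χ) := by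
  have hd := dense_trSum hf q hne
  refine ⟨⟨?_, ?_, ?_⟩, ?_, ?_⟩
  · intro k₁ hk₁ k₂ hk₂ z
    have hF : Continuous fun z ↦ mJ N q χ (k₁ * k₂) z := continuous_mJ _
    have hG : Continuous fun z ↦ mJ N q χ k₁ (k₂ • z) * mJ N q χ k₂ z := by
      have hs : Continuous fun z : ℍ ↦ k₂ • z :=
        continuous_const_smul ((k₂ : SL(2, ℤ)) : GL (Fin 2) ℝ)
      exact ((continuous_mJ k₁).comp hs).mul (continuous_mJ k₂)
    have h := hF.ext_on hd hG (fun w hw ↦ ?_)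
    · exact congrFun h z
    · have hw' : trSum f q w ≠ 0 := hw
      have e1 := trSum_transform hf h4 (mul_mem hk₁ hk₂) w
      rw [mul_smul, trSum_transform hf h4 hk₁, trSum_transform hf h4 hk₂, ← mul_assoc] at e1
      exact (mul_right_cancel₀ hw' e1).symm
  · intro k hk z
    exact mJ_norm hk z
  · intro k _
    exact (continuous_mJ k).measurable
  · intro n z
    unfold mJ
    rw [T10, T11, mul_zero, shimura_one_right]
    have : lowerForm (ModularGroup.T ^ n) z = 1 := by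
      unfold lowerForm; rw [T10, T11]; simp
    rw [this]
    unfold epsilon
    simp
  · intro z
    obtain ⟨w, hw⟩ := hne
    have e1 := trSum_transform hf h4 (neg_one_mem (N * q)) w
    rw [ModularGroup.SL_neg_smul, one_smul] at e1
    have e2 : mJ N q χ (-1) w = 1 := by
      have h3 : (1 - mJ N q χ (-1) w) * trSum f q w = 0 := by linear_combination e1
      rcases mul_eq_zero.1 h3 with h | h
      · linear_combination -h
      · exact absurd h hw
    rw [← e2]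
    unfold mJ
    have hl : ∀ z : ℍ, lowerForm (-1) z = -1 := by
      intro z
      unfold lowerForm
      simp
    rw [hl, hl]

lemma mS_period {q : ℕ} [NeZero q] (h4 : 4 ∣ N) (c : ℕ) (hc : N * q ∣ c) (d : ℤ)
    (hcop : IsCoprime (c : ℤ) d) : mS N q χ c (d + c) = mS N q χ c d := by
  obtain ⟨k, hk⟩ := hc
  have hc' : (q : ℤ) * (c : ℤ) = q * (q * (N * k)) := by rw [hk]; push_cast; ring
  have h4k : (4 : ℤ) ∣ (N : ℤ) * k := Dvd.dvd.mul_right (Int.natCast_dvd_natCast.2 h4) _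
  have hqc : (q : ℤ) ∣ c := ⟨N * k, by rw [hk]; push_cast; ring⟩
  have hcop1 : IsCoprime ((q : ℤ) * c) d := IsCoprime.mul_left (hcop.of_isCoprime_of_dvd_left hqc) hcop
  have hcop2' : IsCoprime (c : ℤ) (d + c) := by
    have := IsCoprime.add_mul_left_right_iff (x := (c : ℤ)) (y := d) (z := 1)
    rw [mul_one] at this
    exact this.2 hcop
  have hcop2 : IsCoprime ((q : ℤ) * c) (d + c) :=
    IsCoprime.mul_left (hcop2'.of_isCoprime_of_dvd_left hqc) hcop2'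
  unfold mS
  have e1 : ((d + c : ℤ) : ZMod N) = (d : ZMod N) := by
    push_cast
    have : ((c : ℕ) : ZMod N) = 0 := by
      rw [ZMod.natCast_eq_zero_iff, hk, mul_assoc]; exact dvd_mul_right _ _
    rw [this, add_zero]
  have e2 : epsilon (d + c) = epsilon d := by
    apply epsilon_congr
    obtain ⟨t, ht⟩ := h4k
    refine Int.modEq_iff_dvd.2 ⟨-(q * t), ?_⟩
    rw [hk]; push_cast
    linear_combination (-(q : ℤ)) * ht
  have e3 : shimuraSymbol (q * c) (d + c) = shimuraSymbol (q * c) d := by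
    rw [hc'] at hcop1 hcop2 ⊢
    refine shimura_sq_congr (NeZero.pos q) h4k hcop2 hcop1 ?_
    refine Int.modEq_iff_dvd.2 ⟨-q, ?_⟩
    rw [hk]; push_cast; ring
  rw [e1, e2, e3]

end

end

end Pool.Agent.Work.MP_af11aa_nt.K
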