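import Mathlib
import Pool.Agent.Work.MP_af11aa_nt.K.Mult
import Pool.Agent.Work.MP_af11aa_nt.LargeSieve

namespace Pool.Agent.Work.MP_af11aa_nt.K

open Pool.Agent.Work.MP_af11aa_nt
open UpperHalfPlane CongruenceSubgroup MeasureTheory
open Complex hiding Gamma
open scoped MatrixGroups Manifold Topology ComplexConjugate ENNReal NNReal Modular

noncomputable section

section

attribute [local instance] Subgroup.fintypeQuotientOfFiniteIndex

variable {N : ℕ} {χ : DirichletCharacter ℂ N} {f : ℍ → ℂ}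

lemma iInt_le [NeZero N] (hf : IsCuspForm N χ f) (h4 : 4 ∣ N) {q : ℕ} [NeZero q]
    (hsq : Squarefree q) (hcop : Nat.Coprime q N) :
    iInt f N q ≤ ENNReal.ofReal ((q : ℝ) ^ (5 / 2 : ℝ) * (ArithmeticFunction.sigma 1 q : ℕ) *
      petNorm N f) := by
  have hidx0 : ((Gamma0 N).index : ℝ≥0∞) ≠ 0 := by
    have : (Gamma0 N).index ≠ 0 := (inferInstance : (Gamma0 N).FiniteIndex).index_ne_zero
    exact_mod_cast this
  have hidxt : ((Gamma0 N).index : ℝ≥0∞) ≠ ⊤ := ENNReal.natCast_ne_top _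
  have h3 : iInt f N q ≤ ENNReal.ofReal ((q : ℝ) ^ (5 / 2 : ℝ)) *
      (ArithmeticFunction.sigma 1 q : ℕ) * iBase f N := by
    have e := iInt_eq hf h4 hsq hcop
    have hle : ((Gamma0 (N * q)).index : ℝ≥0∞) ≤
        ((Gamma0 N).index : ℝ≥0∞) * (ArithmeticFunction.sigma 1 q : ℕ) := by
      have := index_Gamma0_mul_squarefree_le N (NeZero.pos N) q hsq
      exact_mod_cast this
    have h5 : ((Gamma0 N).index : ℝ≥0∞) * iInt f N q ≤ ((Gamma0 N).index : ℝ≥0∞) *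
        (ENNReal.ofReal ((q : ℝ) ^ (5 / 2 : ℝ)) *
          (ArithmeticFunction.sigma 1 q : ℕ) * iBase f N) := by
      rw [e]
      calc ENNReal.ofReal ((q : ℝ) ^ (5 / 2 : ℝ)) * ((Gamma0 (N * q)).index : ℝ≥0∞) * iBase f N
          ≤ ENNReal.ofReal ((q : ℝ) ^ (5 / 2 : ℝ)) *
            (((Gamma0 N).index : ℝ≥0∞) * (ArithmeticFunction.sigma 1 q : ℕ)) * iBase f N := by
            gcongr
        _ = _ := by ring
    exact (ENNReal.mul_le_mul_iff_right hidx0 hidxt).1 h5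
  have h4' := iBase_le_petNorm hf
  have hA : (0 : ℝ) ≤ (q : ℝ) ^ (5 / 2 : ℝ) := by positivity
  have hAs : (0 : ℝ) ≤ (q : ℝ) ^ (5 / 2 : ℝ) * (ArithmeticFunction.sigma 1 q : ℕ) := by positivity
  rw [ENNReal.ofReal_mul hAs, ENNReal.ofReal_mul hA, ENNReal.ofReal_natCast]
  exact h3.trans (mul_le_mul' le_rfl h4')

lemma trSum_bound [NeZero N] (hf : IsCuspForm N χ f) (q : ℕ) [NeZero q] {Y : ℝ} (hY : 0 < Y) :
    ∃ C : ℝ, ∀ z ∈ hstrip Y, ‖trSum f q z‖ ≤ C := by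
  obtain ⟨B, hB⟩ := exists_sup_bound hf
  have hq : (0 : ℝ) < q := Nat.cast_pos.2 (NeZero.pos q)
  refine ⟨∑ _x : ZMod q, Real.sqrt (B / (1 / Y / q) ^ (3 / 2 : ℝ)), fun z hz ↦ ?_⟩
  unfold trSum
  refine (norm_sum_le _ _).trans (Finset.sum_le_sum fun x _ ↦ ?_)
  set w := shiftDiv q (x.val : ℤ) z with hw
  have him : 1 / Y / q ≤ w.im := by
    rw [hw, im_shiftDiv]
    have := hz.2.2.1
    gcongr
  have h1 := hB w
  have h0 : 0 < 1 / Y / q := by positivity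
  apply Real.le_sqrt_of_sq_le
  rw [le_div_iff₀ (by positivity)]
  calc ‖f w‖ ^ 2 * (1 / Y / q) ^ (3 / 2 : ℝ) ≤ ‖f w‖ ^ 2 * w.im ^ (3 / 2 : ℝ) := by
        gcongr
    _ ≤ B := by rw [mul_comm]; exact h1

lemma conj_eFun_pt (m : ℕ) {y : ℝ} (hy : 0 < y) (x : ℝ) :
    conj (eFun m (pt x y)) = eChar (-m) x * (Real.exp (-(2 * Real.pi * m * y)) : ℂ) := by
  unfold eFun eChar
  rw [coe_pt hy, ← Complex.exp_conj]
  push_cast
  rw [← Complex.exp_add]
  congr 1
  simp only [map_mul, map_add, Complex.conj_I, Complex.conj_ofReal, map_natCast, map_ofNat]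
  have := Complex.I_mul_I
  linear_combination (2 * Real.pi * m * y) * this

lemma aInt_eq [NeZero N] (hf : IsCuspForm N χ f) (q : ℕ) [NeZero q] {m : ℕ} {Y : ℝ} (hY : 0 < Y) :
    ∫ z, stripF Y (trSum f q) (eFun m) z = (q : ℂ) * fourierCoeff f (q * m) *
      ((∫ y in Set.Ico (1 / Y) (2 / Y),
        Real.exp (-(4 * Real.pi * m * y)) * y ^ (-(1 / 2) : ℝ) : ℝ) : ℂ) := by
  obtain ⟨C, hC⟩ := trSum_bound hf q hY
  have hb : ∀ z ∈ hstrip Y, ‖trSum f q z * conj (eFun m z)‖ ≤ C := by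
    intro z hz
    rw [norm_mul, Complex.norm_conj]
    have h1 := hC z hz
    have h2 := norm_eFun_le m z
    calc ‖trSum f q z‖ * ‖eFun m z‖ ≤ C * 1 :=
          mul_le_mul h1 h2 (norm_nonneg _) (le_trans (norm_nonneg _) h1)
      _ = C := mul_one _
  rw [integral_stripF hY (continuous_trSum hf q).measurable (measurable_eFun m) hb,
    ← integral_complex_ofReal, ← integral_const_mul]
  refine setIntegral_congr_fun measurableSet_Ico ?_
  intro y hy
  simp only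
  have hy0 : 0 < y := lt_of_lt_of_le (by positivity) hy.1
  simp_rw [conj_eFun_pt m hy0]
  have e1 : ∀ x : ℝ, trSum f q (pt x y) * (eChar (-m) x * (Real.exp (-(2 * Real.pi * m * y)) : ℂ)) *
      ((y ^ (-(1 / 2) : ℝ) : ℝ) : ℂ) = (trSum f q (pt x y) * eChar (-m) x) *
      ((Real.exp (-(2 * Real.pi * m * y)) * y ^ (-(1 / 2) : ℝ) : ℝ) : ℂ) := by
    intro x; push_cast; ring
  simp_rw [e1]
  rw [integral_mul_const, integral_Ico_eq_integral_Ioc,
    ← intervalIntegral.integral_of_le (by norm_num), trSum_coeff hf q m hy0]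
  have e2 : Real.exp (-(4 * Real.pi * m * y)) =
      Real.exp (-(2 * Real.pi * m * y)) * Real.exp (-(2 * Real.pi * m * y)) := by
    rw [← Real.exp_add]; congr 1; ring
  rw [e2]
  push_cast
  ring

lemma weight_lower {m : ℕ} (hm : 0 < m) :
    Real.exp (-(8 * Real.pi)) / Real.sqrt (2 * m) ≤
      ∫ y in Set.Ico (1 / (m : ℝ)) (2 / m),
        Real.exp (-(4 * Real.pi * m * y)) * y ^ (-(1 / 2) : ℝ) := by
  have hm0 : (0 : ℝ) < m := by exact_mod_cast hm
  have hpos : 0 < 1 / (m : ℝ) := by positivity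
  have hcont : ContinuousOn (fun y : ℝ ↦ Real.exp (-(4 * Real.pi * m * y)) * y ^ (-(1 / 2) : ℝ))
      (Set.Icc (1 / (m : ℝ)) (2 / m)) := by
    refine ContinuousOn.mul (by fun_prop) ?_
    exact ContinuousOn.rpow_const continuousOn_id fun y hy ↦ Or.inl (by
      have := hy.1
      exact (lt_of_lt_of_le hpos this).ne')
  have hint : IntegrableOn (fun y : ℝ ↦ Real.exp (-(4 * Real.pi * m * y)) * y ^ (-(1 / 2) : ℝ))
      (Set.Ico (1 / (m : ℝ)) (2 / m)) :=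
    (hcont.integrableOn_Icc).mono_set Set.Ico_subset_Icc_self
  have hconst : ∫ _y in Set.Ico (1 / (m : ℝ)) (2 / m),
      Real.exp (-(8 * Real.pi)) * (2 / m : ℝ) ^ (-(1 / 2) : ℝ) =
      Real.exp (-(8 * Real.pi)) / Real.sqrt (2 * m) := by
    rw [setIntegral_const, Measure.real, Real.volume_Ico, ENNReal.toReal_ofReal (by
      rw [div_sub_div_same]; positivity)]
    have e : (2 / m : ℝ) ^ (-(1 / 2) : ℝ) = Real.sqrt (m / 2) := by
      rw [Real.rpow_neg (by positivity), ← Real.sqrt_eq_rpow, ← Real.sqrt_inv, inv_div]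
    rw [e, smul_eq_mul]
    have h1 : (2 / (m : ℝ) - 1 / m) = 1 / m := by ring
    rw [h1]
    have h2 : Real.sqrt (m / 2) / m = 1 / Real.sqrt (2 * m) := by
      rw [div_eq_div_iff hm0.ne' (by positivity), ← Real.sqrt_mul (by positivity), one_mul]
      rw [show (m : ℝ) / 2 * (2 * m) = m ^ 2 by ring, Real.sqrt_sq hm0.le]
    calc 1 / (m : ℝ) * (Real.exp (-(8 * Real.pi)) * Real.sqrt (m / 2))
        = Real.exp (-(8 * Real.pi)) * (Real.sqrt (m / 2) / m) := by ring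
      _ = _ := by rw [h2]; ring
  rw [← hconst]
  refine setIntegral_mono_on (integrableOn_const (by simp)) hint measurableSet_Ico ?_
  intro y hy
  have hy0 : 0 < y := lt_of_lt_of_le hpos hy.1
  have hy2 : y ≤ 2 / m := hy.2.le
  have h1 : Real.exp (-(8 * Real.pi)) ≤ Real.exp (-(4 * Real.pi * m * y)) := by
    apply Real.exp_le_exp.2
    rw [le_div_iff₀ hm0] at hy2
    have := Real.pi_pos
    nlinarith
  have h2 : (2 / m : ℝ) ^ (-(1 / 2) : ℝ) ≤ y ^ (-(1 / 2) : ℝ) :=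
    Real.rpow_le_rpow_of_nonpos hy0 hy2 (by norm_num)
  gcongr

lemma alg0 {r m : ℝ} (hr : r ≠ 0) (hm : m ≠ 0) (h : r * r = m) (S : ℝ) :
    S * r * (1 / m) = S / r := by
  field_simp
  linear_combination S * h

lemma alg1 {e8 e16 q m : ℝ} (hq : q ≠ 0) (hm : m ≠ 0) (h : e8 ^ 2 * e16 = 1) (A : ℝ) :
    A ^ 2 = q ^ 2 * A ^ 2 * (e8 ^ 2 / (2 * m)) * (2 * m * e16 / q ^ 2) := by
  field_simp
  linear_combination (-A ^ 2) * h

lemma alg2 {e q m r : ℝ} (hq : q ≠ 0) (hr : r ≠ 0) (h : r * r = m) (rq σ P S : ℝ) :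
    (q ^ 2 * rq * σ * P) * (S / r) * (2 * m * e / q ^ 2) = 2 * e * (rq * r) * σ * S * P := by
  field_simp
  linear_combination (-(e * rq * σ * P * S)) * h

lemma bInt_le {M : ℕ} [NeZero M] {J : SL(2, ℤ) → ℍ → ℂ}
    (hJ : IsMultT M J) {s : ℤ → ℤ → ℂ}
    (hs : ∀ k ∈ Gamma0 M, ∀ z, J k z = s (k 1 0) (k 1 1) * (lowerForm k z ^ (1 / 2 : ℂ)) ^ 3)
    (hsp : ∀ c : ℕ, M ∣ c → ∀ d : ℤ, IsCoprime (c : ℤ) d → s c (d + c) = s c d)
    {m : ℕ} (hm : 0 < m) :
    ‖∫ z, stripF m (pSum M m (eFun m) J) (eFun m) z‖ ≤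
      (4 + 12 * ∑ c ∈ (Finset.Icc 1 ⌊Real.sqrt 2 * m⌋₊).filter (M ∣ ·), ‖kTot m s c‖ / c) /
        Real.sqrt m := by
  have hm0 : (0 : ℝ) < m := by exact_mod_cast hm
  set S : ℝ := 4 + 12 * ∑ c ∈ (Finset.Icc 1 ⌊Real.sqrt 2 * m⌋₊).filter (M ∣ ·), ‖kTot m s c‖ / c
    with hS
  have hS0 : 0 ≤ S := by positivity
  rw [integral_stripF hm0 (measurable_pSum hJ.toIsMult (measurable_eFun m)) (measurable_eFun m)
    (fun z hz ↦ pSum_bound hm0 hJ m hz)]
  have hpos : 0 < 1 / (m : ℝ) := by positivity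
  have h1 : ∀ y ∈ Set.Ico (1 / (m : ℝ)) (2 / m),
      ‖∫ x in Set.Ico (0 : ℝ) 1, pSum M m (eFun m) J (pt x y) * conj (eFun m (pt x y)) *
        ((y ^ (-(1 / 2) : ℝ) : ℝ) : ℂ)‖ ≤ S * (1 / (m : ℝ)) ^ (-(1 / 2) : ℝ) := by
    intro y hy
    have hy0 : 0 < y := lt_of_lt_of_le hpos hy.1
    rw [integral_mul_const, norm_mul, Complex.norm_real,
      Real.norm_of_nonneg (Real.rpow_pos_of_pos hy0 _).le]
    have h2 := line_bound hm0 hJ hs hsp m hy
    have h3 : y ^ (-(1 / 2) : ℝ) ≤ (1 / (m : ℝ)) ^ (-(1 / 2) : ℝ) :=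
      Real.rpow_le_rpow_of_nonpos hpos hy.1 (by norm_num)
    exact mul_le_mul h2 h3 (Real.rpow_pos_of_pos hy0 _).le hS0
  refine (norm_setIntegral_le_of_norm_le_const (by simp) h1).trans (le_of_eq ?_)
  rw [Measure.real, Real.volume_Ico, ENNReal.toReal_ofReal (by
      rw [div_sub_div_same]; positivity)]
  have e : (1 / (m : ℝ)) ^ (-(1 / 2) : ℝ) = Real.sqrt m := by
    rw [Real.rpow_neg (by positivity), ← Real.sqrt_eq_rpow, ← Real.sqrt_inv]
    simp
  rw [e]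
  have h4 : (2 / (m : ℝ) - 1 / m) = 1 / m := by ring
  rw [h4]
  have h5 : Real.sqrt m * Real.sqrt m = m := Real.mul_self_sqrt hm0.le
  have h6 : Real.sqrt m ≠ 0 := by positivity
  exact alg0 h6 hm0.ne' h5 S

theorem coeff_bound [NeZero N] (hf : IsCuspForm N χ f) (h4 : 4 ∣ N) {q : ℕ} [NeZero q]
    (hsq : Squarefree q) (hcop : Nat.Coprime q N) {m : ℕ} (hm : 0 < m) :
    ‖fourierCoeff f (q * m)‖ ^ 2 ≤ 2 * Real.exp (16 * Real.pi) * Real.sqrt (q * m) *
      (ArithmeticFunction.sigma 1 q : ℕ) *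
      (4 + 12 * ∑ c ∈ (Finset.Icc 1 ⌊Real.sqrt 2 * m⌋₊).filter (N * q ∣ ·),
        ‖kTot m (mS N q χ) c‖ / c) * petNorm N f := by
  have hm0 : (0 : ℝ) < m := by exact_mod_cast hm
  have hq : (0 : ℝ) < q := Nat.cast_pos.2 (NeZero.pos q)
  have hP := petNorm_nonneg (N := N) f
  set S : ℝ := 4 + 12 * ∑ c ∈ (Finset.Icc 1 ⌊Real.sqrt 2 * m⌋₊).filter (N * q ∣ ·),
        ‖kTot m (mS N q χ) c‖ / c with hS
  have hS0 : 0 ≤ S := by positivity
  by_cases hne : ∃ z, trSum f q z ≠ 0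
  swap
  · push Not at hne
    have h1 := trSum_coeff hf q m one_pos
    simp_rw [hne] at h1
    simp only [zero_mul, intervalIntegral.integral_zero] at h1
    have h2 : fourierCoeff f (q * m) = 0 := by
      have h3 : (Real.exp (-(2 * Real.pi * m * 1)) : ℂ) ≠ 0 := by
        exact_mod_cast (Real.exp_pos _).ne'
      have h4 : (q : ℂ) ≠ 0 := by exact_mod_cast hq.ne'
      have := h1.symm
      rcases mul_eq_zero.1 this with h | h
      · rcases mul_eq_zero.1 h with h | h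
        · exact absurd h h4
        · exact h
      · exact absurd h h3
    rw [h2, norm_zero, zero_pow two_ne_zero]
    positivity
  have hJ := mJ_isMult hf h4 hne
  set J := mJ N q χ with hJdef
  set a : ℝ := (q : ℝ) ^ (5 / 2 : ℝ) * (ArithmeticFunction.sigma 1 q : ℕ) * petNorm N f with ha
  have ha0 : 0 ≤ a := by positivity
  obtain ⟨C, hC⟩ := trSum_bound hf q hm0
  have hb : ∀ z ∈ hstrip (m : ℝ), ‖trSum f q z * conj (eFun m z)‖ ≤ C := by
    intro z hz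
    rw [norm_mul, Complex.norm_conj]
    have h1 := hC z hz
    have h2 := norm_eFun_le m z
    calc ‖trSum f q z‖ * ‖eFun m z‖ ≤ C * 1 :=
          mul_le_mul h1 h2 (norm_nonneg _) (le_trans (norm_nonneg _) h1)
      _ = C := mul_one _
  have hmain := pair_bound hm0 hJ.toIsMult (continuous_trSum hf q).measurable
    (fun k hk z ↦ trSum_transform hf h4 hk z) (measurable_eFun m) ha0
    (iInt_le hf h4 hsq hcop)
    (lintegral_stripF_ne_top hm0 hb)
    (lintegral_stripF_ne_top hm0 (fun z hz ↦ pSum_bound hm0 hJ m hz))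
  have hB := bInt_le hJ (fun k _ z ↦ mJ_eq N q χ k z)
    (fun c hc d hd ↦ mS_period h4 c hc d hd) hm
  rw [← hS] at hB
  have hBre : (∫ z, stripF m (pSum (N * q) m (eFun m) J) (eFun m) z).re ≤ S / Real.sqrt m :=
    (Complex.re_le_norm _).trans hB
  have h1 := hmain.1
  rw [aInt_eq hf q hm0] at h1
  set I := ∫ y in Set.Ico (1 / (m : ℝ)) (2 / m),
        Real.exp (-(4 * Real.pi * m * y)) * y ^ (-(1 / 2) : ℝ) with hI
  have hIl := weight_lower hm
  rw [← hI] at hIl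
  have hL0 : 0 < Real.exp (-(8 * Real.pi)) / Real.sqrt (2 * m) := by positivity
  have hI0 : 0 < I := lt_of_lt_of_le hL0 hIl
  rw [norm_mul, norm_mul, Complex.norm_natCast, Complex.norm_real, Real.norm_of_nonneg hI0.le] at h1
  set A := ‖fourierCoeff f (q * m)‖ with hA
  have hA0 : 0 ≤ A := norm_nonneg _
  have h2 : (q * A * (Real.exp (-(8 * Real.pi)) / Real.sqrt (2 * m))) ^ 2 ≤
      a * (S / Real.sqrt m) := by
    calc (q * A * (Real.exp (-(8 * Real.pi)) / Real.sqrt (2 * m))) ^ 2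
        ≤ (q * A * I) ^ 2 := by gcongr
      _ ≤ _ := h1
      _ ≤ _ := by gcongr
  have hexp : Real.exp (-(8 * Real.pi)) ^ 2 * Real.exp (16 * Real.pi) = 1 := by
    rw [← Real.exp_nat_mul, ← Real.exp_add]
    have : ((2 : ℕ) : ℝ) * -(8 * Real.pi) + 16 * Real.pi = 0 := by push_cast; ring
    rw [this, Real.exp_zero]
  have hsq2 : Real.sqrt (2 * m) ^ 2 = 2 * m := Real.sq_sqrt (by positivity)
  have hsqm : Real.sqrt m * Real.sqrt m = m := Real.mul_self_sqrt hm0.le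
  have hq52 : (q : ℝ) ^ (5 / 2 : ℝ) = q ^ 2 * Real.sqrt q := by
    rw [Real.sqrt_eq_rpow, ← Real.rpow_natCast, ← Real.rpow_add hq]; norm_num
  have hkey : A ^ 2 = (q * A * (Real.exp (-(8 * Real.pi)) / Real.sqrt (2 * m))) ^ 2 *
      (2 * m * Real.exp (16 * Real.pi) / q ^ 2) := by
    have : (q * A * (Real.exp (-(8 * Real.pi)) / Real.sqrt (2 * m))) ^ 2 =
        q ^ 2 * A ^ 2 * (Real.exp (-(8 * Real.pi)) ^ 2 / (2 * m)) := by
      rw [mul_pow, mul_pow, div_pow, hsq2]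
    rw [this]
    exact alg1 hq.ne' hm0.ne' hexp A
  rw [hkey]
  have hk0 : 0 ≤ 2 * m * Real.exp (16 * Real.pi) / q ^ 2 := by positivity
  refine (mul_le_mul_of_nonneg_right h2 hk0).trans (le_of_eq ?_)
  rw [ha, hq52, Real.sqrt_mul hq.le]
  have h6 : Real.sqrt m ≠ 0 := by positivity
  exact alg2 hq.ne' h6 hsqm _ _ _ _

end

end

end Pool.Agent.Work.MP_af11aa_nt.K
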