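import Mathlib

/-!
# Integers composed of the primes of `n` (Rankin's method)
-/

set_option autoImplicit false

namespace Pool.Agent.Work.MP_af11aa_nt.K

open Finset

/-- `k ↦ k ^ (-ε)` as a monoid homomorphism. -/
private noncomputable def countF (ε : ℝ) : ℕ →* ℝ where
  toFun k := (k : ℝ) ^ (-ε)
  map_one' := by simp
  map_mul' a b := by
    push_cast
    exact Real.mul_rpow (Nat.cast_nonneg a) (Nat.cast_nonneg b)

private theorem countF_apply (ε : ℝ) (k : ℕ) : countF ε k = (k : ℝ) ^ (-ε) := rfl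

/-- MODULE Count.  Integers composed of the primes of `n`. -/
theorem count_factored (ε : ℝ) (hε : 0 < ε) : ∃ C : ℝ, 0 < C ∧ ∀ n : ℕ, 0 < n → ∀ X : ℝ, 1 ≤ X →
    (((Finset.Icc 1 ⌊X⌋₊).filter (fun k ↦ k.primeFactors ⊆ n.primeFactors)).card : ℝ) ≤
      C * (n * X) ^ ε := by
  obtain ⟨P, hP⟩ : ∃ P : ℕ, ∀ p : ℕ, P ≤ p → (2 : ℝ) ≤ (p : ℝ) ^ ε := by
    have := (tendsto_rpow_atTop hε).comp (tendsto_natCast_atTop_atTop (R := ℝ))
    have h2 := (this.eventually_ge_atTop 2)
    obtain ⟨P, hP⟩ := Filter.eventually_atTop.1 h2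
    exact ⟨P, fun p hp => hP p hp⟩
  have h2lt : (2 : ℝ) ^ (-ε) < 1 := Real.rpow_lt_one_of_one_lt_of_neg (by norm_num) (by linarith)
  set K : ℝ := (1 - (2 : ℝ) ^ (-ε))⁻¹ with hK
  have hK1 : 1 ≤ K := by
    rw [hK]
    apply (one_le_inv₀ (by linarith)).mpr
    have : (0 : ℝ) ≤ (2 : ℝ) ^ (-ε) := by positivity
    linarith
  have hsmall : ∀ p : ℕ, 2 ≤ p → (p : ℝ) ^ (-ε) ≤ (2 : ℝ) ^ (-ε) := by
    intro p hp
    exact Real.rpow_le_rpow_of_nonpos (by norm_num) (by exact_mod_cast hp) (by linarith)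
  refine ⟨K ^ P, by positivity, fun n hn X hX => ?_⟩
  have hX0 : 0 < X := by linarith
  set A := (Finset.Icc 1 ⌊X⌋₊).filter (fun k ↦ k.primeFactors ⊆ n.primeFactors) with hA
  have hnorm : ∀ {p : ℕ}, p.Prime → ‖countF ε p‖ < 1 := by
    intro p hp
    rw [countF_apply, Real.norm_of_nonneg (by positivity)]
    exact lt_of_le_of_lt (hsmall p hp.two_le) h2lt
  have hsum := (EulerProduct.summable_and_hasSum_factoredNumbers_prod_filter_prime_geometric
    (f := countF ε) hnorm n.primeFactors).2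
  -- the sum over `A`
  have h1 : ∑ k ∈ A, countF ε k ≤ ∏ p ∈ n.primeFactors with p.Prime, (1 - countF ε p)⁻¹ := by
    have h2 : ∑ k ∈ A, countF ε k =
        ∑ k ∈ A.subtype (· ∈ Nat.factoredNumbers n.primeFactors), countF ε k := by
      rw [Finset.sum_subtype_eq_sum_filter, Finset.filter_true_of_mem]
      intro k hk
      rw [hA, Finset.mem_filter, Finset.mem_Icc] at hk
      exact Nat.mem_factoredNumbers_of_primeFactors_subset (by omega) hk.2
    rw [h2]
    refine sum_le_hasSum _ ?_ hsum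
    intro i _
    rw [countF_apply]
    positivity
  have h2 : (A.card : ℝ) ≤ X ^ ε * ∑ k ∈ A, countF ε k := by
    rw [Finset.mul_sum, Finset.card_eq_sum_ones]
    push_cast
    refine Finset.sum_le_sum ?_
    intro k hk
    rw [hA, Finset.mem_filter, Finset.mem_Icc] at hk
    have hk1 : (1 : ℝ) ≤ k := by exact_mod_cast hk.1.1
    have hk2 : (k : ℝ) ≤ X := le_trans (by exact_mod_cast hk.1.2) (Nat.floor_le hX0.le)
    rw [countF_apply, Real.rpow_neg (by linarith), ← div_eq_mul_inv,
      le_div_iff₀ (by positivity), one_mul]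
    exact Real.rpow_le_rpow (by linarith) hk2 hε.le
  -- the product
  have h3 : ∏ p ∈ n.primeFactors with p.Prime, (1 - countF ε p)⁻¹ ≤ K ^ P * (n : ℝ) ^ ε := by
    rw [Finset.filter_true_of_mem (fun p hp => Nat.prime_of_mem_primeFactors hp)]
    have h4 : ∀ p ∈ n.primeFactors, (1 - countF ε p)⁻¹ ≤ (if p < P then K else 1) * (p : ℝ) ^ ε := by
      intro p hp
      have hpp := Nat.prime_of_mem_primeFactors hp
      have hp2 : (2 : ℝ) ≤ p := by exact_mod_cast hpp.two_le
      have h5 := hsmall p hpp.two_le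
      rw [countF_apply]
      by_cases hlt : p < P
      · rw [if_pos hlt]
        have h6 : (1 - (p : ℝ) ^ (-ε))⁻¹ ≤ K := by
          rw [hK]
          exact inv_anti₀ (by linarith) (by linarith)
        have h7 : (1 : ℝ) ≤ (p : ℝ) ^ ε := Real.one_le_rpow (by linarith) hε.le
        nlinarith
      · rw [if_neg hlt, one_mul]
        have h6 := hP p (not_lt.1 hlt)
        refine le_trans ?_ h6
        have h7 : (p : ℝ) ^ (-ε) ≤ 1 / 2 := by
          rw [Real.rpow_neg (by linarith), inv_eq_one_div]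
          exact one_div_le_one_div_of_le (by norm_num) h6
        have h8 : (1 - (p : ℝ) ^ (-ε))⁻¹ ≤ (1 / 2 : ℝ)⁻¹ := inv_anti₀ (by norm_num) (by linarith)
        linarith [h8, (by norm_num : (1 / 2 : ℝ)⁻¹ = 2)]
    have h5 : ∀ p ∈ n.primeFactors, 0 ≤ (1 - countF ε p)⁻¹ := by
      intro p hp
      have := hnorm (Nat.prime_of_mem_primeFactors hp)
      rw [countF_apply, Real.norm_of_nonneg (by positivity)] at this
      rw [countF_apply]
      exact inv_nonneg.mpr (by linarith)
    refine (Finset.prod_le_prod h5 h4).trans ?_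
    rw [Finset.prod_mul_distrib]
    have h6 : ∏ p ∈ n.primeFactors, (if p < P then K else 1) ≤ K ^ P := by
      rw [Finset.prod_ite, Finset.prod_const, Finset.prod_const_one, mul_one]
      refine pow_le_pow_right₀ hK1 ?_
      refine le_trans (Finset.card_le_card (t := Finset.range P) ?_) (by rw [Finset.card_range])
      intro p hp
      rw [Finset.mem_filter] at hp
      exact Finset.mem_range.mpr hp.2
    have h7 : ∏ p ∈ n.primeFactors, (p : ℝ) ^ ε ≤ (n : ℝ) ^ ε := by
      rw [Real.finsetProd_rpow _ _ (fun i _ => Nat.cast_nonneg i)]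
      refine Real.rpow_le_rpow (by positivity) ?_ hε.le
      have := Nat.le_of_dvd hn (Nat.prod_primeFactors_dvd n)
      rw [← Nat.cast_prod]
      exact Nat.cast_le.mpr this
    exact mul_le_mul h6 h7 (Finset.prod_nonneg (fun i _ => by positivity)) (by positivity)
  calc (A.card : ℝ) ≤ X ^ ε * ∑ k ∈ A, countF ε k := h2
    _ ≤ X ^ ε * (K ^ P * (n : ℝ) ^ ε) :=
        mul_le_mul_of_nonneg_left (h1.trans h3) (by positivity)
    _ = K ^ P * (n * X) ^ ε := by
        rw [Real.mul_rpow (by positivity) hX0.le]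
        ring

end Pool.Agent.Work.MP_af11aa_nt.K
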