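import Mathlib

namespace Pool.Agent.Work.MP_af11aa_nt.K

/-- splitting off the part coprime to `n`. -/
lemma exists_split (n : ℕ) (hn : 0 < n) (c : ℕ) (hc : 0 < c) :
    ∃ r : ℕ × ℕ, c = r.2 * r.1 ∧ r.2.Coprime n ∧ r.1.primeFactors ⊆ n.primeFactors := by
  induction c using Nat.strong_induction_on with
  | _ c ih =>
    by_cases h1 : c.Coprime n
    · exact ⟨(1, c), by simp, h1, by simp⟩
    · have hg : 1 < c.gcd n := by
        have h0 : 0 < c.gcd n := Nat.gcd_pos_of_pos_left _ hc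
        have h2 : c.gcd n ≠ 1 := h1
        omega
      obtain ⟨d, hd⟩ := Nat.gcd_dvd_left c n
      have hd0 : 0 < d := by
        rcases Nat.eq_zero_or_pos d with h | h
        · rw [h, mul_zero] at hd; omega
        · exact h
      have hdc : d < c := by
        rw [hd]; nlinarith
      obtain ⟨r, hr1, hr2, hr3⟩ := ih d hdc hd0
      refine ⟨(c.gcd n * r.1, r.2), ?_, hr2, ?_⟩
      · calc c = c.gcd n * d := hd
          _ = c.gcd n * (r.2 * r.1) := by rw [← hr1]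
          _ = r.2 * (c.gcd n * r.1) := by ring
      · have hr10 : r.1 ≠ 0 := by
          intro h; rw [h, mul_zero] at hr1; omega
        have hg0 : c.gcd n ≠ 0 := by omega
        rw [Nat.primeFactors_mul hg0 hr10]
        exact Finset.union_subset
          (Nat.primeFactors_mono (Nat.gcd_dvd_right c n) hn.ne') hr3

/-- splitting the second modulus. -/
lemma split_k0 {p q k0 : ℕ} (m : ℕ) (hp : p.Prime) (hsq : Squarefree q)
    (hcop : q.Coprime (6 * p)) (hk : 24 * p * q ∣ k0) (hk0 : 0 < k0) :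
    ∃ k1 k2 : ℕ, k0 = k1 * k2 ∧ 0 < k1 ∧ 0 < k2 ∧ Squarefree k1 ∧ k1.Coprime k2 ∧
      k1 ∣ p * q ∧ m.Coprime k1 ∧ (p * q) ^ 2 ∣ k1 * k0 * m.gcd (p * q) := by
  classical
  have hq0 : 0 < q := Nat.pos_of_ne_zero hsq.ne_zero
  have hpq0 : 0 < p * q := Nat.mul_pos hp.pos hq0
  have hcoppq : p.Coprime q := (Nat.Coprime.coprime_dvd_right (dvd_mul_left p 6) hcop).symm
  have hsqpq : Squarefree (p * q) := (Nat.squarefree_mul hcoppq).2 ⟨hp.squarefree, hsq⟩
  set F := (p * q).primeFactors.filter (fun l ↦ ¬ l ^ 2 ∣ k0 ∧ ¬ l ∣ m) with hF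
  set k1 := ∏ l ∈ F, l with hk1
  have hFp : ∀ l ∈ F, l.Prime := fun l hl ↦ Nat.prime_of_mem_primeFactors (Finset.mem_filter.1 hl).1
  have hk1pq : k1 ∣ p * q := by
    have h1 : ∏ l ∈ (p * q).primeFactors, l = p * q := Nat.prod_primeFactors_of_squarefree hsqpq
    calc k1 = ∏ l ∈ F, l := rfl
      _ ∣ ∏ l ∈ (p * q).primeFactors, l :=
        Finset.prod_dvd_prod_of_subset _ _ _ (Finset.filter_subset _ _)
      _ = _ := h1
  have hpqk : p * q ∣ k0 := ⟨24 * (k0 / (24 * p * q)), by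
    obtain ⟨t, ht⟩ := hk
    rw [ht, Nat.mul_div_cancel_left _ (Nat.mul_pos (Nat.mul_pos (by norm_num) hp.pos) hq0)]
    ring⟩
  have hk1k0 : k1 ∣ k0 := hk1pq.trans hpqk
  have hk1pos : 0 < k1 := Nat.pos_of_dvd_of_pos hk1k0 hk0
  obtain ⟨k2, hk2⟩ := hk1k0
  have hk2pos : 0 < k2 := by
    rcases Nat.eq_zero_or_pos k2 with h | h
    · rw [h, mul_zero] at hk2; omega
    · exact h
  refine ⟨k1, k2, hk2, hk1pos, hk2pos, hsqpq.squarefree_of_dvd hk1pq, ?_, hk1pq, ?_, ?_⟩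
  · -- coprimality
    by_contra hnc
    obtain ⟨l, hl, h1, h2⟩ := Nat.Prime.not_coprime_iff_dvd.1 hnc
    have h3 : l ^ 2 ∣ k0 := by rw [hk2, sq]; exact mul_dvd_mul h1 h2
    obtain ⟨l', hl', hd⟩ := (Prime.dvd_finsetProd_iff hl.prime _).1 h1
    have h4 : l = l' := (Nat.prime_dvd_prime_iff_eq hl (hFp l' hl')).1 hd
    rw [← h4] at hl'
    exact (Finset.mem_filter.1 hl').2.1 h3
  · by_contra hnc
    obtain ⟨l, hl, h1, h2⟩ := Nat.Prime.not_coprime_iff_dvd.1 hnc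
    obtain ⟨l', hl', hd⟩ := (Prime.dvd_finsetProd_iff hl.prime _).1 h2
    have h4 : l = l' := (Nat.prime_dvd_prime_iff_eq hl (hFp l' hl')).1 hd
    rw [← h4] at hl'
    exact (Finset.mem_filter.1 hl').2.2 h1
  · have h1 : (p * q) ^ 2 = ∏ l ∈ (p * q).primeFactors, l ^ 2 := by
      rw [Finset.prod_pow, Nat.prod_primeFactors_of_squarefree hsqpq]
    rw [h1]
    refine Finset.prod_dvd_of_isRelPrime ?_ ?_
    · intro a ha b hb hab
      have ha' := Nat.prime_of_mem_primeFactors ha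
      have hb' := Nat.prime_of_mem_primeFactors hb
      rw [Function.onFun, ← Nat.coprime_iff_isRelPrime]
      exact Nat.Coprime.pow 2 2 ((Nat.coprime_primes ha' hb').2 hab)
    · intro l hl
      have hl' := Nat.prime_of_mem_primeFactors hl
      by_cases h2 : l ^ 2 ∣ k0
      · exact (h2.mul_left k1).mul_right _
      · have h4 : l ∣ k0 := (Nat.dvd_of_mem_primeFactors hl).trans hpqk
        rw [sq]
        by_cases h5 : l ∣ m
        · have h6 : l ∣ m.gcd (p * q) := Nat.dvd_gcd h5 (Nat.dvd_of_mem_primeFactors hl)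
          exact mul_dvd_mul (h4.mul_left k1) h6
        · have hlF : l ∈ F := Finset.mem_filter.2 ⟨hl, h2, h5⟩
          have h3 : l ∣ k1 := Finset.dvd_prod_of_mem _ hlF
          exact (mul_dvd_mul h3 h4).mul_right _

/-- a sum over multiples of `D`, according to the part composed of primes of `n`. -/
lemma sum_split {n D X0 : ℕ} (hn : 0 < n) (hD : 0 < D) (hDn : D.primeFactors ⊆ n.primeFactors)
    {G : ℕ → ℝ} (hG : ∀ c, 0 ≤ G c) :
    ∑ c ∈ (Finset.Icc 1 X0).filter (D ∣ ·), G c ≤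
      ∑ k ∈ (Finset.Icc 1 X0).filter (fun k ↦ k.primeFactors ⊆ n.primeFactors ∧ D ∣ k),
        ∑ a ∈ (Finset.Icc 1 (X0 / k)).filter (fun a : ℕ ↦ a.Coprime n), G (a * k) := by
  classical
  set A := (Finset.Icc 1 X0).filter (D ∣ ·) with hA
  have hex : ∀ c : ℕ, ∃ r : ℕ × ℕ, 0 < c → (c = r.2 * r.1 ∧ r.2.Coprime n ∧
      r.1.primeFactors ⊆ n.primeFactors) := by
    intro c
    by_cases hc : 0 < c
    · obtain ⟨r, hr⟩ := exists_split n hn c hc
      exact ⟨r, fun _ ↦ hr⟩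
    · exact ⟨(0, 0), fun h ↦ absurd h hc⟩
  choose Φ hΦ using hex
  have hpos : ∀ c ∈ A, 0 < c := by
    intro c hc
    rw [hA, Finset.mem_filter, Finset.mem_Icc] at hc
    omega
  have hinj : Set.InjOn (fun c ↦ (⟨(Φ c).1, (Φ c).2⟩ : (_ : ℕ) × ℕ)) (A : Set ℕ) := by
    intro c hc c' hc' h
    simp only [Sigma.mk.injEq, heq_eq_eq] at h
    have h1 := (hΦ c (hpos c hc)).1
    have h2 := (hΦ c' (hpos c' hc')).1
    rw [h1, h2, h.1, h.2]
  set S : ℕ → Finset ℕ := fun k ↦ (Finset.Icc 1 (X0 / k)).filter (fun a : ℕ ↦ a.Coprime n) with hS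
  set K := (Finset.Icc 1 X0).filter (fun k ↦ k.primeFactors ⊆ n.primeFactors ∧ D ∣ k) with hK
  have h1 : ∑ c ∈ A, G c =
      ∑ x ∈ A.image (fun c ↦ (⟨(Φ c).1, (Φ c).2⟩ : (_ : ℕ) × ℕ)), G (x.2 * x.1) := by
    rw [Finset.sum_image hinj]
    refine Finset.sum_congr rfl fun c hc ↦ ?_
    simp only
    rw [← (hΦ c (hpos c hc)).1]
  rw [h1]
  have h2 : A.image (fun c ↦ (⟨(Φ c).1, (Φ c).2⟩ : (_ : ℕ) × ℕ)) ⊆ K.sigma S := by
    intro x hx
    rw [Finset.mem_image] at hx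
    obtain ⟨c, hc, rfl⟩ := hx
    have hc0 := hpos c hc
    obtain ⟨e1, e2, e3⟩ := hΦ c hc0
    have hcX : c ≤ X0 := by
      rw [hA, Finset.mem_filter, Finset.mem_Icc] at hc; exact hc.1.2
    have hDc : D ∣ c := by
      rw [hA, Finset.mem_filter] at hc; exact hc.2
    have hk0 : 0 < (Φ c).1 := by
      rcases Nat.eq_zero_or_pos (Φ c).1 with h | h
      · rw [h, mul_zero] at e1; omega
      · exact h
    have ha0 : 0 < (Φ c).2 := by
      rcases Nat.eq_zero_or_pos (Φ c).2 with h | h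
      · rw [h, zero_mul] at e1; omega
      · exact h
    have hcopD : D.Coprime (Φ c).2 := by
      by_contra hnc
      obtain ⟨l, hl, h3, h4⟩ := Nat.Prime.not_coprime_iff_dvd.1 hnc
      have h5 : l ∈ D.primeFactors := Nat.mem_primeFactors.2 ⟨hl, h3, hD.ne'⟩
      have h6 : l ∣ n := Nat.dvd_of_mem_primeFactors (hDn h5)
      have h7 := Nat.dvd_gcd h4 h6
      rw [e2] at h7
      exact hl.one_lt.ne' (Nat.dvd_one.1 h7)
    have hDk : D ∣ (Φ c).1 := by
      rw [e1] at hDc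
      exact hcopD.dvd_of_dvd_mul_left hDc
    rw [Finset.mem_sigma, hK, hS]
    simp only [Finset.mem_filter, Finset.mem_Icc]
    have hkc : (Φ c).1 ≤ X0 := by
      calc (Φ c).1 ≤ (Φ c).2 * (Φ c).1 := Nat.le_mul_of_pos_left _ ha0
        _ = c := e1.symm
        _ ≤ X0 := hcX
    refine ⟨⟨⟨hk0, hkc⟩, e3, hDk⟩, ⟨ha0, ?_⟩, e2⟩
    rw [Nat.le_div_iff_mul_le hk0, ← e1]
    exact hcX
  refine (Finset.sum_le_sum_of_subset_of_nonneg h2 fun x _ _ ↦ hG _).trans (le_of_eq ?_)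
  rw [Finset.sum_sigma]

end Pool.Agent.Work.MP_af11aa_nt.K
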