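import Mathlib

/-!
Quadratic Gauss sums for odd moduli and the bound for Salie sums.
-/

namespace Pool.Agent.Work.MP_af11aa_nt.K

open Finset ComplexConjugate

namespace Salie

/-- the additive character evaluated at an integer -/
noncomputable def ec (c : ℕ) (z : ℤ) : ℂ := Complex.exp (2 * Real.pi * Complex.I * z / c)

theorem ec_add (c : ℕ) (z w : ℤ) : ec c (z + w) = ec c z * ec c w := by
  unfold ec
  rw [← Complex.exp_add]
  congr 1
  push_cast
  ring

theorem ec_mul (m c : ℕ) (hm : m ≠ 0) (hc : c ≠ 0) (z : ℤ) : ec (m * c) (m * z) = ec c z := by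
  unfold ec
  congr 1
  have h1 : (m : ℂ) ≠ 0 := by exact_mod_cast hm
  have h2 : (c : ℂ) ≠ 0 := by exact_mod_cast hc
  push_cast
  field_simp

theorem ec_self_mul (c : ℕ) (hc : c ≠ 0) (z : ℤ) : ec c (c * z) = 1 := by
  unfold ec
  have h2 : (c : ℂ) ≠ 0 := by exact_mod_cast hc
  have : 2 * (Real.pi : ℂ) * Complex.I * ((c * z : ℤ) : ℂ) / c = z * (2 * Real.pi * Complex.I) := by
    push_cast
    field_simp
  rw [this]
  exact Complex.exp_int_mul_two_pi_mul_I z

theorem std_eq (c : ℕ) [NeZero c] (z : ℤ) : ZMod.stdAddChar ((z : ℤ) : ZMod c) = ec c z :=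
  ZMod.stdAddChar_coe z

/-- the quadratic Gauss sum -/
noncomputable def G (a : ℤ) (c : ℕ) : ℂ := ∑ n ∈ range c, ec c (a * (n : ℤ) ^ 2)

theorem sum_zmod {c : ℕ} [NeZero c] (f : ZMod c → ℂ) : ∑ x : ZMod c, f x = ∑ n ∈ range c, f (n : ZMod c) := by
  refine Finset.sum_nbij' (fun x : ZMod c => x.val) (fun n => (n : ZMod c)) ?_ ?_ ?_ ?_ ?_
  · intro x _
    simpa using ZMod.val_lt x
  · intro n _
    simp
  · intro x _
    simp
  · intro n hn
    simp only [Finset.mem_range] at hn
    exact ZMod.val_cast_of_lt hn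
  · intro x _
    simp

theorem G_eq (a : ℤ) (c : ℕ) [NeZero c] :
    G a c = ∑ x : ZMod c, ZMod.stdAddChar ((a : ZMod c) * x ^ 2) := by
  rw [sum_zmod, G]
  refine Finset.sum_congr rfl (fun n _ => ?_)
  rw [← std_eq]
  push_cast
  rfl

/-- splitting a range -/
theorem sum_range_mul (M l : ℕ) (hM : 0 < M) (f : ℕ → ℂ) :
    ∑ n ∈ range (M * l), f n = ∑ n0 ∈ range M, ∑ k ∈ range l, f (n0 + M * k) := by
  rw [← Finset.sum_product']
  refine (Finset.sum_nbij' (fun q : ℕ × ℕ => q.1 + M * q.2) (fun n => (n % M, n / M))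
    ?_ ?_ ?_ ?_ ?_).symm
  · rintro ⟨x, y⟩ h
    simp only [Finset.mem_product, Finset.mem_range] at h ⊢
    calc x + M * y < M + M * y := by omega
      _ = M * (y + 1) := by ring
      _ ≤ M * l := Nat.mul_le_mul_left _ h.2
  · intro n hn
    simp only [Finset.mem_product, Finset.mem_range] at hn ⊢
    exact ⟨Nat.mod_lt _ hM, Nat.div_lt_of_lt_mul hn⟩
  · rintro ⟨x, y⟩ h
    simp only [Finset.mem_product, Finset.mem_range] at h
    simp only [Prod.mk.injEq]
    constructor
    · rw [Nat.add_mul_mod_self_left, Nat.mod_eq_of_lt h.1]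
    · rw [Nat.add_mul_div_left _ _ hM, Nat.div_eq_of_lt h.1, zero_add]
  · intro n _
    exact Nat.mod_add_div n M
  · intro _ _
    rfl

theorem sum_ec (l : ℕ) [NeZero l] (z : ℤ) :
    ∑ k ∈ range l, ec l (z * k) = if (l : ℤ) ∣ z then (l : ℂ) else 0 := by
  have h1 := AddChar.sum_mulShift (z : ZMod l) (ZMod.isPrimitive_stdAddChar l)
  rw [sum_zmod] at h1
  have h2 : ∀ k ∈ range l, ec l (z * k) = ZMod.stdAddChar ((k : ZMod l) * (z : ZMod l)) := by
    intro k _
    rw [← std_eq]
    push_cast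
    rw [mul_comm]
  rw [Finset.sum_congr rfl h2, h1, ZMod.card]
  simp only [ZMod.intCast_zmod_eq_zero_iff_dvd]
  split_ifs <;> simp

/-- removing a square factor -/
theorem G_sq (a : ℤ) (l c : ℕ) (hl : l.Prime) (hl2 : l ≠ 2) (hc : c ≠ 0) (ha : ¬ (l : ℤ) ∣ a) :
    G a (l * (l * c)) = l * G a c := by
  have hl0 : l ≠ 0 := hl.ne_zero
  have : NeZero l := ⟨hl0⟩
  have hM : 0 < l * c := Nat.mul_pos hl.pos (Nat.pos_of_ne_zero hc)
  unfold G
  rw [mul_comm l (l * c), sum_range_mul (l * c) l hM]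
  have h1 : ∀ n0 ∈ range (l * c), ∑ k ∈ range l, ec (l * c * l) (a * ((n0 + l * c * k : ℕ) : ℤ) ^ 2)
      = ec (l * (l * c)) (a * (n0 : ℤ) ^ 2) * if l ∣ n0 then (l : ℂ) else 0 := by
    intro n0 _
    have h2 : ∀ k ∈ range l, ec (l * c * l) (a * ((n0 + l * c * k : ℕ) : ℤ) ^ 2)
        = ec (l * (l * c)) (a * (n0 : ℤ) ^ 2) * ec l ((2 * a * n0) * k) := by
      intro k _
      have e1 : a * ((n0 + l * c * k : ℕ) : ℤ) ^ 2 = a * (n0 : ℤ) ^ 2 +
          (((l * c : ℕ) : ℤ) * ((2 * a * n0) * k) + ((l * (l * c) : ℕ) : ℤ) * (a * c * k ^ 2)) := by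
        push_cast
        ring
      rw [mul_comm (l * c) l, e1, ec_add, ec_add, ec_self_mul _ (by positivity), mul_one,
        mul_comm l (l * c), ec_mul (l * c) l hM.ne' hl0]
    rw [Finset.sum_congr rfl h2, ← Finset.mul_sum, sum_ec]
    congr 1
    have h3 : ((l : ℤ) ∣ 2 * a * n0) ↔ l ∣ n0 := by
      constructor
      · intro h
        have hlp : Prime (l : ℤ) := Nat.prime_iff_prime_int.1 hl
        rcases hlp.dvd_or_dvd h with h4 | h4
        · rcases hlp.dvd_or_dvd h4 with h5 | h5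
          · exfalso
            have h6 : l ∣ 2 := by exact_mod_cast h5
            exact hl2 ((Nat.prime_dvd_prime_iff_eq hl Nat.prime_two).1 h6)
          · exact absurd h5 ha
        · exact_mod_cast h4
      · intro h
        exact Dvd.dvd.mul_left (by exact_mod_cast h) _
    simp only [h3]
  rw [Finset.sum_congr rfl h1]
  have h4 : ∑ n0 ∈ range (l * c), ec (l * (l * c)) (a * (n0 : ℤ) ^ 2) * (if l ∣ n0 then (l : ℂ) else 0)
      = ∑ n1 ∈ range c, (l : ℂ) * ec c (a * (n1 : ℤ) ^ 2) := by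
    rw [sum_range_mul l c hl.pos, Finset.sum_eq_single_of_mem 0 (by simp [hl.pos])]
    · refine Finset.sum_congr rfl (fun k _ => ?_)
      rw [if_pos (by simp)]
      have e1 : a * ((0 + l * k : ℕ) : ℤ) ^ 2 = (l : ℤ) * ((l : ℤ) * (a * (k : ℤ) ^ 2)) := by
        push_cast; ring
      rw [e1, ec_mul l (l * c) hl0 hM.ne', ec_mul l c hl0 hc, mul_comm]
    · intro b hb hb0
      apply Finset.sum_eq_zero
      intro k _
      rw [if_neg, mul_zero]
      intro h
      have h5 : l ∣ b := (Nat.dvd_add_left (dvd_mul_right l k)).1 h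
      simp only [Finset.mem_range] at hb
      exact absurd (Nat.le_of_dvd (Nat.pos_of_ne_zero hb0) h5) (by omega)
  rw [h4, Finset.mul_sum]

/-- coprime moduli -/
theorem G_mul (a : ℤ) (l c : ℕ) (hl : l ≠ 0) (hc : c ≠ 0) (hcop : Nat.Coprime l c) :
    G a (l * c) = G (a * c) l * G (a * l) c := by
  have : NeZero l := ⟨hl⟩
  have : NeZero c := ⟨hc⟩
  have hN : l * c ≠ 0 := mul_ne_zero hl hc
  have : NeZero (l * c) := ⟨hN⟩
  have hfin : Nat.card (ZMod l × ZMod c) = Nat.card (ZMod (l * c)) := by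
    rw [Nat.card_prod, Nat.card_zmod, Nat.card_zmod, Nat.card_zmod]
  let φ : ZMod l × ZMod c → ZMod (l * c) := fun q => ((q.1.val * c + q.2.val * l : ℕ) : ZMod (l * c))
  have hinj : Function.Injective φ := by
    rintro ⟨x, y⟩ ⟨x', y'⟩ h
    simp only [φ, ZMod.natCast_eq_natCast_iff] at h
    have h1 : x.val * c + y.val * l ≡ x'.val * c + y'.val * l [MOD l] := h.of_mul_right c
    have h2 : x.val * c + y.val * l ≡ x'.val * c + y'.val * l [MOD c] := h.of_mul_left l
    have h3 : x.val * c ≡ x'.val * c [MOD l] := by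
      have e1 : x.val * c + y.val * l ≡ x.val * c [MOD l] := by
        simp [Nat.ModEq]
      have e2 : x'.val * c + y'.val * l ≡ x'.val * c [MOD l] := by
        simp [Nat.ModEq]
      exact e1.symm.trans (h1.trans e2)
    have h4 : y.val * l ≡ y'.val * l [MOD c] := by
      have e1 : x.val * c + y.val * l ≡ y.val * l [MOD c] := by
        simp [Nat.ModEq]
      have e2 : x'.val * c + y'.val * l ≡ y'.val * l [MOD c] := by
        simp [Nat.ModEq]
      exact e1.symm.trans (h2.trans e2)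
    have h5 : x.val ≡ x'.val [MOD l] := Nat.ModEq.cancel_right_of_coprime hcop h3
    have h6 : y.val ≡ y'.val [MOD c] := Nat.ModEq.cancel_right_of_coprime hcop.symm h4
    have h7 : x = x' := by
      rw [← ZMod.natCast_zmod_val x, ← ZMod.natCast_zmod_val x', ZMod.natCast_eq_natCast_iff]
      exact h5
    have h8 : y = y' := by
      rw [← ZMod.natCast_zmod_val y, ← ZMod.natCast_zmod_val y', ZMod.natCast_eq_natCast_iff]
      exact h6
    rw [h7, h8]
  have hbij : Function.Bijective φ := (Nat.bijective_iff_injective_and_card φ).2 ⟨hinj, hfin⟩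
  rw [G_eq a (l * c), ← hbij.sum_comp, Fintype.sum_prod_type, G_eq, G_eq, Finset.sum_mul_sum]
  refine Finset.sum_congr rfl (fun x _ => Finset.sum_congr rfl (fun y _ => ?_))
  have e1 : (a : ZMod (l * c)) * (φ (x, y)) ^ 2
      = ((a * ((x.val * c + y.val * l : ℕ) : ℤ) ^ 2 : ℤ) : ZMod (l * c)) := by
    simp only [φ]
    push_cast
    ring
  have e2 : a * ((x.val * c + y.val * l : ℕ) : ℤ) ^ 2
      = (c : ℤ) * (a * c * (x.val : ℤ) ^ 2) + ((l : ℤ) * (a * l * (y.val : ℤ) ^ 2) +
        ((l * c : ℕ) : ℤ) * (2 * a * x.val * y.val)) := by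
    push_cast
    ring
  rw [e1, std_eq, e2, ec_add, ec_add, ec_self_mul _ hN, mul_one, ec_mul l c hl hc, mul_comm l c,
    ec_mul c l hc hl]
  congr 1
  · rw [← std_eq]
    congr 1
    push_cast
    simp
  · rw [← std_eq]
    congr 1
    push_cast
    simp

/-- prime moduli -/
theorem G_prime (a : ℤ) (l : ℕ) [Fact l.Prime] (hl2 : l ≠ 2) (ha : ¬ (l : ℤ) ∣ a) :
    G a l = (jacobiSym a l : ℂ) * G 1 l := by
  classical
  have hchar : ringChar (ZMod l) ≠ 2 := by rwa [ZMod.ringChar_zmod_n]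
  have key : ∀ b : ZMod l, b ≠ 0 → ∑ x : ZMod l, ZMod.stdAddChar (b * x ^ 2)
      = ∑ v : ZMod l, (quadraticChar (ZMod l) v : ℂ) * ZMod.stdAddChar (b * v) := by
    intro b hb
    have h1 : ∑ x : ZMod l, ZMod.stdAddChar (b * x ^ 2)
        = ∑ v : ZMod l, ∑ x : ZMod l with x ^ 2 = v, (ZMod.stdAddChar (b * v) : ℂ) := by
      rw [← Finset.sum_fiberwise (s := univ) (g := fun x : ZMod l => x ^ 2)]
      refine Finset.sum_congr rfl (fun v _ => Finset.sum_congr rfl (fun x hx => ?_))
      simp only [Finset.mem_filter, Finset.mem_univ, true_and] at hx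
      rw [hx]
    rw [h1]
    have h2 : ∀ v : ZMod l, ∑ x : ZMod l with x ^ 2 = v, (ZMod.stdAddChar (b * v) : ℂ)
        = (quadraticChar (ZMod l) v : ℂ) * ZMod.stdAddChar (b * v) + ZMod.stdAddChar (b * v) := by
      intro v
      rw [Finset.sum_const, nsmul_eq_mul]
      have h3 := quadraticChar_card_sqrts hchar v
      have h4 : ({x : ZMod l | x ^ 2 = v} : Set (ZMod l)).toFinset = (univ.filter (fun x : ZMod l => x ^ 2 = v)) := by
        ext x; simp
      rw [h4] at h3
      have h5 : ((univ.filter (fun x : ZMod l => x ^ 2 = v)).card : ℂ)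
          = (quadraticChar (ZMod l) v : ℂ) + 1 := by
        have : (((univ.filter (fun x : ZMod l => x ^ 2 = v)).card : ℤ) : ℂ)
          = ((quadraticChar (ZMod l) v + 1 : ℤ) : ℂ) := by rw [h3]
        push_cast at this
        exact this
      rw [h5]
      ring
    rw [Finset.sum_congr rfl (fun v _ => h2 v), Finset.sum_add_distrib]
    have h6 : ∑ v : ZMod l, (ZMod.stdAddChar (b * v) : ℂ) = 0 := by
      have := AddChar.sum_mulShift b (ZMod.isPrimitive_stdAddChar l)
      rw [if_neg hb] at this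
      rw [← Nat.cast_zero, ← this]
      exact Finset.sum_congr rfl (fun v _ => by rw [mul_comm])
    rw [h6, add_zero]
  have ha0 : (a : ZMod l) ≠ 0 := by
    rw [Ne, ZMod.intCast_zmod_eq_zero_iff_dvd]; exact ha
  rw [G_eq, G_eq, key _ ha0, key _ (by simp)]
  have h7 : ∑ v : ZMod l, (quadraticChar (ZMod l) v : ℂ) * ZMod.stdAddChar ((a : ZMod l) * v)
      = ∑ w : ZMod l, (quadraticChar (ZMod l) ((a : ZMod l)⁻¹ * w) : ℂ) * ZMod.stdAddChar w := by
    refine Fintype.sum_equiv (Equiv.mulLeft₀ (a : ZMod l) ha0) _ _ (fun v => ?_)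
    simp [ha0]
  rw [h7, Finset.mul_sum]
  refine Finset.sum_congr rfl (fun w _ => ?_)
  rw [map_mul, ← jacobiSym.legendreSym.to_jacobiSym, legendreSym]
  have h8 : quadraticChar (ZMod l) (a : ZMod l)⁻¹ = quadraticChar (ZMod l) (a : ZMod l) := by
    have h9 : quadraticChar (ZMod l) ((a : ZMod l) * (a : ZMod l)⁻¹) = 1 := by
      rw [mul_inv_cancel₀ ha0, map_one]
    rw [map_mul] at h9
    have h10 := quadraticChar_sq_one ha0
    have h11 : quadraticChar (ZMod l) (a : ZMod l) ≠ 0 := by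
      intro h0
      rw [h0] at h10
      norm_num at h10
    apply mul_left_cancel₀ h11
    rw [h9, ← pow_two, h10]
  rw [h8]
  push_cast
  simp only [one_mul]
  ring

/-- Gauss sums and the Jacobi symbol -/
theorem G_jacobi (c : ℕ) : Odd c → ∀ a : ℤ, IsCoprime a (c : ℤ) →
    G a c = (jacobiSym a c : ℂ) * G 1 c := by
  induction c using Nat.strong_induction_on with
  | _ c ih =>
    intro hodd a ha
    by_cases hc1 : c = 1
    · subst hc1
      simp [G, ec, jacobiSym.one_right]
    · have hc0 : c ≠ 0 := by rintro rfl; simp at hodd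
      obtain ⟨l, hl, hlc⟩ := Nat.exists_prime_and_dvd hc1
      obtain ⟨d, rfl⟩ := hlc
      have hfact : Fact l.Prime := ⟨hl⟩
      have hd0 : d ≠ 0 := by rintro rfl; simp at hc0
      have hl2 : l ≠ 2 := by
        rintro rfl
        rw [Nat.odd_mul] at hodd
        exact absurd hodd.1 (by decide)
      have hdodd : Odd d := (Nat.odd_mul.1 hodd).2
      have hcopl : IsCoprime a (l : ℤ) := by
        push_cast at ha
        exact ha.of_mul_right_left
      have hcopd : IsCoprime a (d : ℤ) := by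
        push_cast at ha
        exact ha.of_mul_right_right
      have hnd : ¬ (l : ℤ) ∣ a := by
        intro h
        have h1 : IsUnit (l : ℤ) := hcopl.isUnit_of_dvd' h dvd_rfl
        rw [Int.isUnit_iff] at h1
        have := hl.one_lt
        omega
      have hdlt : d < l * d := by
        have := hl.one_lt
        nlinarith [Nat.pos_of_ne_zero hd0]
      by_cases hld : l ∣ d
      · obtain ⟨e, rfl⟩ := hld
        have he0 : e ≠ 0 := by rintro rfl; simp at hd0
        have heodd : Odd e := (Nat.odd_mul.1 hdodd).2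
        have hcope : IsCoprime a (e : ℤ) := by
          push_cast at hcopd
          exact hcopd.of_mul_right_right
        have helt : e < l * (l * e) := by
          have h1 := hl.one_lt
          have h2 : e ≤ l * e := Nat.le_mul_of_pos_left e hl.pos
          omega
        have hn1 : ¬ (l : ℤ) ∣ 1 := by
          intro h
          have h1 : IsUnit (l : ℤ) := isUnit_of_dvd_one h
          rw [Int.isUnit_iff] at h1
          have := hl.one_lt
          omega
        rw [G_sq a l e hl hl2 he0 hnd, G_sq 1 l e hl hl2 he0 hn1, ih e helt heodd a hcope,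
          jacobiSym.mul_right' a hl.ne_zero (mul_ne_zero hl.ne_zero he0),
          jacobiSym.mul_right' a hl.ne_zero he0]
        have h2 : (jacobiSym a l : ℂ) * jacobiSym a l = 1 := by
          have h3 := jacobiSym.sq_one (Int.isCoprime_iff_gcd_eq_one.1 hcopl)
          rw [pow_two] at h3
          exact_mod_cast h3
        push_cast
        linear_combination (-(l : ℂ) * jacobiSym a e * G 1 e) * h2
      · have hcop : Nat.Coprime l d := (Nat.Prime.coprime_iff_not_dvd hl).2 hld
        have hcop' : IsCoprime (l : ℤ) (d : ℤ) := Nat.isCoprime_iff_coprime.2 hcop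
        have h1 : ¬ (l : ℤ) ∣ a * d := by
          intro h
          rcases (Nat.prime_iff_prime_int.1 hl).dvd_or_dvd h with h2 | h2
          · exact hnd h2
          · exact hld (by exact_mod_cast h2)
        have h2 : ¬ (l : ℤ) ∣ 1 * d := by
          intro h
          rw [one_mul] at h
          exact hld (by exact_mod_cast h)
        rw [G_mul a l d hl.ne_zero hd0 hcop, G_mul 1 l d hl.ne_zero hd0 hcop,
          G_prime (a * d) l hl2 h1, G_prime (1 * d) l hl2 h2,
          ih d hdlt hdodd (a * l) (hcopd.mul_left hcop'), ih d hdlt hdodd (1 * l) (by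
            rw [one_mul]; exact hcop'),
          jacobiSym.mul_right' a hl.ne_zero hd0, jacobiSym.mul_left, jacobiSym.mul_left,
          one_mul, one_mul]
        push_cast
        ring

/-- absolute value of the Gauss sum -/
theorem norm_G_one (c : ℕ) [NeZero c] (hc : Odd c) : ‖G 1 c‖ ^ 2 = c := by
  have h2u : IsUnit (2 : ZMod c) := by
    have : IsUnit ((2 : ℕ) : ZMod c) := by
      rw [ZMod.isUnit_iff_coprime]
      exact Nat.coprime_two_left.2 hc
    simpa using this
  have h1 : ((‖G 1 c‖ ^ 2 : ℝ) : ℂ) = c := by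
    push_cast
    rw [← Complex.mul_conj', G_eq, map_sum, Finset.sum_mul_sum, Finset.sum_comm]
    have h2 : ∀ n' : ZMod c, ∑ n : ZMod c, (ZMod.stdAddChar (((1 : ℤ) : ZMod c) * n ^ 2) : ℂ) *
        conj (ZMod.stdAddChar (((1 : ℤ) : ZMod c) * n' ^ 2) : ℂ)
        = ∑ h : ZMod c, ZMod.stdAddChar (h ^ 2) * ZMod.stdAddChar (n' * (2 * h)) := by
      intro n'
      rw [← Equiv.sum_comp (Equiv.addRight n')]
      refine Finset.sum_congr rfl (fun h _ => ?_)
      rw [← AddChar.map_neg_eq_conj, ← AddChar.map_add_eq_mul, ← AddChar.map_add_eq_mul]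
      congr 1
      simp only [Equiv.coe_addRight, Int.cast_one]
      ring
    rw [Finset.sum_congr rfl (fun n' _ => h2 n'), Finset.sum_comm]
    have h3 : ∀ h : ZMod c, ∑ n' : ZMod c, (ZMod.stdAddChar (h ^ 2) : ℂ) *
        ZMod.stdAddChar (n' * (2 * h)) = if h = 0 then (c : ℂ) else 0 := by
      intro h
      rw [← Finset.mul_sum, AddChar.sum_mulShift (2 * h) (ZMod.isPrimitive_stdAddChar c), ZMod.card]
      by_cases h0 : h = 0
      · subst h0; simp
      · rw [if_neg, if_neg h0]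
        · simp
        · intro h4
          exact h0 ((h2u.mul_right_eq_zero).1 h4)
    rw [Finset.sum_congr rfl (fun h _ => h3 h)]
    simp
  exact_mod_cast h1

/-- square roots of one -/
theorem card_sqrt_one (c : ℕ) [NeZero c] (hc : Odd c) :
    (univ.filter (fun y : ZMod c => y ^ 2 = 1)).card ≤ c.divisors.card := by
  set X : ZMod c → ℤ := fun y => (y.val : ℤ) with hX
  have hXc : ∀ y : ZMod c, ((X y : ℤ) : ZMod c) = y := by
    intro y
    simp [hX]
  have hc0 : (c : ℤ) ≠ 0 := by exact_mod_cast NeZero.ne c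
  apply Finset.card_le_card_of_injOn (fun y : ZMod c => Int.gcd (X y - 1) c)
  · intro y _
    simp only [Finset.mem_coe, Nat.mem_divisors]
    exact ⟨by exact_mod_cast Int.gcd_dvd_right (X y - 1) c, NeZero.ne c⟩
  · have key : ∀ y : ZMod c, y ^ 2 = 1 → ∀ m : ℕ, c = Int.gcd (X y - 1) c * m →
        (m : ℤ) ∣ X y + 1 := by
      intro y hy m hm
      have h2 : (c : ℤ) ∣ (X y - 1) * (X y + 1) := by
        rw [← ZMod.intCast_zmod_eq_zero_iff_dvd]
        push_cast
        rw [hXc]
        linear_combination hy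
      set g := Int.gcd (X y - 1) c with hg
      have hg0 : 0 < g := Int.gcd_pos_of_ne_zero_right _ hc0
      obtain ⟨D, hD⟩ : (g : ℤ) ∣ X y - 1 := Int.gcd_dvd_left _ _
      have h4 : ((g : ℤ) * (m : ℤ)) = (c : ℤ) := by
        have : ((g * m : ℕ) : ℤ) = (c : ℤ) := by rw [← hm]
        push_cast at this
        exact this
      have hcop : IsCoprime D (m : ℤ) := by
        rw [Int.isCoprime_iff_gcd_eq_one]
        have h3 := Int.gcd_mul_left (g : ℤ) D m
        rw [← hD, h4, ← hg] at h3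
        simp only [Int.natAbs_natCast] at h3
        have h5 : g * 1 = g * Int.gcd D m := by rw [mul_one]; exact h3
        exact (Nat.eq_of_mul_eq_mul_left hg0 h5).symm
      have h5 : (g : ℤ) * m ∣ (g : ℤ) * (D * (X y + 1)) := by
        rw [h4, ← mul_assoc, ← hD]
        exact h2
      have h6 : (m : ℤ) ∣ D * (X y + 1) :=
        (mul_dvd_mul_iff_left (by exact_mod_cast hg0.ne' : (g : ℤ) ≠ 0)).1 h5
      exact hcop.symm.dvd_of_dvd_mul_left h6
    intro y hy y' hy' heq
    simp only [Finset.coe_filter, Finset.mem_univ, true_and, Set.mem_ofPred_eq] at hy hy'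
    simp only at heq
    obtain ⟨m, hm⟩ : Int.gcd (X y - 1) c ∣ c := by
      exact_mod_cast Int.gcd_dvd_right (X y - 1) c
    have h1 := key y hy m hm
    have h2 := key y' hy' m (by rw [← heq]; exact hm)
    have hgl : (Int.gcd (X y - 1) c : ℤ) ∣ X y - 1 := Int.gcd_dvd_left _ _
    have hgr : (Int.gcd (X y - 1) c : ℤ) ∣ X y' - 1 := by rw [heq]; exact Int.gcd_dvd_left _ _
    set g := Int.gcd (X y - 1) c with hg
    have h3 : (g : ℤ) ∣ X y - X y' := by
      have := Int.dvd_sub hgl hgr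
      simpa using this
    have h4 : (m : ℤ) ∣ X y - X y' := by
      have := Int.dvd_sub h1 h2
      simpa using this
    have h5 : IsCoprime (g : ℤ) (m : ℤ) := by
      rw [Nat.isCoprime_iff_coprime]
      have h6 : Nat.gcd g m ∣ 2 := by
        have h7 : ((Nat.gcd g m : ℕ) : ℤ) ∣ X y - 1 :=
          (by exact_mod_cast Nat.gcd_dvd_left g m : ((Nat.gcd g m : ℕ) : ℤ) ∣ g).trans hgl
        have h8 : ((Nat.gcd g m : ℕ) : ℤ) ∣ X y + 1 :=
          (by exact_mod_cast Nat.gcd_dvd_right g m : ((Nat.gcd g m : ℕ) : ℤ) ∣ m).trans h1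
        have h9 := Int.dvd_sub h8 h7
        have e : X y + 1 - (X y - 1) = 2 := by ring
        rw [e] at h9
        exact_mod_cast h9
      have h7 : Nat.gcd g m ∣ c := (Nat.gcd_dvd_left g m).trans ⟨m, hm⟩
      have h8 := Nat.dvd_gcd h6 h7
      rw [Nat.coprime_two_left.2 hc] at h8
      exact Nat.dvd_one.1 h8
    have h6 : (c : ℤ) ∣ X y - X y' := by
      have h7 := h5.mul_dvd h3 h4
      have h8 : ((g : ℤ) * (m : ℤ)) = (c : ℤ) := by
        have : ((g * m : ℕ) : ℤ) = (c : ℤ) := by rw [← hm]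
        push_cast at this
        exact this
      rwa [h8] at h7
    rw [← ZMod.intCast_zmod_eq_zero_iff_dvd] at h6
    push_cast at h6
    rw [hXc, hXc] at h6
    exact sub_eq_zero.1 h6

/-- the Gauss sum at a unit -/
theorem G_unit (c : ℕ) [NeZero c] (hc : Odd c) (u x : (ZMod c)ˣ) :
    ∑ n : ZMod c, (ZMod.stdAddChar ((u : ZMod c) * (x : ZMod c) * n ^ 2) : ℂ) =
      (jacobiSym ((u : ZMod c).val : ℤ) c : ℂ) * (jacobiSym ((x : ZMod c).val : ℤ) c : ℂ) *
        G 1 c := by
  have h1 := G_jacobi c hc (((u : ZMod c).val : ℤ) * ((x : ZMod c).val : ℤ)) (by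
    have h2 : IsCoprime ((u : ZMod c).val : ℤ) (c : ℤ) :=
      Nat.isCoprime_iff_coprime.2 (ZMod.val_coe_unit_coprime u)
    have h3 : IsCoprime ((x : ZMod c).val : ℤ) (c : ℤ) :=
      Nat.isCoprime_iff_coprime.2 (ZMod.val_coe_unit_coprime x)
    exact h2.mul_left h3)
  rw [jacobiSym.mul_left, G_eq] at h1
  push_cast at h1
  simpa using h1

/-- nonunits do not contribute -/
theorem nonunit_sum (c : ℕ) [NeZero c] (hc : Odd c) (u : (ZMod c)ˣ) (x : ZMod c) (hx : ¬ IsUnit x) :
    ∑ y : ZMod c, (ZMod.stdAddChar ((u : ZMod c) * (2 * y + x * (1 - y ^ 2))) : ℂ) = 0 := by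
  have h2u : IsUnit (2 : ZMod c) := by
    have : IsUnit ((2 : ℕ) : ZMod c) := by
      rw [ZMod.isUnit_iff_coprime]
      exact Nat.coprime_two_left.2 hc
    simpa using this
  rw [isUnit_iff_mem_nonZeroDivisors_of_finite, mem_nonZeroDivisors_iff_right] at hx
  push Not at hx
  obtain ⟨h, hh, h0⟩ := hx
  have hh' : x * h = 0 := by rw [mul_comm]; exact hh
  set S := ∑ y : ZMod c, (ZMod.stdAddChar ((u : ZMod c) * (2 * y + x * (1 - y ^ 2))) : ℂ) with hS
  have h1 : S = ZMod.stdAddChar ((u : ZMod c) * (2 * h)) * S := by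
    conv_lhs => rw [hS, ← Equiv.sum_comp (Equiv.addRight h)]
    rw [hS, Finset.mul_sum]
    refine Finset.sum_congr rfl (fun y _ => ?_)
    rw [← AddChar.map_add_eq_mul]
    congr 1
    simp only [Equiv.coe_addRight]
    linear_combination (-(u : ZMod c) * (2 * y + h)) * hh'
  have h2 : (ZMod.stdAddChar ((u : ZMod c) * (2 * h)) : ℂ) ≠ 1 := by
    intro h3
    rw [← AddChar.map_zero_eq_one (ZMod.stdAddChar (N := c))] at h3
    have h4 := ZMod.injective_stdAddChar h3
    have h5 := (u.isUnit.mul_right_eq_zero).1 h4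
    exact h0 ((h2u.mul_right_eq_zero).1 h5)
  have h3 : (1 - (ZMod.stdAddChar ((u : ZMod c) * (2 * h)) : ℂ)) * S = 0 := by
    linear_combination h1
  rcases mul_eq_zero.1 h3 with h4 | h4
  · exact absurd (sub_eq_zero.1 h4).symm h2
  · exact h4

end Salie

open Salie in
/-- MODULE Salie.  Bound for Salie sums with equal arguments, all odd moduli, `u` a unit. -/
theorem salie_bound (c : ℕ) [NeZero c] (hc : Odd c) (u : (ZMod c)ˣ) :
    ‖∑ x : (ZMod c)ˣ, (jacobiSym ((x : ZMod c).val : ℤ) c : ℂ) *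
      ZMod.stdAddChar ((u : ZMod c) * ((x : ZMod c) + ((x⁻¹ : (ZMod c)ˣ) : ZMod c)))‖ ≤
    Real.sqrt c * c.divisors.card := by
  classical
  set T : ℂ := ∑ x : (ZMod c)ˣ, (jacobiSym ((x : ZMod c).val : ℤ) c : ℂ) *
      ZMod.stdAddChar ((u : ZMod c) * ((x : ZMod c) + ((x⁻¹ : (ZMod c)ˣ) : ZMod c))) with hT
  -- the main identity
  have h1 : conj (G 1 c) * (jacobiSym ((u : ZMod c).val : ℤ) c : ℂ) * T
      = ∑ x : (ZMod c)ˣ, ∑ y : ZMod c,
        (ZMod.stdAddChar ((u : ZMod c) * (2 * y + (x : ZMod c) * (1 - y ^ 2))) : ℂ) := by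
    rw [← Equiv.sum_comp (Equiv.inv (ZMod c)ˣ), hT, Finset.mul_sum]
    refine Finset.sum_congr rfl (fun x _ => ?_)
    have h2 : conj (G 1 c) * (jacobiSym ((u : ZMod c).val : ℤ) c : ℂ) *
        (jacobiSym ((x : ZMod c).val : ℤ) c : ℂ)
        = ∑ n : ZMod c, (ZMod.stdAddChar (-((u : ZMod c) * (x : ZMod c) * n ^ 2)) : ℂ) := by
      have h3 := congrArg conj (G_unit c hc u x)
      rw [map_sum, map_mul, map_mul, map_intCast, map_intCast] at h3
      simp_rw [AddChar.map_neg_eq_conj]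
      rw [h3]
      ring
    rw [← mul_assoc, h2, Finset.sum_mul]
    have hxx : (x : ZMod c) * ((x⁻¹ : (ZMod c)ˣ) : ZMod c) = 1 := x.mul_inv
    refine Finset.sum_nbij' (fun n : ZMod c => (x : ZMod c) * (1 - n))
      (fun y : ZMod c => 1 - ((x⁻¹ : (ZMod c)ˣ) : ZMod c) * y) (by simp) (by simp) ?_ ?_ ?_
    · intro n _
      linear_combination (n - 1) * hxx
    · intro y _
      linear_combination y * hxx
    · intro n _
      simp only [Equiv.inv_apply]
      rw [← AddChar.map_add_eq_mul]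
      congr 1
      linear_combination ((u : ZMod c) * x * (1 - n) ^ 2) * hxx
  have h2 : ∑ x : (ZMod c)ˣ, ∑ y : ZMod c,
      (ZMod.stdAddChar ((u : ZMod c) * (2 * y + (x : ZMod c) * (1 - y ^ 2))) : ℂ)
      = ∑ x : ZMod c, ∑ y : ZMod c,
        (ZMod.stdAddChar ((u : ZMod c) * (2 * y + x * (1 - y ^ 2))) : ℂ) := by
    refine Fintype.sum_of_injective (fun x : (ZMod c)ˣ => (x : ZMod c)) Units.val_injective _ _ ?_ ?_
    · intro x hx
      apply nonunit_sum c hc u x
      rintro ⟨v, rfl⟩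
      exact hx ⟨v, rfl⟩
    · intro x
      rfl
  have h3 : ∑ x : ZMod c, ∑ y : ZMod c,
        (ZMod.stdAddChar ((u : ZMod c) * (2 * y + x * (1 - y ^ 2))) : ℂ)
      = (c : ℂ) * ∑ y ∈ univ.filter (fun y : ZMod c => y ^ 2 = 1),
        (ZMod.stdAddChar ((u : ZMod c) * (2 * y)) : ℂ) := by
    rw [Finset.sum_comm, Finset.sum_filter, Finset.mul_sum]
    refine Finset.sum_congr rfl (fun y _ => ?_)
    have h4 : ∀ x : ZMod c, (ZMod.stdAddChar ((u : ZMod c) * (2 * y + x * (1 - y ^ 2))) : ℂ)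
        = ZMod.stdAddChar ((u : ZMod c) * (2 * y)) *
          ZMod.stdAddChar (x * ((u : ZMod c) * (1 - y ^ 2))) := by
      intro x
      rw [← AddChar.map_add_eq_mul]
      congr 1
      ring
    rw [Finset.sum_congr rfl (fun x _ => h4 x), ← Finset.mul_sum,
      AddChar.sum_mulShift _ (ZMod.isPrimitive_stdAddChar c), ZMod.card]
    by_cases hy : y ^ 2 = 1
    · rw [if_pos (by rw [hy]; simp), if_pos hy]
      ring
    · rw [if_neg, if_neg hy]
      · simp
      · intro h5
        have h6 := (u.isUnit.mul_right_eq_zero).1 h5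
        exact hy (sub_eq_zero.1 h6).symm
  have h4 := congrArg norm (h1.trans (h2.trans h3))
  have hJ : ‖(jacobiSym ((u : ZMod c).val : ℤ) c : ℂ)‖ = 1 := by
    have h5 : Int.gcd ((u : ZMod c).val : ℤ) c = 1 := by
      have := ZMod.val_coe_unit_coprime u
      exact_mod_cast this
    rcases jacobiSym.eq_one_or_neg_one h5 with h6 | h6 <;> rw [h6] <;> simp
  rw [norm_mul, norm_mul, hJ, mul_one, RCLike.norm_conj, norm_mul, Complex.norm_natCast] at h4
  have h5 : ‖∑ y ∈ univ.filter (fun y : ZMod c => y ^ 2 = 1),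
        (ZMod.stdAddChar ((u : ZMod c) * (2 * y)) : ℂ)‖ ≤ c.divisors.card := by
    calc ‖∑ y ∈ univ.filter (fun y : ZMod c => y ^ 2 = 1),
        (ZMod.stdAddChar ((u : ZMod c) * (2 * y)) : ℂ)‖
        ≤ ∑ y ∈ univ.filter (fun y : ZMod c => y ^ 2 = 1), ‖(ZMod.stdAddChar ((u : ZMod c) * (2 * y)) : ℂ)‖ :=
          norm_sum_le _ _
      _ = ((univ.filter (fun y : ZMod c => y ^ 2 = 1)).card : ℝ) := by
          rw [Finset.sum_congr rfl (fun y _ => AddChar.norm_apply _ _)]
          simp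
      _ ≤ c.divisors.card := by exact_mod_cast card_sqrt_one c hc
  have hc0 : (0 : ℝ) < c := by exact_mod_cast Nat.pos_of_ne_zero (NeZero.ne c)
  have hG : ‖G 1 c‖ = Real.sqrt c := by
    rw [← norm_G_one c hc, Real.sqrt_sq (norm_nonneg _)]
  have hs : 0 < Real.sqrt c := Real.sqrt_pos.2 hc0
  have h6 : Real.sqrt c * ‖T‖ ≤ Real.sqrt c * (Real.sqrt c * c.divisors.card) := by
    rw [← hG, h4, hG, ← mul_assoc, Real.mul_self_sqrt hc0.le]
    exact mul_le_mul_of_nonneg_left h5 hc0.le
  exact le_of_mul_le_mul_left h6 hs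

end Pool.Agent.Work.MP_af11aa_nt.K
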