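import Mathlib

/-!
Second moment of Kloosterman type sums over all arguments.
-/

namespace Pool.Agent.Work.MP_af11aa_nt.K

open Finset ComplexConjugate

/-- number of solutions of `x + 1/x = x' + 1/x'` -/
theorem second_count (k : ℕ) [NeZero k] (hk : Squarefree k) (x : (ZMod k)ˣ) :
    (univ.filter (fun x' : (ZMod k)ˣ => (x : ZMod k) + ((x⁻¹ : (ZMod k)ˣ) : ZMod k) =
      (x' : ZMod k) + ((x'⁻¹ : (ZMod k)ˣ) : ZMod k))).card ≤ k.divisors.card := by
  set X : (ZMod k)ˣ → ℤ := fun y => ((y : ZMod k).val : ℤ) with hX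
  have hXc : ∀ y : (ZMod k)ˣ, ((X y : ℤ) : ZMod k) = (y : ZMod k) := by
    intro y
    simp [hX]
  apply Finset.card_le_card_of_injOn (fun x' : (ZMod k)ˣ => Int.gcd (X x' - X x) k)
  · intro x' _
    simp only [Finset.mem_coe, Nat.mem_divisors]
    exact ⟨by exact_mod_cast Int.gcd_dvd_right (X x' - X x) k, NeZero.ne k⟩
  · -- key property
    have key : ∀ y : (ZMod k)ˣ, (x : ZMod k) + ((x⁻¹ : (ZMod k)ˣ) : ZMod k) =
        (y : ZMod k) + ((y⁻¹ : (ZMod k)ˣ) : ZMod k) → ∀ m : ℕ, k = Int.gcd (X y - X x) k * m →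
        (m : ℤ) ∣ X x * X y - 1 := by
      intro y hy m hm
      have h1 : ((y : ZMod k) - x) * (x * y - 1) = 0 := by
        have hx1 : (x : ZMod k) * ((x⁻¹ : (ZMod k)ˣ) : ZMod k) = 1 := x.mul_inv
        have hy1 : (y : ZMod k) * ((y⁻¹ : (ZMod k)ˣ) : ZMod k) = 1 := y.mul_inv
        linear_combination (-(x : ZMod k) * y) * hy + (y : ZMod k) * hx1 - (x : ZMod k) * hy1
      have h2 : (k : ℤ) ∣ (X y - X x) * (X x * X y - 1) := by
        rw [← ZMod.intCast_zmod_eq_zero_iff_dvd]
        push_cast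
        rw [hXc, hXc]
        exact h1
      set g := Int.gcd (X y - X x) k with hg
      have hg0 : 0 < g := Int.gcd_pos_of_ne_zero_right _ (by exact_mod_cast NeZero.ne k)
      obtain ⟨D, hD⟩ : (g : ℤ) ∣ X y - X x := Int.gcd_dvd_left _ _
      have hcop : IsCoprime D (m : ℤ) := by
        rw [Int.isCoprime_iff_gcd_eq_one]
        have h3 := Int.gcd_mul_left (g : ℤ) D m
        rw [← hD] at h3
        have h4 : ((g : ℤ) * (m : ℤ)) = (k : ℤ) := by
          have : ((g * m : ℕ) : ℤ) = (k : ℤ) := by rw [← hm]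
          push_cast at this
          exact this
        rw [h4, ← hg] at h3
        simp only [Int.natAbs_natCast] at h3
        have h5 : g * 1 = g * Int.gcd D m := by rw [mul_one]; exact h3
        exact (Nat.eq_of_mul_eq_mul_left hg0 h5).symm
      have h5 : (g : ℤ) * m ∣ (g : ℤ) * (D * (X x * X y - 1)) := by
        have h4 : ((g : ℤ) * (m : ℤ)) = (k : ℤ) := by
          have : ((g * m : ℕ) : ℤ) = (k : ℤ) := by rw [← hm]
          push_cast at this
          exact this
        rw [h4, ← mul_assoc, ← hD]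
        exact h2
      have h6 : (m : ℤ) ∣ D * (X x * X y - 1) :=
        (mul_dvd_mul_iff_left (by exact_mod_cast hg0.ne' : (g : ℤ) ≠ 0)).1 h5
      exact hcop.symm.dvd_of_dvd_mul_left h6
    intro y hy y' hy' heq
    simp only [Finset.coe_filter, Finset.mem_univ, true_and, Set.mem_ofPred_eq] at hy hy'
    simp only at heq
    have hgk : Int.gcd (X y - X x) k ∣ k := by
      exact_mod_cast Int.gcd_dvd_right (X y - X x) k
    obtain ⟨m, hm⟩ := hgk
    have h1 := key y hy m hm
    have h2 := key y' hy' m (by rw [← heq]; exact hm)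
    set g := Int.gcd (X y - X x) k with hg
    have h3 : (g : ℤ) ∣ X y - X y' := by
      have h4 : (g : ℤ) ∣ X y - X x := Int.gcd_dvd_left _ _
      have h5 : (g : ℤ) ∣ X y' - X x := by rw [heq]; exact Int.gcd_dvd_left _ _
      have := Int.dvd_sub h4 h5
      simpa using this
    have h4 : (m : ℤ) ∣ X y - X y' := by
      have h5 : (m : ℤ) ∣ X x * (X y - X y') := by
        have := Int.dvd_sub h1 h2
        have e : X x * X y - 1 - (X x * X y' - 1) = X x * (X y - X y') := by ring
        rwa [e] at this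
      have h6 : IsCoprime (X x) (m : ℤ) := by
        have h7 : Nat.Coprime (x : ZMod k).val k := ZMod.val_coe_unit_coprime x
        have h8 : IsCoprime (X x) (k : ℤ) := Nat.isCoprime_iff_coprime.2 h7
        refine IsCoprime.of_isCoprime_of_dvd_right h8 ?_
        exact ⟨g, by rw [mul_comm]; exact_mod_cast hm⟩
      exact h6.symm.dvd_of_dvd_mul_left h5
    have h5 : IsCoprime (g : ℤ) (m : ℤ) := by
      have h6 : Nat.Coprime g m := by
        rw [hm] at hk
        exact (Nat.squarefree_mul_iff.1 hk).1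
      exact Nat.isCoprime_iff_coprime.2 h6
    have h6 : (k : ℤ) ∣ X y - X y' := by
      have h7 := h5.mul_dvd h3 h4
      have h8 : ((g : ℤ) * (m : ℤ)) = (k : ℤ) := by
        have : ((g * m : ℕ) : ℤ) = (k : ℤ) := by rw [← hm]
        push_cast at this
        exact this
      rwa [h8] at h7
    rw [← ZMod.intCast_zmod_eq_zero_iff_dvd] at h6
    push_cast at h6
    rw [hXc, hXc] at h6
    exact Units.ext (sub_eq_zero.1 h6)

/-- MODULE Second.  Second moment of Kloosterman type sums over all arguments, squarefree modulus. -/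
theorem second_moment (k : ℕ) [NeZero k] (hk : Squarefree k) (W : (ZMod k)ˣ → ℂ)
    (hW : ∀ x, ‖W x‖ ≤ 1) :
    ∑ u : ZMod k, ‖∑ x : (ZMod k)ˣ, W x *
      ZMod.stdAddChar (u * ((x : ZMod k) + ((x⁻¹ : (ZMod k)ˣ) : ZMod k)))‖ ^ 2 ≤
    (k : ℝ) ^ 2 * k.divisors.card := by
  set f : (ZMod k)ˣ → ZMod k := fun x => (x : ZMod k) + ((x⁻¹ : (ZMod k)ˣ) : ZMod k) with hf
  have h1 : ((∑ u : ZMod k, ‖∑ x : (ZMod k)ˣ, W x * ZMod.stdAddChar (u * f x)‖ ^ 2 : ℝ) : ℂ)
      = (k : ℂ) * ∑ x : (ZMod k)ˣ, ∑ x' : (ZMod k)ˣ,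
          if f x = f x' then W x * conj (W x') else 0 := by
    push_cast
    have h2 : ∀ u : ZMod k, ((‖∑ x : (ZMod k)ˣ, W x * ZMod.stdAddChar (u * f x)‖ : ℂ)) ^ 2
        = ∑ x : (ZMod k)ˣ, ∑ x' : (ZMod k)ˣ, W x * conj (W x') *
          ZMod.stdAddChar (u * (f x - f x')) := by
      intro u
      rw [← Complex.mul_conj', map_sum, Finset.sum_mul_sum]
      refine Finset.sum_congr rfl (fun x _ => Finset.sum_congr rfl (fun x' _ => ?_))
      have h4 : conj (W x' * ZMod.stdAddChar (u * f x'))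
          = conj (W x') * ZMod.stdAddChar (-(u * f x')) := by
        rw [map_mul, AddChar.map_neg_eq_conj]
      have h3 : u * (f x - f x') = u * f x + -(u * f x') := by ring
      rw [h4, h3, AddChar.map_add_eq_mul]
      ring
    rw [Finset.sum_congr rfl (fun u _ => h2 u), Finset.sum_comm, Finset.mul_sum]
    refine Finset.sum_congr rfl (fun x _ => ?_)
    rw [Finset.sum_comm, Finset.mul_sum]
    refine Finset.sum_congr rfl (fun x' _ => ?_)
    rw [← Finset.mul_sum, AddChar.sum_mulShift (f x - f x') (ZMod.isPrimitive_stdAddChar k)]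
    by_cases h : f x = f x'
    · rw [if_pos (sub_eq_zero.2 h), if_pos h, ZMod.card]
      ring
    · rw [if_neg (sub_ne_zero.2 h), if_neg h]
      simp
  have h2 : ∑ u : ZMod k, ‖∑ x : (ZMod k)ˣ, W x * ZMod.stdAddChar (u * f x)‖ ^ 2
      = ‖(k : ℂ) * ∑ x : (ZMod k)ˣ, ∑ x' : (ZMod k)ˣ,
          if f x = f x' then W x * conj (W x') else 0‖ := by
    rw [← h1, Complex.norm_real, Real.norm_of_nonneg]
    exact Finset.sum_nonneg fun u _ => by positivity
  rw [h2, norm_mul, Complex.norm_natCast]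
  have h3 : ‖∑ x : (ZMod k)ˣ, ∑ x' : (ZMod k)ˣ,
      if f x = f x' then W x * conj (W x') else 0‖ ≤ (k : ℝ) * k.divisors.card := by
    calc ‖∑ x : (ZMod k)ˣ, ∑ x' : (ZMod k)ˣ, if f x = f x' then W x * conj (W x') else 0‖
        ≤ ∑ x : (ZMod k)ˣ, ‖∑ x' : (ZMod k)ˣ, if f x = f x' then W x * conj (W x') else 0‖ :=
          norm_sum_le _ _
      _ ≤ ∑ _x : (ZMod k)ˣ, (k.divisors.card : ℝ) := by
          refine Finset.sum_le_sum (fun x _ => ?_)
          calc ‖∑ x' : (ZMod k)ˣ, if f x = f x' then W x * conj (W x') else 0‖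
              ≤ ∑ x' : (ZMod k)ˣ, ‖if f x = f x' then W x * conj (W x') else 0‖ :=
                norm_sum_le _ _
            _ ≤ ∑ x' : (ZMod k)ˣ, if f x = f x' then (1 : ℝ) else 0 := by
                refine Finset.sum_le_sum (fun x' _ => ?_)
                by_cases h : f x = f x'
                · rw [if_pos h, if_pos h, norm_mul, RCLike.norm_conj]
                  exact mul_le_one₀ (hW x) (norm_nonneg _) (hW x')
                · rw [if_neg h, if_neg h, norm_zero]
            _ = ((univ.filter (fun x' : (ZMod k)ˣ => f x = f x')).card : ℝ) := by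
                rw [Finset.sum_boole]
            _ ≤ (k.divisors.card : ℝ) := by
                exact_mod_cast second_count k hk x
      _ ≤ (k : ℝ) * k.divisors.card := by
          rw [Finset.sum_const, nsmul_eq_mul, Finset.card_univ]
          apply mul_le_mul_of_nonneg_right _ (by positivity)
          have : Fintype.card (ZMod k)ˣ ≤ Fintype.card (ZMod k) :=
            Fintype.card_le_of_injective _ Units.val_injective
          rw [ZMod.card] at this
          exact_mod_cast this
  calc (k : ℝ) * _ ≤ (k : ℝ) * ((k : ℝ) * k.divisors.card) :=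
        mul_le_mul_of_nonneg_left h3 (by positivity)
    _ = (k : ℝ) ^ 2 * k.divisors.card := by ring

end Pool.Agent.Work.MP_af11aa_nt.K
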