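import Mathlib
import Pool.Agent.Work.MP_af11aa_nt.K.Salie
import Pool.Agent.Work.MP_af11aa_nt.K.Second

namespace Pool.Agent.Work.MP_af11aa_nt.K

noncomputable section

/-- the Chinese remainder theorem for unit groups. -/
def crtU {a b : ℕ} (h : a.Coprime b) : (ZMod (a * b))ˣ ≃* (ZMod a)ˣ × (ZMod b)ˣ :=
  (Units.mapEquiv (ZMod.chineseRemainder h).toMulEquiv).trans MulEquiv.prodUnits

lemma crtU_fst {a b : ℕ} (h : a.Coprime b) (x : (ZMod (a * b))ˣ) :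
    (crtU h x).1 = ZMod.unitsMap (dvd_mul_right a b) x := by
  ext
  have h1 : (((RingHom.fst (ZMod a) (ZMod b)).comp (ZMod.chineseRemainder h).toRingHom) :
      ZMod (a * b) →+* ZMod a) = ZMod.castHom (dvd_mul_right a b) (ZMod a) :=
    Subsingleton.elim _ _
  exact RingHom.congr_fun h1 (x : ZMod (a * b))

lemma crtU_snd {a b : ℕ} (h : a.Coprime b) (x : (ZMod (a * b))ˣ) :
    (crtU h x).2 = ZMod.unitsMap (dvd_mul_left b a) x := by
  ext
  have h1 : (((RingHom.snd (ZMod a) (ZMod b)).comp (ZMod.chineseRemainder h).toRingHom) :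
      ZMod (a * b) →+* ZMod b) = ZMod.castHom (dvd_mul_left b a) (ZMod b) :=
    Subsingleton.elim _ _
  exact RingHom.congr_fun h1 (x : ZMod (a * b))

lemma crt_sum {a b : ℕ} [NeZero a] [NeZero b] (h : a.Coprime b)
    (F : (ZMod a)ˣ → (ZMod b)ˣ → ℂ) :
    ∑ x : (ZMod (a * b))ˣ, F (ZMod.unitsMap (dvd_mul_right a b) x)
      (ZMod.unitsMap (dvd_mul_left b a) x) = ∑ y, ∑ z, F y z := by
  rw [← Fintype.sum_prod_type' F]
  refine Fintype.sum_equiv (crtU h).toEquiv _ _ ?_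
  intro x
  have e1 := crtU_fst h x
  have e2 := crtU_snd h x
  change F _ _ = F ((crtU h x).1) ((crtU h x).2)
  rw [e1, e2]

lemma std_crt {a b : ℕ} [NeZero a] [NeZero b] (h : a.Coprime b) (x : ZMod (a * b)) :
    ZMod.stdAddChar x =
      (ZMod.stdAddChar (((b : ZMod a))⁻¹ * ZMod.castHom (dvd_mul_right a b) (ZMod a) x) *
        ZMod.stdAddChar (((a : ZMod b))⁻¹ * ZMod.castHom (dvd_mul_left b a) (ZMod b) x) : ℂ) := by
  set z : ℤ := (x.val : ℤ) with hz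
  have hx : x = ((z : ℤ) : ZMod (a * b)) := by rw [hz]; simp
  set b' : ℤ := ((((b : ZMod a))⁻¹).val : ℤ) with hb'
  set a' : ℤ := ((((a : ZMod b))⁻¹).val : ℤ) with ha'
  have hbb : ((b' : ℤ) : ZMod a) = ((b : ZMod a))⁻¹ := by rw [hb']; simp
  have haa : ((a' : ℤ) : ZMod b) = ((a : ZMod b))⁻¹ := by rw [ha']; simp
  have hbinv : (b : ZMod a) * ((b : ZMod a))⁻¹ = 1 := ZMod.coe_mul_inv_eq_one b h.symm
  have hainv : (a : ZMod b) * ((a : ZMod b))⁻¹ = 1 := ZMod.coe_mul_inv_eq_one a h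
  have e1 : (((b : ZMod a))⁻¹ * ZMod.castHom (dvd_mul_right a b) (ZMod a) x) =
      ((b' * z : ℤ) : ZMod a) := by
    rw [hx, map_intCast, ← hbb]; push_cast; ring
  have e2 : (((a : ZMod b))⁻¹ * ZMod.castHom (dvd_mul_left b a) (ZMod b) x) =
      ((a' * z : ℤ) : ZMod b) := by
    rw [hx, map_intCast, ← haa]; push_cast; ring
  have hcong : ((z * (b * b' + a * a') : ℤ) : ZMod (a * b)) = ((z : ℤ) : ZMod (a * b)) := by
    rw [ZMod.intCast_eq_intCast_iff]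
    have h1 : z * (b * b' + a * a') ≡ z [ZMOD a] := by
      rw [← ZMod.intCast_eq_intCast_iff]
      push_cast
      rw [hbb, hbinv, ZMod.natCast_self]
      ring
    have h2 : z * (b * b' + a * a') ≡ z [ZMOD b] := by
      rw [← ZMod.intCast_eq_intCast_iff]
      push_cast
      rw [haa, hainv, ZMod.natCast_self]
      ring
    have h3 := (Int.modEq_and_modEq_iff_modEq_mul (a := z * (b * b' + a * a')) (b := z)
      (m := a) (n := b) (by simpa using h)).1 ⟨h1, h2⟩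
    exact_mod_cast h3
  rw [e1, e2, hx, ← hcong, ZMod.stdAddChar_coe, ZMod.stdAddChar_coe, ZMod.stdAddChar_coe,
    ← Complex.exp_add]
  congr 1
  have ha0 : (a : ℂ) ≠ 0 := by exact_mod_cast NeZero.ne a
  have hb0 : (b : ℂ) ≠ 0 := by exact_mod_cast NeZero.ne b
  push_cast
  field_simp

lemma castHom_unit {a n : ℕ} (h : a ∣ n) (x : (ZMod n)ˣ) :
    ZMod.castHom h (ZMod a) (x : ZMod n) = ((ZMod.unitsMap h x : (ZMod a)ˣ) : ZMod a) := rfl

lemma castHom_sum {a n : ℕ} (h : a ∣ n) (m : ℕ) (x : (ZMod n)ˣ) :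
    ZMod.castHom h (ZMod a) ((m : ZMod n) * ((x : ZMod n) + ((x⁻¹ : (ZMod n)ˣ) : ZMod n))) =
      (m : ZMod a) * (((ZMod.unitsMap h x : (ZMod a)ˣ) : ZMod a) +
        (((ZMod.unitsMap h x)⁻¹ : (ZMod a)ˣ) : ZMod a)) := by
  rw [map_mul, map_add, map_natCast, castHom_unit, castHom_unit, map_inv]

/-- the sum of the absolute values of the partial sums over the first modulus. -/
def AW {k1 k2 : ℕ} [NeZero k1] [NeZero k2] (h : k1.Coprime k2) (W : (ZMod (k1 * k2))ˣ → ℂ)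
    (u : ZMod k1) : ℝ :=
  ∑ z : (ZMod k2)ˣ, ‖∑ y : (ZMod k1)ˣ, W ((crtU h).symm (y, z)) *
    ZMod.stdAddChar (u * ((y : ZMod k1) + ((y⁻¹ : (ZMod k1)ˣ) : ZMod k1)))‖

lemma AW_nonneg {k1 k2 : ℕ} [NeZero k1] [NeZero k2] (h : k1.Coprime k2)
    (W : (ZMod (k1 * k2))ˣ → ℂ) (u : ZMod k1) : 0 ≤ AW h W u :=
  Finset.sum_nonneg fun _ _ ↦ norm_nonneg _

lemma crt_inner {k1 k2 : ℕ} [NeZero k1] [NeZero k2] (h : k1.Coprime k2)
    (W : (ZMod (k1 * k2))ˣ → ℂ) (v : ZMod (k1 * k2)) :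
    ‖∑ y : (ZMod (k1 * k2))ˣ, W y * ZMod.stdAddChar
        (v * ((y : ZMod (k1 * k2)) + ((y⁻¹ : (ZMod (k1 * k2))ˣ) : ZMod (k1 * k2))))‖ ≤
      AW h W (((k2 : ZMod k1))⁻¹ * ZMod.castHom (dvd_mul_right k1 k2) (ZMod k1) v) := by
  set u : ZMod k1 := ((k2 : ZMod k1))⁻¹ * ZMod.castHom (dvd_mul_right k1 k2) (ZMod k1) v with hu
  set u' : ZMod k2 := ((k1 : ZMod k2))⁻¹ * ZMod.castHom (dvd_mul_left k2 k1) (ZMod k2) v with hu'
  let F : (ZMod k1)ˣ → (ZMod k2)ˣ → ℂ := fun y z ↦ (W ((crtU h).symm (y, z)) *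
        ZMod.stdAddChar (u * ((y : ZMod k1) + ((y⁻¹ : (ZMod k1)ˣ) : ZMod k1)))) *
        ZMod.stdAddChar (u' * ((z : ZMod k2) + ((z⁻¹ : (ZMod k2)ˣ) : ZMod k2)))
  have h1 : ∀ x : (ZMod (k1 * k2))ˣ, W x * ZMod.stdAddChar
      (v * ((x : ZMod (k1 * k2)) + ((x⁻¹ : (ZMod (k1 * k2))ˣ) : ZMod (k1 * k2)))) =
      F (ZMod.unitsMap (dvd_mul_right k1 k2) x) (ZMod.unitsMap (dvd_mul_left k2 k1) x) := by
    intro x
    simp only [F]
    have e0 : (crtU h).symm (ZMod.unitsMap (dvd_mul_right k1 k2) x,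
        ZMod.unitsMap (dvd_mul_left k2 k1) x) = x := by
      rw [MulEquiv.symm_apply_eq, ← crtU_fst h, ← crtU_snd h]
    rw [e0, std_crt h, mul_assoc]
    congr 2
    · congr 1
      rw [map_mul, map_add, castHom_unit, castHom_unit, map_inv, hu]
      ring
    · congr 1
      rw [map_mul, map_add, castHom_unit, castHom_unit, map_inv, hu']
      ring
  rw [Finset.sum_congr rfl fun x _ ↦ h1 x, crt_sum h F, Finset.sum_comm]
  unfold AW
  simp only [F]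
  refine (norm_sum_le _ _).trans (Finset.sum_le_sum fun z _ ↦ ?_)
  rw [← Finset.sum_mul, norm_mul]
  have : ‖(ZMod.stdAddChar (u' * ((z : ZMod k2) + ((z⁻¹ : (ZMod k2)ˣ) : ZMod k2))) : ℂ)‖ = 1 :=
    AddChar.norm_apply _ _
  rw [this, mul_one]

theorem crt_bound {a k1 k2 : ℕ} [NeZero a] [NeZero k1] [NeZero k2]
    (h1 : a.Coprime (k1 * k2)) (h2 : k1.Coprime k2) (ha : Odd a) {m : ℕ} (hm : m.Coprime a)
    (W : (ZMod (k1 * k2))ˣ → ℂ) (κ : (ZMod (a * (k1 * k2)))ˣ → ℂ)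
    (hκ : ∀ x, κ x = (jacobiSym (((ZMod.unitsMap (dvd_mul_right a (k1 * k2)) x :
      (ZMod a)ˣ) : ZMod a).val : ℤ) a : ℂ) * W (ZMod.unitsMap (dvd_mul_left (k1 * k2) a) x)) :
    ‖∑ x : (ZMod (a * (k1 * k2)))ˣ, κ x * ZMod.stdAddChar ((m : ZMod (a * (k1 * k2))) *
      ((x : ZMod (a * (k1 * k2))) + ((x⁻¹ : (ZMod (a * (k1 * k2)))ˣ) : ZMod (a * (k1 * k2)))))‖ ≤
    Real.sqrt a * a.divisors.card * AW h2 W (((k2 : ZMod k1))⁻¹ * (((a : ZMod k1))⁻¹ * m)) := by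
  have hinv : ∀ {n : ℕ} (c : ZMod n), IsUnit c → IsUnit (c⁻¹) := by
    intro n c hc
    have := ZMod.mul_inv_of_unit c hc
    exact IsUnit.of_mul_eq_one_right c this
  have hku : IsUnit (((k1 * k2 : ℕ) : ZMod a)) := (ZMod.isUnit_iff_coprime _ _).2 h1.symm
  have hmu : IsUnit ((m : ZMod a)) := (ZMod.isUnit_iff_coprime _ _).2 hm
  have hu0 : IsUnit ((((k1 * k2 : ℕ) : ZMod a))⁻¹ * (m : ZMod a)) := (hinv _ hku).mul hmu
  set u0 : (ZMod a)ˣ := hu0.unit with hu0def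
  have hu0v : (u0 : ZMod a) = (((k1 * k2 : ℕ) : ZMod a))⁻¹ * (m : ZMod a) := hu0.unit_spec
  set v : ZMod (k1 * k2) := ((a : ZMod (k1 * k2)))⁻¹ * (m : ZMod (k1 * k2)) with hv
  let F : (ZMod a)ˣ → (ZMod (k1 * k2))ˣ → ℂ := fun y z ↦
        ((jacobiSym ((y : ZMod a).val : ℤ) a : ℂ) *
          ZMod.stdAddChar ((u0 : ZMod a) * ((y : ZMod a) + ((y⁻¹ : (ZMod a)ˣ) : ZMod a)))) *
        (W z * ZMod.stdAddChar (v * ((z : ZMod (k1 * k2)) +
          ((z⁻¹ : (ZMod (k1 * k2))ˣ) : ZMod (k1 * k2)))))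
  have e1 : ∀ x : (ZMod (a * (k1 * k2)))ˣ, κ x * ZMod.stdAddChar ((m : ZMod (a * (k1 * k2))) *
      ((x : ZMod (a * (k1 * k2))) + ((x⁻¹ : (ZMod (a * (k1 * k2)))ˣ) : ZMod (a * (k1 * k2))))) =
      F (ZMod.unitsMap (dvd_mul_right a (k1 * k2)) x)
        (ZMod.unitsMap (dvd_mul_left (k1 * k2) a) x) := by
    intro x
    simp only [F]
    rw [hκ, std_crt h1, castHom_sum, castHom_sum, hu0v, hv]
    simp only [mul_assoc]
    ring
  rw [Finset.sum_congr rfl fun x _ ↦ e1 x, crt_sum h1 F]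
  simp only [F]
  simp_rw [← Finset.mul_sum]
  rw [← Finset.sum_mul, norm_mul]
  have h3 := salie_bound a ha u0
  have h4 := crt_inner h2 W v
  have h5 : ZMod.castHom (dvd_mul_right k1 k2) (ZMod k1) v = ((a : ZMod k1))⁻¹ * m := by
    rw [hv, map_mul, map_natCast]
    congr 1
    have hau : IsUnit ((a : ZMod (k1 * k2))) := (ZMod.isUnit_iff_coprime _ _).2 h1
    have hau' : IsUnit ((a : ZMod k1)) := (ZMod.isUnit_iff_coprime _ _).2
      (Nat.Coprime.coprime_dvd_right (dvd_mul_right k1 k2) h1)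
    have h6 := ZMod.mul_inv_of_unit _ hau
    have h7 := congrArg (ZMod.castHom (dvd_mul_right k1 k2) (ZMod k1)) h6
    rw [map_mul, map_natCast, map_one] at h7
    have h8 := ZMod.mul_inv_of_unit _ hau'
    exact hau'.mul_left_cancel (h7.trans h8.symm)
  rw [h5] at h4
  exact mul_le_mul h3 h4 (norm_nonneg _) (by positivity)

end

end Pool.Agent.Work.MP_af11aa_nt.K
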