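import Mathlib
import Pool.Agent.Work.MP_af11aa_nt.K.Crt

namespace Pool.Agent.Work.MP_af11aa_nt.K

noncomputable section

lemma card_units_le (k : ℕ) [NeZero k] : (Fintype.card (ZMod k)ˣ : ℝ) ≤ k := by
  rw [ZMod.card_units_eq_totient]
  exact_mod_cast Nat.totient_le k

theorem AW_second {k1 k2 : ℕ} [NeZero k1] [NeZero k2] (h : k1.Coprime k2) (hsq : Squarefree k1)
    (W : (ZMod (k1 * k2))ˣ → ℂ) (hW : ∀ x, ‖W x‖ ≤ 1) :
    ∑ u : ZMod k1, AW h W u ^ 2 ≤ (k2 : ℝ) ^ 2 * ((k1 : ℝ) ^ 2 * k1.divisors.card) := by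
  have h1 : ∀ u : ZMod k1, AW h W u ^ 2 ≤ (Fintype.card (ZMod k2)ˣ : ℝ) * ∑ z : (ZMod k2)ˣ,
      ‖∑ y : (ZMod k1)ˣ, W ((crtU h).symm (y, z)) *
        ZMod.stdAddChar (u * ((y : ZMod k1) + ((y⁻¹ : (ZMod k1)ˣ) : ZMod k1)))‖ ^ 2 := by
    intro u
    unfold AW
    have := sq_sum_le_card_mul_sum_sq (s := (Finset.univ : Finset (ZMod k2)ˣ))
      (f := fun z ↦ ‖∑ y : (ZMod k1)ˣ, W ((crtU h).symm (y, z)) *
        ZMod.stdAddChar (u * ((y : ZMod k1) + ((y⁻¹ : (ZMod k1)ˣ) : ZMod k1)))‖)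
    rwa [Finset.card_univ] at this
  have h2 : ∀ z : (ZMod k2)ˣ, ∑ u : ZMod k1, ‖∑ y : (ZMod k1)ˣ, W ((crtU h).symm (y, z)) *
        ZMod.stdAddChar (u * ((y : ZMod k1) + ((y⁻¹ : (ZMod k1)ˣ) : ZMod k1)))‖ ^ 2 ≤
        (k1 : ℝ) ^ 2 * k1.divisors.card := fun z ↦
    second_moment k1 hsq (fun y ↦ W ((crtU h).symm (y, z))) (fun y ↦ hW _)
  have hc := card_units_le k2
  calc ∑ u : ZMod k1, AW h W u ^ 2
      ≤ ∑ u : ZMod k1, (Fintype.card (ZMod k2)ˣ : ℝ) * ∑ z : (ZMod k2)ˣ,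
      ‖∑ y : (ZMod k1)ˣ, W ((crtU h).symm (y, z)) *
        ZMod.stdAddChar (u * ((y : ZMod k1) + ((y⁻¹ : (ZMod k1)ˣ) : ZMod k1)))‖ ^ 2 :=
        Finset.sum_le_sum fun u _ ↦ h1 u
    _ = (Fintype.card (ZMod k2)ˣ : ℝ) * ∑ z : (ZMod k2)ˣ, ∑ u : ZMod k1,
      ‖∑ y : (ZMod k1)ˣ, W ((crtU h).symm (y, z)) *
        ZMod.stdAddChar (u * ((y : ZMod k1) + ((y⁻¹ : (ZMod k1)ˣ) : ZMod k1)))‖ ^ 2 := by
        rw [← Finset.mul_sum, Finset.sum_comm]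
    _ ≤ (Fintype.card (ZMod k2)ˣ : ℝ) * ∑ _z : (ZMod k2)ˣ, (k1 : ℝ) ^ 2 * k1.divisors.card := by
        gcongr with z
        exact h2 z
    _ = (Fintype.card (ZMod k2)ˣ : ℝ) * ((Fintype.card (ZMod k2)ˣ : ℝ) *
        ((k1 : ℝ) ^ 2 * k1.divisors.card)) := by
        rw [Finset.sum_const, Finset.card_univ, nsmul_eq_mul]
    _ ≤ (k2 : ℝ) * ((k2 : ℝ) * ((k1 : ℝ) ^ 2 * k1.divisors.card)) := by gcongr
    _ = _ := by ring

lemma card_class_le {k : ℕ} (hk : 0 < k) (R r : ℕ) :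
    (((Finset.Icc 1 R).filter (fun a ↦ a ≡ r [MOD k])).card : ℝ) ≤ R / k + 1 := by
  have h := Nat.Ioc_filter_modEq_card 0 R hk r
  have e : Finset.Ioc 0 R = Finset.Icc 1 R := by ext x; simp [Nat.lt_iff_add_one_le]
  rw [e] at h
  have hk' : (0 : ℝ) < k := by exact_mod_cast hk
  have h2 : ((((Finset.Icc 1 R).filter (fun a ↦ a ≡ r [MOD k])).card : ℤ) : ℝ) ≤ R / k + 1 := by
    rw [h]
    have hq : (0 : ℚ) < k := by exact_mod_cast hk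
    have f1 := Int.floor_le (((R : ℕ) - (r : ℕ) : ℚ) / k)
    have f2 := Int.lt_floor_add_one ((((0 : ℕ) : ℚ) - (r : ℕ) : ℚ) / k)
    have f1' : ((⌊((R : ℕ) - (r : ℕ) : ℚ) / k⌋ : ℤ) : ℝ) ≤ ((R : ℝ) - r) / k := by
      have : (((⌊((R : ℕ) - (r : ℕ) : ℚ) / k⌋ : ℤ) : ℚ) : ℝ) ≤ ((((R : ℕ) - (r : ℕ) : ℚ) / k : ℚ) : ℝ) := by
        exact_mod_cast f1
      push_cast at this
      exact this
    have f2' : (((0 : ℝ)) - r) / k < ((⌊(((0 : ℕ) : ℚ) - (r : ℕ) : ℚ) / k⌋ : ℤ) : ℝ) + 1 := by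
      have : (((((0 : ℕ) : ℚ) - (r : ℕ) : ℚ) / k : ℚ) : ℝ) <
          (((⌊(((0 : ℕ) : ℚ) - (r : ℕ) : ℚ) / k⌋ : ℤ) + 1 : ℚ) : ℝ) := by
        exact_mod_cast f2
      push_cast at this
      exact this
    rw [Int.cast_max]
    apply max_le
    · push_cast
      push_cast at f1' f2'
      have : ((R : ℝ) - r) / k - ((0 - r) / k) = R / k := by ring
      linarith
    · push_cast; positivity
  exact_mod_cast h2

theorem class_sum {k : ℕ} [NeZero k] {b : ZMod k} (hb : IsUnit b) (R : ℕ) {g : ZMod k → ℝ}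
    (hg : ∀ u, 0 ≤ g u) :
    ∑ a ∈ (Finset.Icc 1 R).filter (fun a ↦ a.Coprime k), g (b * ((a : ZMod k))⁻¹) ≤
      (R / k + 1) * ∑ u : ZMod k, g u := by
  classical
  rw [← Finset.sum_fiberwise_of_maps_to (t := Finset.univ) (g := fun a : ℕ ↦ b * ((a : ZMod k))⁻¹)
    (fun _ _ ↦ Finset.mem_univ _), Finset.mul_sum]
  refine Finset.sum_le_sum fun u _ ↦ ?_
  set S : Finset ℕ := ((Finset.Icc 1 R).filter (fun a : ℕ ↦ a.Coprime k)).filter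
    (fun a : ℕ ↦ b * ((a : ZMod k))⁻¹ = u) with hS
  have h1 : ∑ a ∈ S, g (b * ((a : ZMod k))⁻¹) = S.card * g u := by
    rw [Finset.sum_congr rfl (g := fun _ ↦ g u), Finset.sum_const, nsmul_eq_mul]
    intro a ha
    rw [(Finset.mem_filter.1 ha).2]
  rw [h1]
  refine mul_le_mul_of_nonneg_right ?_ (hg u)
  rcases S.eq_empty_or_nonempty with he | ⟨a0, ha0⟩
  · rw [he]; simp; positivity
  · refine le_trans ?_ (card_class_le (NeZero.pos k) R a0)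
    have hsub : S ⊆ (Finset.Icc 1 R).filter (fun a ↦ a ≡ a0 [MOD k]) := by
      intro a ha
      rw [hS, Finset.mem_filter, Finset.mem_filter] at ha ha0
      rw [Finset.mem_filter]
      refine ⟨ha.1.1, ?_⟩
      have hau : IsUnit ((a : ZMod k)) := (ZMod.isUnit_iff_coprime _ _).2 ha.1.2
      have ha0u : IsUnit ((a0 : ZMod k)) := (ZMod.isUnit_iff_coprime _ _).2 ha0.1.2
      have h2 : ((a : ZMod k))⁻¹ = ((a0 : ZMod k))⁻¹ := hb.mul_left_cancel (ha.2.trans ha0.2.symm)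
      have h3 : (a : ZMod k) = (a0 : ZMod k) := by
        calc (a : ZMod k) = (a : ZMod k) * ((a0 : ZMod k) * ((a0 : ZMod k))⁻¹) := by
              rw [ZMod.mul_inv_of_unit _ ha0u, mul_one]
          _ = (a : ZMod k) * ((a0 : ZMod k) * ((a : ZMod k))⁻¹) := by rw [h2]
          _ = (a0 : ZMod k) * ((a : ZMod k) * ((a : ZMod k))⁻¹) := by ring
          _ = _ := by rw [ZMod.mul_inv_of_unit _ hau, mul_one]
      exact (ZMod.natCast_eq_natCast_iff _ _ _).1 h3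
    exact_mod_cast Finset.card_le_card hsub

end

end Pool.Agent.Work.MP_af11aa_nt.K
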