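import Mathlib
import Pool.Agent.Work.MP_af11aa_nt.K.Mult
import Pool.Agent.Work.MP_af11aa_nt.K.Sec2

namespace Pool.Agent.Work.MP_af11aa_nt.K

open Pool.Agent.Work.MP_af11aa_nt

noncomputable section

/-- the sign in the reciprocity law. -/
def sg (t : Bool) (j : ℕ) : ℤ := if t = true ∧ j % 4 = 3 then -1 else 1

lemma norm_sg (t : Bool) (j : ℕ) : ‖((sg t j : ℤ) : ℂ)‖ = 1 := by
  unfold sg; split_ifs <;> simp

/-- the part of the multiplier which depends on the second modulus. -/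
def wNat (N q k0 : ℕ) (χ : DirichletCharacter ℂ N) (t : Bool) (j : ℕ) : ℂ :=
  (χ ((j : ℕ) : ZMod N))⁻¹ * epsilon (j : ℤ) ^ 3 * ((sg t j : ℤ) : ℂ) *
    ((shimuraSymbol (q * k0) (j : ℤ) : ℤ) : ℂ)

/-- as a function of residue classes. -/
def wFac (N q k0 : ℕ) (χ : DirichletCharacter ℂ N) (t : Bool) (y : (ZMod k0)ˣ) : ℂ :=
  wNat N q k0 χ t (y : ZMod k0).val

lemma unit_val_coprime {n : ℕ} (y : (ZMod n)ˣ) : (y : ZMod n).val.Coprime n :=
  ZMod.val_coe_unit_coprime y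

section

variable {N q k0 : ℕ} {χ : DirichletCharacter ℂ N}

lemma odd_of_coprime {k0 j : ℕ} (h4 : 4 ∣ k0) (hj : j.Coprime k0) : Odd j := by
  rw [← Nat.not_even_iff_odd]
  intro he
  have h2 : 2 ∣ j := he.two_dvd
  have h3 : 2 ∣ k0 := (by norm_num : 2 ∣ 4).trans h4
  have := Nat.dvd_gcd h2 h3
  rw [hj] at this
  norm_num at this

lemma cop_qk {k0 j : ℕ} (hq : q ∣ k0) (hj : j.Coprime k0) :
    IsCoprime ((q : ℤ) * (k0 : ℤ)) (j : ℤ) := by
  have h1 : IsCoprime (k0 : ℤ) (j : ℤ) := (Nat.isCoprime_iff_coprime.2 hj).symm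
  exact IsCoprime.mul_left (h1.of_isCoprime_of_dvd_left (Int.natCast_dvd_natCast.2 hq)) h1

lemma wNat_norm [NeZero N] (hN : N ∣ k0) (hq : q ∣ k0) {j : ℕ} (hj : j.Coprime k0) (t : Bool) :
    ‖wNat N q k0 χ t j‖ = 1 := by
  unfold wNat
  have hu : IsUnit ((j : ℕ) : ZMod N) :=
    (ZMod.isUnit_iff_coprime _ _).2 (Nat.Coprime.coprime_dvd_right hN hj)
  have h1 : ‖χ ((j : ℕ) : ZMod N)‖ = 1 := by
    simpa using DirichletCharacter.unit_norm_eq_one χ hu.unit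
  rw [norm_mul, norm_mul, norm_mul, norm_inv, h1, norm_pow, norm_epsilon, norm_sg,
    norm_shimura (cop_qk hq hj)]
  norm_num

lemma wNat_mod [NeZero q] (hN : N ∣ k0) (h4 : 4 ∣ N) (hqN : N * q ∣ k0) {j : ℕ}
    (hj : j.Coprime k0) (t : Bool) : wNat N q k0 χ t (j % k0) = wNat N q k0 χ t j := by
  have h4k : 4 ∣ k0 := h4.trans hN
  have hqk : q ∣ k0 := (dvd_mul_left q N).trans hqN
  obtain ⟨l, hl⟩ := hqN
  have hmod : j % k0 ≡ j [MOD k0] := Nat.mod_modEq j k0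
  have hj' : (j % k0).Coprime k0 := by
    rw [Nat.Coprime, ← Nat.gcd_rec, Nat.gcd_comm]; exact hj
  unfold wNat
  have e1 : ((j % k0 : ℕ) : ZMod N) = ((j : ℕ) : ZMod N) :=
    (ZMod.natCast_eq_natCast_iff _ _ _).2 (hmod.of_dvd hN)
  have e2 : epsilon ((j % k0 : ℕ) : ℤ) = epsilon (j : ℤ) := by
    apply epsilon_congr
    have := (Int.natCast_modEq_iff).2 (hmod.of_dvd h4k)
    exact_mod_cast this
  have e3 : sg t (j % k0) = sg t j := by
    unfold sg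
    have : j % k0 % 4 = j % 4 := hmod.of_dvd h4k
    rw [this]
  have e4 : shimuraSymbol (q * k0) ((j % k0 : ℕ) : ℤ) = shimuraSymbol (q * k0) (j : ℤ) := by
    have hk : (q : ℤ) * (k0 : ℤ) = q * (q * (N * l)) := by rw [hl]; push_cast; ring
    have c1 := cop_qk (q := q) hqk hj
    have c2 := cop_qk (q := q) hqk hj'
    rw [hk] at c1 c2 ⊢
    refine shimura_sq_congr (NeZero.pos q) (Dvd.dvd.mul_right (Int.natCast_dvd_natCast.2 h4) _)
      c2 c1 ?_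
    have hd : N * l ∣ k0 := ⟨q, by rw [hl]; ring⟩
    have := (Int.natCast_modEq_iff).2 (hmod.of_dvd hd)
    exact_mod_cast this
  rw [e1, e2, e3, e4]

/-- the multiplier splits. -/
lemma mS_split [NeZero N] [NeZero q] (h4 : 4 ∣ N) (hqN : N * q ∣ k0) {a j : ℕ} (ha0 : 0 < a)
    (ha : a.Coprime k0) (hj : j.Coprime (a * k0)) :
    (mS N q χ ((a * k0 : ℕ) : ℤ) (j : ℤ))⁻¹ =
      ((jacobiSym (j : ℤ) a : ℤ) : ℂ) * wNat N q k0 χ (decide (a % 4 = 3)) j := by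
  have h4k : 4 ∣ k0 := h4.trans ((dvd_mul_right N q).trans hqN)
  have hqk : q ∣ k0 := (dvd_mul_left q N).trans hqN
  have hjk : j.Coprime k0 := Nat.Coprime.coprime_dvd_right (dvd_mul_left k0 a) hj
  have hja : j.Coprime a := Nat.Coprime.coprime_dvd_right (dvd_mul_right a k0) hj
  have hjodd := odd_of_coprime h4k hjk
  have haodd := odd_of_coprime h4k ha
  unfold mS wNat
  have e1 : shimuraSymbol (q * ((a * k0 : ℕ) : ℤ)) (j : ℤ) =
      jacobiSym (a : ℤ) j * shimuraSymbol (q * k0) (j : ℤ) := by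
    have : (q : ℤ) * ((a * k0 : ℕ) : ℤ) = (a : ℤ) * ((q : ℤ) * (k0 : ℤ)) := by push_cast; ring
    rw [this, shimura_mul_pos (by exact_mod_cast ha0), Int.natAbs_natCast]
  have e2 : jacobiSym (a : ℤ) j = sg (decide (a % 4 = 3)) j * jacobiSym (j : ℤ) a := by
    rw [← jacobiSym.quadratic_reciprocity_if (Nat.odd_iff.1 haodd) (Nat.odd_iff.1 hjodd)]
    unfold sg
    simp only [decide_eq_true_eq]
    split_ifs <;> ring
  rw [e1]
  have s1 : (jacobiSym (a : ℤ) j) ^ 2 = 1 := by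
    apply jacobiSym.sq_one
    rw [← Int.isCoprime_iff_gcd_eq_one]
    exact Nat.isCoprime_iff_coprime.2 hja.symm
  have s2 : (shimuraSymbol (q * k0) (j : ℤ)) ^ 2 = 1 := shimura_sq_eq_one (cop_qk hqk hjk)
  have s1' : (((jacobiSym (a : ℤ) j : ℤ) : ℂ)) ^ 2 = 1 := by exact_mod_cast s1
  have s2' : (((shimuraSymbol (q * k0) (j : ℤ) : ℤ) : ℂ)) ^ 2 = 1 := by exact_mod_cast s2
  have e3 : ((jacobiSym (a : ℤ) j : ℤ) : ℂ) =
      ((sg (decide (a % 4 = 3)) j : ℤ) : ℂ) * ((jacobiSym (j : ℤ) a : ℤ) : ℂ) := by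
    exact_mod_cast congrArg (Int.cast : ℤ → ℂ) e2
  have hE : epsilon (j : ℤ) ≠ 0 := by
    rw [← norm_pos_iff, norm_epsilon]; norm_num
  set A : ℂ := ((jacobiSym (a : ℤ) j : ℤ) : ℂ) with hA
  set B : ℂ := ((shimuraSymbol (q * k0) (j : ℤ) : ℤ) : ℂ) with hB
  have hA0 : A ≠ 0 := by intro h; rw [h] at s1'; norm_num at s1'
  have hB0 : B ≠ 0 := by intro h; rw [h] at s2'; norm_num at s2'
  have hinv : ((epsilon (j : ℤ))⁻¹ * (A * B)) ^ 3 * (epsilon (j : ℤ) ^ 3 * (A * B)) = 1 := by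
    have : ((epsilon (j : ℤ))⁻¹ * (A * B)) ^ 3 * (epsilon (j : ℤ) ^ 3 * (A * B)) =
        ((epsilon (j : ℤ))⁻¹ * epsilon (j : ℤ)) ^ 3 * ((A ^ 2) ^ 2 * (B ^ 2) ^ 2) := by ring
    rw [this, s1', s2', inv_mul_cancel₀ hE]
    norm_num
  have hinv2 : (((epsilon (j : ℤ))⁻¹ * (A * B)) ^ 3)⁻¹ = epsilon (j : ℤ) ^ 3 * (A * B) :=
    inv_eq_of_mul_eq_one_right hinv
  push_cast
  rw [mul_inv, hinv2, e3]
  ring

end

/-- the Kloosterman sum as a sum over units. -/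
lemma kSum_units (m : ℕ) (s : ℤ → ℤ → ℂ) (c : ℕ) [NeZero c] :
    kSum m s c = ∑ x : (ZMod c)ˣ, (s c ((x : ZMod c).val : ℤ))⁻¹ *
      ZMod.stdAddChar ((m : ZMod c) * ((x : ZMod c) + ((x⁻¹ : (ZMod c)ˣ) : ZMod c))) := by
  unfold kSum
  rw [← sum_zmod_val c (fun j : ℕ ↦ kap m s c j)]
  symm
  refine Fintype.sum_of_injective (fun x : (ZMod c)ˣ ↦ (x : ZMod c)) Units.val_injective _ _ ?_ ?_
  · intro x hx
    unfold kap
    rw [if_neg]
    intro hcop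
    apply hx
    have hu : IsUnit x := by
      have h1 : x.val.Coprime c := (Nat.isCoprime_iff_coprime.1 hcop).symm
      have h2 := (ZMod.isUnit_iff_coprime x.val c).2 h1
      simpa using h2
    exact ⟨hu.unit, hu.unit_spec⟩
  · intro x
    unfold kap
    have hcop : IsCoprime (c : ℤ) (((x : ZMod c).val : ℕ) : ℤ) :=
      (Nat.isCoprime_iff_coprime.2 (ZMod.val_coe_unit_coprime x)).symm
    rw [if_pos hcop]
    congr 2
    have e : ((((x : ZMod c).val : ℕ) : ℤ) : ZMod c) = (x : ZMod c) := by simp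
    rw [e]
    congr 2
    exact (ZMod.inv_coe_unit x).symm

section

variable {N q : ℕ} {χ : DirichletCharacter ℂ N}

theorem kTot_bound [NeZero N] [NeZero q] (h4 : 4 ∣ N) {a k1 k2 m : ℕ} [NeZero a] [NeZero k1]
    [NeZero k2] (hqN : N * q ∣ k1 * k2) (h1 : a.Coprime (k1 * k2)) (h2 : k1.Coprime k2)
    (hm : m.Coprime a) :
    ‖kTot m (mS N q χ) (a * (k1 * k2))‖ ≤ Real.sqrt a * a.divisors.card *
      AW h2 (wFac N q (k1 * k2) χ (decide (a % 4 = 3))) (((k2 : ZMod k1))⁻¹ * (((a : ZMod k1))⁻¹ * m)) := by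
  have h4k : 4 ∣ k1 * k2 := h4.trans ((dvd_mul_right N q).trans hqN)
  have haodd := odd_of_coprime h4k h1
  rw [kTot_eq, kSum_units]
  refine crt_bound h1 h2 haodd hm (wFac N q (k1 * k2) χ (decide (a % 4 = 3))) _ ?_
  intro x
  set j := (x : ZMod (a * (k1 * k2))).val with hj
  have hcop : j.Coprime (a * (k1 * k2)) := ZMod.val_coe_unit_coprime x
  rw [mS_split h4 hqN (NeZero.pos a) h1 hcop]
  have e1 : ((ZMod.unitsMap (dvd_mul_right a (k1 * k2)) x : (ZMod a)ˣ) : ZMod a).val = j % a := by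
    rw [ZMod.unitsMap_val, ZMod.cast_eq_val, ZMod.val_natCast]
  have e2 : ((ZMod.unitsMap (dvd_mul_left (k1 * k2) a) x : (ZMod (k1 * k2))ˣ) :
      ZMod (k1 * k2)).val = j % (k1 * k2) := by
    rw [ZMod.unitsMap_val, ZMod.cast_eq_val, ZMod.val_natCast]
  rw [e1]
  unfold wFac
  rw [e2, wNat_mod ((dvd_mul_right N q).trans hqN) h4 hqN
    (Nat.Coprime.coprime_dvd_right (dvd_mul_left (k1 * k2) a) hcop)]
  congr 2
  push_cast
  rw [jacobiSym.mod_left]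

lemma wFac_norm [NeZero N] {k0 : ℕ} (hqN : N * q ∣ k0) (t : Bool) (y : (ZMod k0)ˣ) :
    ‖wFac N q k0 χ t y‖ ≤ 1 :=
  (wNat_norm ((dvd_mul_right N q).trans hqN) ((dvd_mul_left q N).trans hqN)
    (ZMod.val_coe_unit_coprime y) t).le

end

end

end Pool.Agent.Work.MP_af11aa_nt.K
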