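import Mathlib
import Pool.Agent.Work.MP_af11aa_nt.K.WFac

namespace Pool.Agent.Work.MP_af11aa_nt.K

open Pool.Agent.Work.MP_af11aa_nt

noncomputable section

variable {N q : ℕ} {χ : DirichletCharacter ℂ N}

lemma alg3 {k : ℝ} (hk : k ≠ 0) (A B : ℝ) : (1 / k) * (A * (2 * k * B)) = 2 * A * B := by
  field_simp

lemma alg4 {k r a : ℝ} (hk : k ≠ 0) (hr : r ≠ 0) (h : r * r = a) (c g : ℝ) :
    r * c * g = (1 / k) * ((c / r) * g) * (a * k) := by
  field_simp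
  linear_combination (c * g) * h

theorem inner_sum [NeZero N] [NeZero q] (h4 : 4 ∣ N) {k1 k2 m : ℕ} [NeZero k1]
    [NeZero k2] (hqN : N * q ∣ k1 * k2) (h2 : k1.Coprime k2) (hsq : Squarefree k1)
    (hmk : m.Coprime k1) (R : ℕ) :
    ∑ a ∈ (Finset.Icc 1 R).filter (fun a : ℕ ↦ a.Coprime (k1 * k2) ∧ a.Coprime m),
      ‖kTot m (mS N q χ) (a * (k1 * k2))‖ / (a * (k1 * k2) : ℕ) ≤
      2 * Real.sqrt (∑ a ∈ Finset.Icc 1 R, (a.divisors.card : ℝ) ^ 2 / a) *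
        Real.sqrt ((R / k1 + 1) * k1.divisors.card) := by
  classical
  have hk1 : (0 : ℝ) < k1 := Nat.cast_pos.2 (NeZero.pos k1)
  have hk2 : (0 : ℝ) < k2 := Nat.cast_pos.2 (NeZero.pos k2)
  set S := (Finset.Icc 1 R).filter (fun a : ℕ ↦ a.Coprime (k1 * k2) ∧ a.Coprime m) with hS
  set At : ZMod k1 → ℝ := AW h2 (wFac N q (k1 * k2) χ true) with hAt
  set Af : ZMod k1 → ℝ := AW h2 (wFac N q (k1 * k2) χ false) with hAf
  set g : ZMod k1 → ℝ := fun u ↦ At u + Af u with hg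
  set b : ZMod k1 := ((k2 : ZMod k1))⁻¹ * m with hb
  have hAt0 : ∀ u, 0 ≤ At u := AW_nonneg _ _
  have hAf0 : ∀ u, 0 ≤ Af u := AW_nonneg _ _
  have hg0 : ∀ u, 0 ≤ g u := fun u ↦ add_nonneg (hAt0 u) (hAf0 u)
  have hbu : IsUnit b := by
    have h3 : IsUnit ((k2 : ZMod k1)) := (ZMod.isUnit_iff_coprime _ _).2 h2.symm
    have h5 : IsUnit ((m : ZMod k1)) := (ZMod.isUnit_iff_coprime _ _).2 hmk
    have h6 := ZMod.mul_inv_of_unit _ h3
    exact (IsUnit.of_mul_eq_one_right _ h6).mul h5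
  have hterm : ∀ a ∈ S, ‖kTot m (mS N q χ) (a * (k1 * k2))‖ / (a * (k1 * k2) : ℕ) ≤
      (1 / (k1 * k2)) * (((a.divisors.card : ℝ) / Real.sqrt a) * g (b * ((a : ZMod k1))⁻¹)) := by
    intro a ha
    rw [hS, Finset.mem_filter, Finset.mem_Icc] at ha
    have : NeZero a := ⟨by omega⟩
    have ha0 : (0 : ℝ) < a := Nat.cast_pos.2 (NeZero.pos a)
    have h3 := kTot_bound (χ := χ) h4 hqN ha.2.1 h2 ha.2.2.symm
    have hu : ((k2 : ZMod k1))⁻¹ * (((a : ZMod k1))⁻¹ * m) = b * ((a : ZMod k1))⁻¹ := by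
      rw [hb]; ring
    rw [hu] at h3
    set u := b * ((a : ZMod k1))⁻¹ with hudef
    have h5 : AW h2 (wFac N q (k1 * k2) χ (decide (a % 4 = 3))) u ≤ g u := by
      rw [hg]
      by_cases h6 : a % 4 = 3
      · simp only [h6, decide_true]
        have := hAf0 u
        rw [hAt] at *
        linarith
      · simp only [h6, decide_false]
        have := hAt0 u
        rw [hAf] at *
        linarith
    have h7 : ‖kTot m (mS N q χ) (a * (k1 * k2))‖ ≤ Real.sqrt a * a.divisors.card * g u :=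
      h3.trans (mul_le_mul_of_nonneg_left h5 (by positivity))
    have hs : Real.sqrt a * Real.sqrt a = a := Real.mul_self_sqrt ha0.le
    have hs0 : 0 < Real.sqrt a := Real.sqrt_pos.2 ha0
    push_cast
    rw [div_le_iff₀ (by positivity)]
    refine h7.trans (le_of_eq ?_)
    exact alg4 (by positivity) hs0.ne' hs _ _
  have hcs : ∑ a ∈ S, ((a.divisors.card : ℝ) / Real.sqrt a) * g (b * ((a : ZMod k1))⁻¹) ≤
      Real.sqrt (∑ a ∈ S, ((a.divisors.card : ℝ) / Real.sqrt a) ^ 2) *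
      Real.sqrt (∑ a ∈ S, g (b * ((a : ZMod k1))⁻¹) ^ 2) :=
    Real.sum_mul_le_sqrt_mul_sqrt _ _ _
  have hT : ∑ a ∈ S, ((a.divisors.card : ℝ) / Real.sqrt a) ^ 2 ≤
      ∑ a ∈ Finset.Icc 1 R, (a.divisors.card : ℝ) ^ 2 / a := by
    calc ∑ a ∈ S, ((a.divisors.card : ℝ) / Real.sqrt a) ^ 2
        = ∑ a ∈ S, (a.divisors.card : ℝ) ^ 2 / a := by
          refine Finset.sum_congr rfl fun a _ ↦ ?_
          rw [div_pow, Real.sq_sqrt (Nat.cast_nonneg a)]
      _ ≤ _ := Finset.sum_le_sum_of_subset_of_nonneg (Finset.filter_subset _ _)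
          fun a _ _ ↦ by positivity
  have hsec : ∑ a ∈ S, g (b * ((a : ZMod k1))⁻¹) ^ 2 ≤
      (R / k1 + 1) * (4 * ((k2 : ℝ) ^ 2 * ((k1 : ℝ) ^ 2 * k1.divisors.card))) := by
    have hsub : S ⊆ (Finset.Icc 1 R).filter (fun a : ℕ ↦ a.Coprime k1) := by
      intro a ha
      rw [hS, Finset.mem_filter] at ha
      rw [Finset.mem_filter]
      exact ⟨ha.1, Nat.Coprime.coprime_dvd_right (dvd_mul_right k1 k2) ha.2.1⟩
    have h3 := class_sum hbu R (g := fun u ↦ g u ^ 2) (fun u ↦ by positivity)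
    have h5 : ∑ u : ZMod k1, g u ^ 2 ≤ 4 * ((k2 : ℝ) ^ 2 * ((k1 : ℝ) ^ 2 * k1.divisors.card)) := by
      have e1 := AW_second h2 hsq (wFac N q (k1 * k2) χ true) (wFac_norm hqN true)
      have e2 := AW_second h2 hsq (wFac N q (k1 * k2) χ false) (wFac_norm hqN false)
      rw [← hAt] at e1
      rw [← hAf] at e2
      calc ∑ u : ZMod k1, g u ^ 2 ≤ ∑ u : ZMod k1, (2 * At u ^ 2 + 2 * Af u ^ 2) := by
            refine Finset.sum_le_sum fun u _ ↦ ?_
            rw [hg]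
            simp only
            nlinarith [sq_nonneg (At u - Af u)]
        _ = 2 * ∑ u : ZMod k1, At u ^ 2 + 2 * ∑ u : ZMod k1, Af u ^ 2 := by
            rw [Finset.sum_add_distrib, Finset.mul_sum, Finset.mul_sum]
        _ ≤ _ := by linarith
    calc ∑ a ∈ S, g (b * ((a : ZMod k1))⁻¹) ^ 2
        ≤ ∑ a ∈ (Finset.Icc 1 R).filter (fun a : ℕ ↦ a.Coprime k1),
            g (b * ((a : ZMod k1))⁻¹) ^ 2 :=
          Finset.sum_le_sum_of_subset_of_nonneg hsub fun a _ _ ↦ by positivity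
      _ ≤ _ := h3
      _ ≤ _ := by gcongr
  have hfin : Real.sqrt ((R / k1 + 1) * (4 * ((k2 : ℝ) ^ 2 * ((k1 : ℝ) ^ 2 * k1.divisors.card)))) =
      2 * (k1 * k2) * Real.sqrt ((R / k1 + 1) * k1.divisors.card) := by
    have e : (R / k1 + 1) * (4 * ((k2 : ℝ) ^ 2 * ((k1 : ℝ) ^ 2 * k1.divisors.card))) =
        (2 * (k1 * k2)) ^ 2 * ((R / k1 + 1) * k1.divisors.card) := by ring
    rw [e, Real.sqrt_mul (by positivity), Real.sqrt_sq (by positivity)]
  calc ∑ a ∈ S, ‖kTot m (mS N q χ) (a * (k1 * k2))‖ / (a * (k1 * k2) : ℕ)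
      ≤ ∑ a ∈ S, (1 / (k1 * k2)) * (((a.divisors.card : ℝ) / Real.sqrt a) *
          g (b * ((a : ZMod k1))⁻¹)) := Finset.sum_le_sum hterm
    _ = (1 / (k1 * k2)) * ∑ a ∈ S, ((a.divisors.card : ℝ) / Real.sqrt a) *
          g (b * ((a : ZMod k1))⁻¹) := by rw [Finset.mul_sum]
    _ ≤ (1 / (k1 * k2)) * (Real.sqrt (∑ a ∈ Finset.Icc 1 R, (a.divisors.card : ℝ) ^ 2 / a) *
        Real.sqrt ((R / k1 + 1) * (4 * ((k2 : ℝ) ^ 2 * ((k1 : ℝ) ^ 2 * k1.divisors.card))))) := by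
        refine mul_le_mul_of_nonneg_left (hcs.trans ?_) (by positivity)
        exact mul_le_mul (Real.sqrt_le_sqrt hT) (Real.sqrt_le_sqrt hsec) (Real.sqrt_nonneg _)
          (Real.sqrt_nonneg _)
    _ = _ := by
        rw [hfin]
        exact alg3 (by positivity) _ _

end

end Pool.Agent.Work.MP_af11aa_nt.K
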