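import Mathlib
import Pool.Agent.Work.MP_af11aa_nt.K.Inner
import Pool.Agent.Work.MP_af11aa_nt.K.Decomp
import Pool.Agent.Work.MP_af11aa_nt.K.Count
import Pool.Agent.Work.MP_f2148a_nt.DivisorBound

namespace Pool.Agent.Work.MP_af11aa_nt.K

open Pool.Agent.Work.MP_af11aa_nt

noncomputable section

/-- the sum of squares of the divisor function against `1/a`. -/
lemma tau_sum (ε : ℝ) (hε : 0 < ε) : ∃ C : ℝ, 0 < C ∧ ∀ X : ℕ, 0 < X →
    ∑ a ∈ Finset.Icc 1 X, (a.divisors.card : ℝ) ^ 2 / a ≤ C * (X : ℝ) ^ (3 * ε) := by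
  obtain ⟨A, hA1, hA⟩ := Pool.Agent.Work.MP_f2148a_nt.exists_card_divisors_le ε hε
  have hA0 : 0 < A := by linarith
  refine ⟨A ^ 2 * (1 + 1 / ε), by positivity, fun X hX ↦ ?_⟩
  have hX1 : (1 : ℝ) ≤ X := by exact_mod_cast hX
  have hX0 : (0 : ℝ) < X := by linarith
  have h1 : ∀ a ∈ Finset.Icc 1 X, (a.divisors.card : ℝ) ^ 2 / a ≤
      A ^ 2 * (X : ℝ) ^ (2 * ε) * (a : ℝ)⁻¹ := by
    intro a ha
    rw [Finset.mem_Icc] at ha
    have ha0 : (0 : ℝ) < a := by exact_mod_cast (by omega : 0 < a)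
    have haX : (a : ℝ) ≤ X := by exact_mod_cast ha.2
    have h2 : (a.divisors.card : ℝ) ≤ A * (X : ℝ) ^ ε :=
      (hA a ha.1).trans (by gcongr)
    have h3 : (X : ℝ) ^ (2 * ε) = ((X : ℝ) ^ ε) ^ 2 := by
      rw [mul_comm, Real.rpow_mul hX0.le]; norm_cast
    rw [h3, div_eq_mul_inv]
    calc (a.divisors.card : ℝ) ^ 2 * (a : ℝ)⁻¹ ≤ (A * (X : ℝ) ^ ε) ^ 2 * (a : ℝ)⁻¹ := by gcongr
      _ = _ := by ring
  have hharm : ∑ a ∈ Finset.Icc 1 X, (a : ℝ)⁻¹ ≤ (1 + 1 / ε) * (X : ℝ) ^ ε := by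
    have h2 : ((harmonic X : ℚ) : ℝ) ≤ 1 + Real.log X := harmonic_le_one_add_log X
    have h3 : ((harmonic X : ℚ) : ℝ) = ∑ a ∈ Finset.Icc 1 X, (a : ℝ)⁻¹ := by
      rw [harmonic_eq_sum_Icc]; push_cast; rfl
    rw [← h3]
    have h4 : Real.log X ≤ (X : ℝ) ^ ε / ε := Real.log_le_rpow_div hX0.le hε
    have h5 : (1 : ℝ) ≤ (X : ℝ) ^ ε := Real.one_le_rpow hX1 hε.le
    calc ((harmonic X : ℚ) : ℝ) ≤ 1 + Real.log X := h2
      _ ≤ (X : ℝ) ^ ε + (X : ℝ) ^ ε / ε := by linarith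
      _ = _ := by ring
  calc ∑ a ∈ Finset.Icc 1 X, (a.divisors.card : ℝ) ^ 2 / a
      ≤ ∑ a ∈ Finset.Icc 1 X, A ^ 2 * (X : ℝ) ^ (2 * ε) * (a : ℝ)⁻¹ := Finset.sum_le_sum h1
    _ = A ^ 2 * (X : ℝ) ^ (2 * ε) * ∑ a ∈ Finset.Icc 1 X, (a : ℝ)⁻¹ := by rw [Finset.mul_sum]
    _ ≤ A ^ 2 * (X : ℝ) ^ (2 * ε) * ((1 + 1 / ε) * (X : ℝ) ^ ε) := by gcongr
    _ = A ^ 2 * (1 + 1 / ε) * ((X : ℝ) ^ (2 * ε) * (X : ℝ) ^ ε) := by ring
    _ = _ := by
        rw [← Real.rpow_add hX0]; congr 2; ring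

theorem kTot_sum (ε : ℝ) (hε : 0 < ε) : ∃ C : ℝ, 0 < C ∧ ∀ (p : ℕ), p.Prime →
    ∀ (χ : DirichletCharacter ℂ (24 * p)) (q : ℕ), Squarefree q → q.Coprime (6 * p) →
    ∀ m : ℕ, 0 < m →
      ∑ c ∈ (Finset.Icc 1 ⌊Real.sqrt 2 * m⌋₊).filter (24 * p * q ∣ ·),
        ‖kTot m (mS (24 * p) q χ) c‖ / c ≤
      C * ((p * q * m : ℕ) : ℝ) ^ (4 * ε) *
        (1 + Real.sqrt (m * (m.gcd (p * q) : ℕ)) / (p * q)) := by
  obtain ⟨A, hA1, hA⟩ := Pool.Agent.Work.MP_f2148a_nt.exists_card_divisors_le ε hε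
  obtain ⟨C1, hC1, hcount⟩ := count_factored ε hε
  obtain ⟨C2, hC2, htau⟩ := tau_sum ε hε
  have hA0 : 0 < A := by linarith
  refine ⟨C1 * (12 : ℝ) ^ ε * (2 * Real.sqrt (C2 * 2 ^ (3 * ε)) * (Real.sqrt 2 * Real.sqrt A)),
    by positivity, ?_⟩
  intro p hp χ q hsq hcop m hm
  have hq0 : 0 < q := Nat.pos_of_ne_zero hsq.ne_zero
  have : NeZero q := ⟨hq0.ne'⟩
  have hp0 := hp.pos
  have : NeZero (24 * p) := ⟨by omega⟩
  have h4 : 4 ∣ 24 * p := ⟨6 * p, by ring⟩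
  set X0 : ℕ := ⌊Real.sqrt 2 * m⌋₊ with hX0
  have hmR : (0 : ℝ) < m := by exact_mod_cast hm
  have hm1 : (1 : ℝ) ≤ m := by exact_mod_cast hm
  have hpR : (1 : ℝ) ≤ p := by exact_mod_cast hp0
  have hqR : (1 : ℝ) ≤ q := by exact_mod_cast hq0
  have hs2 : 1 ≤ Real.sqrt 2 := by
    rw [Real.one_le_sqrt]; norm_num
  have hs2' : Real.sqrt 2 ≤ 2 := by
    rw [Real.sqrt_le_left (by norm_num)]; norm_num
  have hX0le : (X0 : ℝ) ≤ 2 * m := by
    calc (X0 : ℝ) ≤ Real.sqrt 2 * m := Nat.floor_le (by positivity)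
      _ ≤ 2 * m := by gcongr
  have hX0pos : 0 < X0 := by
    rw [hX0, Nat.floor_pos]
    calc (1 : ℝ) ≤ 1 * 1 := by norm_num
      _ ≤ Real.sqrt 2 * m := by gcongr
  have hX01 : (1 : ℝ) ≤ X0 := by exact_mod_cast hX0pos
  set Z : ℝ := ((p * q * m : ℕ) : ℝ) with hZ
  have hZ1 : 1 ≤ Z := by
    rw [hZ]; exact_mod_cast Nat.mul_pos (Nat.mul_pos hp0 hq0) hm
  have hZ0 : 0 < Z := by linarith
  have hmZ : (m : ℝ) ≤ Z := by
    rw [hZ]; push_cast
    calc (m : ℝ) = 1 * 1 * m := by ring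
      _ ≤ p * q * m := by gcongr
  have hpqZ : (p * q : ℝ) ≤ Z := by
    rw [hZ]; push_cast
    calc (p * q : ℝ) = p * q * 1 := by ring
      _ ≤ p * q * m := by gcongr
  set gg : ℝ := ((m.gcd (p * q) : ℕ) : ℝ) with hgg
  have hgg0 : 0 ≤ gg := Nat.cast_nonneg _
  -- the modulus
  set n : ℕ := 6 * (p * q * m) with hn
  have hn0 : 0 < n := by rw [hn]; positivity
  have hD0 : 0 < 24 * p * q := by positivity
  have hDn : (24 * p * q).primeFactors ⊆ n.primeFactors := by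
    intro l hl
    have hlp := Nat.prime_of_mem_primeFactors hl
    have hld := Nat.dvd_of_mem_primeFactors hl
    refine Nat.mem_primeFactors.2 ⟨hlp, ?_, hn0.ne'⟩
    have h24 : 24 * p * q = 4 * (6 * (p * q)) := by ring
    rw [h24] at hld
    rcases (hlp.dvd_mul).1 hld with h | h
    · have : l ∣ 2 ^ 2 := by norm_num; exact h
      have h2 := hlp.dvd_of_dvd_pow this
      exact h2.trans ⟨3 * (p * q * m), by rw [hn]; ring⟩
    · exact h.trans ⟨m, by rw [hn]; ring⟩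
  have hsplit := sum_split (n := n) (D := 24 * p * q) (X0 := X0) hn0 hD0 hDn
    (G := fun c ↦ ‖kTot m (mS (24 * p) q χ) c‖ / c) (fun c ↦ by positivity)
  refine hsplit.trans ?_
  set K := (Finset.Icc 1 X0).filter (fun k ↦ k.primeFactors ⊆ n.primeFactors ∧ 24 * p * q ∣ k)
    with hK
  set B : ℝ := 2 * Real.sqrt (C2 * 2 ^ (3 * ε) * Z ^ (3 * ε)) *
    Real.sqrt ((X0 * gg / (p * q) ^ 2 + 1) * (A * Z ^ ε)) with hB
  have hinner : ∀ k ∈ K, ∑ a ∈ (Finset.Icc 1 (X0 / k)).filter (fun a : ℕ ↦ a.Coprime n),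
      ‖kTot m (mS (24 * p) q χ) (a * k)‖ / (a * k : ℕ) ≤ B := by
    intro k hk
    rw [hK, Finset.mem_filter, Finset.mem_Icc] at hk
    obtain ⟨⟨hk1, hkX⟩, hkn, hkD⟩ := hk
    obtain ⟨k1, k2, e, hk1p, hk2p, hsq1, hcop12, hk1pq, hmk1, hdvd⟩ :=
      split_k0 m hp hsq hcop hkD hk1
    have : NeZero k1 := ⟨hk1p.ne'⟩
    have : NeZero k2 := ⟨hk2p.ne'⟩
    rw [e] at hkD
    have h1 := inner_sum (χ := χ) h4 hkD hcop12 hsq1 hmk1 (X0 / k)
    have hsub : (Finset.Icc 1 (X0 / k)).filter (fun a : ℕ ↦ a.Coprime n) ⊆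
        (Finset.Icc 1 (X0 / k)).filter (fun a : ℕ ↦ a.Coprime (k1 * k2) ∧ a.Coprime m) := by
      intro a ha
      rw [Finset.mem_filter] at ha ⊢
      refine ⟨ha.1, ?_, ?_⟩
      · rw [← e]
        by_contra hnc
        obtain ⟨l, hl, h3, h5⟩ := Nat.Prime.not_coprime_iff_dvd.1 hnc
        have h6 : l ∈ k.primeFactors := Nat.mem_primeFactors.2 ⟨hl, h5, by omega⟩
        have h7 : l ∣ n := Nat.dvd_of_mem_primeFactors (hkn h6)
        have h8 := Nat.dvd_gcd h3 h7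
        rw [ha.2] at h8
        exact hl.one_lt.ne' (Nat.dvd_one.1 h8)
      · exact Nat.Coprime.coprime_dvd_right ⟨6 * (p * q), by rw [hn]; ring⟩ ha.2
    have h2 : ∑ a ∈ (Finset.Icc 1 (X0 / k)).filter (fun a : ℕ ↦ a.Coprime n),
        ‖kTot m (mS (24 * p) q χ) (a * k)‖ / (a * k : ℕ) ≤
        ∑ a ∈ (Finset.Icc 1 (X0 / k)).filter (fun a : ℕ ↦ a.Coprime (k1 * k2) ∧ a.Coprime m),
        ‖kTot m (mS (24 * p) q χ) (a * (k1 * k2))‖ / (a * (k1 * k2) : ℕ) := by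
      rw [← e]
      rw [← e] at hsub
      exact Finset.sum_le_sum_of_subset_of_nonneg hsub fun a _ _ ↦ by positivity
    refine h2.trans (h1.trans ?_)
    have hk1R : (0 : ℝ) < k1 := by exact_mod_cast hk1p
    have hkR : (0 : ℝ) < k := by exact_mod_cast hk1
    have hT : ∑ a ∈ Finset.Icc 1 (X0 / k), (a.divisors.card : ℝ) ^ 2 / a ≤
        C2 * 2 ^ (3 * ε) * Z ^ (3 * ε) := by
      calc ∑ a ∈ Finset.Icc 1 (X0 / k), (a.divisors.card : ℝ) ^ 2 / a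
          ≤ ∑ a ∈ Finset.Icc 1 X0, (a.divisors.card : ℝ) ^ 2 / a :=
            Finset.sum_le_sum_of_subset_of_nonneg
              (Finset.Icc_subset_Icc_right (Nat.div_le_self _ _)) fun a _ _ ↦ by positivity
        _ ≤ C2 * (X0 : ℝ) ^ (3 * ε) := htau X0 hX0pos
        _ ≤ C2 * (2 * Z) ^ (3 * ε) := by
            have : (X0 : ℝ) ≤ 2 * Z := by linarith
            gcongr
        _ = _ := by rw [Real.mul_rpow (by norm_num) hZ0.le]; ring
    have hR : (((X0 / k : ℕ) : ℝ) / k1 + 1) * (k1.divisors.card : ℝ) ≤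
        (X0 * gg / (p * q) ^ 2 + 1) * (A * Z ^ ε) := by
      have h3 : (((X0 / k : ℕ) : ℝ) / k1) ≤ X0 * gg / (p * q) ^ 2 := by
        have h5 : ((X0 / k : ℕ) : ℝ) ≤ (X0 : ℝ) / k := Nat.cast_div_le
        have h6 : ((p * q : ℝ)) ^ 2 ≤ k1 * k * gg := by
          have hgpos : 0 < m.gcd (p * q) := Nat.gcd_pos_of_pos_left _ hm
          have := Nat.le_of_dvd (Nat.mul_pos (Nat.mul_pos hk1p hk1) hgpos) hdvd
          rw [hgg]
          exact_mod_cast this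
        calc ((X0 / k : ℕ) : ℝ) / k1 ≤ (X0 : ℝ) / k / k1 := by gcongr
          _ = (X0 : ℝ) / (k1 * k) := by field_simp
          _ ≤ _ := by
            rw [div_le_div_iff₀ (by positivity) (by positivity)]
            calc (X0 : ℝ) * (p * q) ^ 2 ≤ X0 * (k1 * k * gg) := by gcongr
              _ = _ := by ring
      have h7 : (k1.divisors.card : ℝ) ≤ A * Z ^ ε := by
        have h8 : (k1 : ℝ) ≤ Z := by
          have : (k1 : ℝ) ≤ (p * q : ℝ) := by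
            exact_mod_cast Nat.le_of_dvd (Nat.mul_pos hp0 hq0) hk1pq
          linarith
        calc (k1.divisors.card : ℝ) ≤ A * (k1 : ℝ) ^ ε := hA k1 hk1p
          _ ≤ A * Z ^ ε := by gcongr
      have h9 : (0 : ℝ) ≤ ((X0 / k : ℕ) : ℝ) / k1 + 1 := by positivity
      exact mul_le_mul (by linarith) h7 (Nat.cast_nonneg _) (by positivity)
    rw [hB]
    have hr1 := Real.sqrt_le_sqrt hT
    have hr2 := Real.sqrt_le_sqrt hR
    exact mul_le_mul (mul_le_mul_of_nonneg_left hr1 (by norm_num)) hr2 (Real.sqrt_nonneg _)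
      (by positivity)
  have hB0 : 0 ≤ B := by rw [hB]; positivity
  have hcard : (K.card : ℝ) ≤ C1 * (12 : ℝ) ^ ε * Z ^ (2 * ε) := by
    have h1 : (K.card : ℝ) ≤ (((Finset.Icc 1 ⌊(X0 : ℝ)⌋₊).filter
        (fun k ↦ k.primeFactors ⊆ n.primeFactors)).card : ℝ) := by
      have : K ⊆ (Finset.Icc 1 ⌊(X0 : ℝ)⌋₊).filter (fun k ↦ k.primeFactors ⊆ n.primeFactors) := by
        rw [Nat.floor_natCast]
        intro k hk
        rw [hK, Finset.mem_filter] at hk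
        rw [Finset.mem_filter]
        exact ⟨hk.1, hk.2.1⟩
      exact_mod_cast Finset.card_le_card this
    refine h1.trans ((hcount n hn0 X0 hX01).trans ?_)
    have h2 : (n : ℝ) * X0 ≤ 12 * (Z * Z) := by
      have : (n : ℝ) = 6 * Z := by rw [hn, hZ]; push_cast; ring
      rw [this]
      have : (X0 : ℝ) ≤ 2 * Z := by linarith
      calc 6 * Z * (X0 : ℝ) ≤ 6 * Z * (2 * Z) := by gcongr
        _ = _ := by ring
    calc C1 * ((n : ℝ) * X0) ^ ε ≤ C1 * (12 * (Z * Z)) ^ ε := by gcongr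
      _ = C1 * ((12 : ℝ) ^ ε * (Z ^ ε * Z ^ ε)) := by
          rw [Real.mul_rpow (by norm_num) (by positivity), Real.mul_rpow hZ0.le hZ0.le]
      _ = _ := by rw [← Real.rpow_add hZ0]; ring_nf
  calc ∑ k ∈ K, ∑ a ∈ (Finset.Icc 1 (X0 / k)).filter (fun a : ℕ ↦ a.Coprime n),
        ‖kTot m (mS (24 * p) q χ) (a * k)‖ / (a * k : ℕ)
      ≤ ∑ _k ∈ K, B := Finset.sum_le_sum hinner
    _ = K.card * B := by rw [Finset.sum_const, nsmul_eq_mul]
    _ ≤ (C1 * (12 : ℝ) ^ ε * Z ^ (2 * ε)) * B := by gcongr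
    _ ≤ (C1 * (12 : ℝ) ^ ε * Z ^ (2 * ε)) * (2 * (Real.sqrt (C2 * 2 ^ (3 * ε)) *
        Z ^ (3 / 2 * ε)) * ((Real.sqrt 2 * (1 + Real.sqrt (m * gg) / (p * q))) *
          (Real.sqrt A * Z ^ (1 / 2 * ε)))) := by
        refine mul_le_mul_of_nonneg_left ?_ (by positivity)
        rw [hB]
        have e1 : Real.sqrt (C2 * 2 ^ (3 * ε) * Z ^ (3 * ε)) =
            Real.sqrt (C2 * 2 ^ (3 * ε)) * Z ^ (3 / 2 * ε) := by
          rw [Real.sqrt_mul (by positivity)]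
          congr 1
          rw [Real.sqrt_eq_rpow, ← Real.rpow_mul hZ0.le]
          congr 1; ring
        have e2 : Real.sqrt ((X0 * gg / (p * q) ^ 2 + 1) * (A * Z ^ ε)) =
            Real.sqrt (X0 * gg / (p * q) ^ 2 + 1) * (Real.sqrt A * Z ^ (1 / 2 * ε)) := by
          rw [Real.sqrt_mul (by positivity), Real.sqrt_mul hA0.le]
          congr 2
          rw [Real.sqrt_eq_rpow, ← Real.rpow_mul hZ0.le]
          congr 1; ring
        rw [e1, e2]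
        have h5 : Real.sqrt (X0 * gg / (p * q) ^ 2 + 1) ≤
            Real.sqrt 2 * (1 + Real.sqrt (m * gg) / (p * q)) := by
          rw [Real.sqrt_le_left (by positivity), mul_pow (Real.sqrt 2), Real.sq_sqrt (by norm_num)]
          have h6 : (X0 : ℝ) * gg / (p * q) ^ 2 ≤ 2 * (Real.sqrt (m * gg) / (p * q)) ^ 2 := by
            rw [div_pow, Real.sq_sqrt (by positivity), ← mul_div_assoc, ← mul_assoc]
            gcongr
          have h7 : 0 ≤ Real.sqrt (m * gg) / (p * q) := by positivity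
          nlinarith
        gcongr
    _ = C1 * (12 : ℝ) ^ ε * (2 * Real.sqrt (C2 * 2 ^ (3 * ε)) * (Real.sqrt 2 * Real.sqrt A)) *
        (Z ^ (2 * ε) * Z ^ (3 / 2 * ε) * Z ^ (1 / 2 * ε)) *
          (1 + Real.sqrt (m * gg) / (p * q)) := by ring
    _ = _ := by
        rw [← Real.rpow_add hZ0, ← Real.rpow_add hZ0]
        have e : 2 * ε + 3 / 2 * ε + 1 / 2 * ε = 4 * ε := by ring
        rw [e]

end

end Pool.Agent.Work.MP_af11aa_nt.K
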