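import Mathlib
import Pool.Agent.Work.MP_af11aa_nt.K.Analytic
import Pool.Agent.Work.MP_af11aa_nt.K.KTotal

namespace Pool.Agent.Work.MP_af11aa_nt.K

open Pool.Agent.Work.MP_af11aa_nt
open UpperHalfPlane

noncomputable section

lemma sigma_le (q : ℕ) : ((ArithmeticFunction.sigma 1 q : ℕ) : ℝ) ≤ q * q.divisors.card := by
  rw [ArithmeticFunction.sigma_one_apply]
  have : ∑ d ∈ q.divisors, d ≤ ∑ _d ∈ q.divisors, q :=
    Finset.sum_le_sum fun d hd ↦ Nat.divisor_le hd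
  rw [Finset.sum_const, smul_eq_mul] at this
  calc ((∑ d ∈ q.divisors, d : ℕ) : ℝ) ≤ ((q.divisors.card * q : ℕ) : ℝ) := by exact_mod_cast this
    _ = _ := by push_cast; ring

theorem hybrid_single (ε : ℝ) (hε : 0 < ε) : ∃ C : ℝ, 0 < C ∧ ∀ p : ℕ, p.Prime →
    ∀ (χ : DirichletCharacter ℂ (24 * p)) (f : ℍ → ℂ), IsCuspForm (24 * p) χ f →
    ∀ q : ℕ, Squarefree q → q.Coprime (6 * p) → ∀ m : ℕ, 0 < m →
      ‖fourierCoeff f (q * m)‖ ^ 2 ≤
        (C * ((p * q * m : ℕ) : ℝ) ^ ε * Real.sqrt (q * m) *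
          (q + Real.sqrt (m * (m.gcd (p * q) : ℕ)) / p)) * petNorm (24 * p) f := by
  set δ : ℝ := ε / 5 with hδ
  have hδ0 : 0 < δ := by positivity
  obtain ⟨A, hA1, hA⟩ := Pool.Agent.Work.MP_f2148a_nt.exists_card_divisors_le δ hδ0
  obtain ⟨C', hC', hsum⟩ := kTot_sum δ hδ0
  have hA0 : 0 < A := by linarith
  refine ⟨2 * Real.exp (16 * Real.pi) * A * (4 + 12 * C'), by positivity, ?_⟩
  intro p hp χ f hf q hsq hcop m hm
  have hq0 : 0 < q := Nat.pos_of_ne_zero hsq.ne_zero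
  have : NeZero q := ⟨hq0.ne'⟩
  have hp0 := hp.pos
  have : NeZero (24 * p) := ⟨by omega⟩
  have h4 : 4 ∣ 24 * p := ⟨6 * p, by ring⟩
  have hcop24 : Nat.Coprime q (24 * p) := by
    have h2 : Nat.Coprime q 2 := Nat.Coprime.coprime_dvd_right ⟨3 * p, by ring⟩ hcop
    have h4 : Nat.Coprime q 4 := by
      have := h2.pow_right 2
      norm_num at this
      exact this
    have : 24 * p = 4 * (6 * p) := by ring
    rw [this]
    exact h4.mul_right hcop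
  have hpR : (1 : ℝ) ≤ p := by exact_mod_cast hp0
  have hqR : (1 : ℝ) ≤ q := by exact_mod_cast hq0
  have hmR : (1 : ℝ) ≤ m := by exact_mod_cast hm
  have hP := petNorm_nonneg (N := 24 * p) f
  set Z : ℝ := ((p * q * m : ℕ) : ℝ) with hZ
  have hZ1 : 1 ≤ Z := by
    rw [hZ]; exact_mod_cast Nat.mul_pos (Nat.mul_pos hp0 hq0) hm
  have hZ0 : 0 < Z := by linarith
  have hqZ : (q : ℝ) ≤ Z := by
    rw [hZ]; push_cast
    calc (q : ℝ) = 1 * q * 1 := by ring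
      _ ≤ p * q * m := by gcongr
  set r : ℝ := Real.sqrt (m * (m.gcd (p * q) : ℕ)) with hr
  have hr0 : 0 ≤ r := Real.sqrt_nonneg _
  have h1 := coeff_bound hf h4 hsq hcop24 hm
  have h2 := hsum p hp χ q hsq hcop m hm
  rw [← hr, ← hZ] at h2
  set T : ℝ := ∑ c ∈ (Finset.Icc 1 ⌊Real.sqrt 2 * m⌋₊).filter (24 * p * q ∣ ·),
        ‖kTot m (mS (24 * p) q χ) c‖ / c with hT
  have hσ : ((ArithmeticFunction.sigma 1 q : ℕ) : ℝ) ≤ q * (A * Z ^ δ) := by
    calc ((ArithmeticFunction.sigma 1 q : ℕ) : ℝ) ≤ q * q.divisors.card := sigma_le q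
      _ ≤ q * (A * (q : ℝ) ^ δ) := by
          have := hA q hq0
          gcongr
      _ ≤ _ := by gcongr
  have hZ4 : 1 ≤ Z ^ (4 * δ) := Real.one_le_rpow hZ1 (by positivity)
  have hW : 0 ≤ r / (p * q) := by positivity
  have h3 : 4 + 12 * T ≤ (4 + 12 * C') * Z ^ (4 * δ) * (1 + r / (p * q)) := by
    have h5 : 4 * 1 * 1 ≤ 4 * Z ^ (4 * δ) * (1 + r / (p * q)) := by
      gcongr
      linarith
    calc 4 + 12 * T ≤ 4 * 1 * 1 + 12 * (C' * Z ^ (4 * δ) * (1 + r / (p * q))) := by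
          linarith
      _ ≤ 4 * Z ^ (4 * δ) * (1 + r / (p * q)) + 12 * (C' * Z ^ (4 * δ) * (1 + r / (p * q))) := by
          linarith
      _ = _ := by ring
  have hT0 : 0 ≤ 4 + 12 * T := by positivity
  have hs0 : 0 ≤ Real.sqrt (q * m) := Real.sqrt_nonneg _
  calc ‖fourierCoeff f (q * m)‖ ^ 2
      ≤ 2 * Real.exp (16 * Real.pi) * Real.sqrt (q * m) *
        (ArithmeticFunction.sigma 1 q : ℕ) * (4 + 12 * T) * petNorm (24 * p) f := h1
    _ ≤ 2 * Real.exp (16 * Real.pi) * Real.sqrt (q * m) *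
        (q * (A * Z ^ δ)) * ((4 + 12 * C') * Z ^ (4 * δ) * (1 + r / (p * q))) *
          petNorm (24 * p) f := by gcongr
    _ = (2 * Real.exp (16 * Real.pi) * A * (4 + 12 * C')) * (Z ^ δ * Z ^ (4 * δ)) *
        Real.sqrt (q * m) * (q * (1 + r / (p * q))) * petNorm (24 * p) f := by ring
    _ = _ := by
        rw [← Real.rpow_add hZ0]
        have e1 : δ + 4 * δ = ε := by rw [hδ]; ring
        have e2 : (q : ℝ) * (1 + r / (p * q)) = q + r / p := by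
          have : (p : ℝ) ≠ 0 := by positivity
          field_simp
        rw [e1, e2]

theorem hybrid (ε : ℝ) (hε : 0 < ε) : ∃ C : ℝ, 0 < C ∧ ∀ p : ℕ, p.Prime →
    ∀ (χ : DirichletCharacter ℂ (24 * p)) (K : ℕ) (φ : Fin K → ℍ → ℂ),
    (∀ k, IsCuspForm (24 * p) χ (φ k)) →
    (∀ j k, peterssonInner (24 * p) (φ j) (φ k) = if j = k then 1 else 0) →
    ∀ q : ℕ, Squarefree q → q.Coprime (6 * p) → ∀ m : ℕ, 0 < m →
      ∑ k, ‖fourierCoeff (φ k) (q * m)‖ ^ 2 ≤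
        C * ((p * q * m : ℕ) : ℝ) ^ ε * Real.sqrt (q * m) *
          (q + Real.sqrt (m * (m.gcd (p * q) : ℕ)) / p) := by
  obtain ⟨C, hC, h⟩ := hybrid_single ε hε
  refine ⟨C, hC, ?_⟩
  intro p hp χ K φ hφ hon q hsq hcop m hm
  have hp0 := hp.pos
  have : NeZero (24 * p) := ⟨by omega⟩
  have h1 := duality hφ hon {q * m} (L := C * ((p * q * m : ℕ) : ℝ) ^ ε * Real.sqrt (q * m) *
          (q + Real.sqrt (m * (m.gcd (p * q) : ℕ)) / p)) (by positivity) (fun f hf ↦ by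
            rw [Finset.sum_singleton]
            exact h p hp χ f hf q hsq hcop m hm) (fun _ ↦ 1)
  simpa using h1

end

end Pool.Agent.Work.MP_af11aa_nt.K
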